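import Mathlib
import Pool.Agent.Run7.h402.PY.Y2

/-!
# Telescoping in mean square over families of integers
-/

set_option autoImplicit false

open Finset

namespace Run7.h402.PG

open Run7.h402.PX Run7.h402.PT Run7.h402.PV Run7.h402.PY
open Pool.Agent.H807R2.Dav
open Pool.Agent.H373R2.T7

noncomputable section

theorem ediv_abs (x : ℤ) (W r : ℕ) (hr : r < W) (x' : ℤ) (h : x = W * x' + r) : |x'| ≤ |x| := by
  have hW : (1 : ℤ) ≤ W := by omega
  rcases le_or_gt 0 x' with h0 | h0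
  · rw [abs_of_nonneg h0]
    have h1 : x' ≤ W * x' := by nlinarith
    have h2 : 0 ≤ x := by nlinarith
    rw [abs_of_nonneg h2]
    omega
  · have h1 : (W : ℤ) * (x' + 1) ≤ 1 * (x' + 1) := by nlinarith
    have h2 : x ≤ x' := by
      have : (W : ℤ) * (x' + 1) = W * x' + W := by ring
      omega
    rw [abs_of_neg h0, abs_of_neg (by omega)]
    omega

/-- correlations of two translates -/
theorem corr_fam (F : ℕ → ℝ) (hF : ∀ n, 0 ≤ F n) (w z W U S r : ℕ) (hr : r < W) (hz : W ≤ z) (hF0 : ∀ n ≤ z, F n = 0)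
    (M : ℝ) (hM : 0 ≤ M)
    (hPB : ∀ s0 δ : ℕ, 1 ≤ δ → s0 + U + δ ≤ S → ∑ n ∈ Icc 1 U, F (W * (s0 + n) + r) * F (W * (s0 + n + δ) + r) ≤ M * hh w δ ^ 2)
    (x y : ℤ) (hxy : x ≠ y) (hx : x % W = r) (hy : y % W = r) (S1 : ℕ) (hbx : |x| ≤ S1) (hby : |y| ≤ S1) (hS : 9 * S1 + U ≤ S) :
    |∑ u ∈ range U, F ((x + W * u).toNat) * F ((y + W * u).toNat)| ≤ M * hh w (x - y).natAbs ^ 2 := by
  have hx' : x = W * (x / W) + r := by rw [← hx]; exact (Int.mul_ediv_add_emod x W).symm
  have hy' : y = W * (y / W) + r := by rw [← hy]; exact (Int.mul_ediv_add_emod y W).symm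
  obtain ⟨x', hx1⟩ : ∃ x', x' = x / (W : ℤ) := ⟨_, rfl⟩
  obtain ⟨y', hy1⟩ : ∃ y', y' = y / (W : ℤ) := ⟨_, rfl⟩
  rw [← hx1] at hx'
  rw [← hy1] at hy'
  have ha : y' - x' ≠ 0 := by
    intro h
    apply hxy
    have : x' = y' := by omega
    rw [hx', hy', this]
  have hxa := ediv_abs x W r hr x' hx'
  have hya := ediv_abs y W r hr y' hy'
  have h1 := corr_line' (fun n => F (W * n + r)) (fun n => hF _) (by simpa using hF0 r (by omega)) w 2 U S M hM hPB (y' - x') x' ha (by
    rw [Int.abs_eq_natAbs, Int.abs_eq_natAbs] at hxa hya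
    rw [Int.abs_eq_natAbs] at hbx hby
    have e1 : (y' - x').natAbs ≤ 2 * S1 := by omega
    have e2 : x'.natAbs ≤ S1 := by omega
    omega) 0 1 (by norm_num) (by norm_num) (by norm_num)
  have e0 : ∑ u ∈ range U, F ((x + W * u).toNat) * F ((y + W * u).toNat) =
      ∑ u ∈ range U, (fun n => F (W * n + r)) (((y' - x') * ((0 : ℕ) : ℤ) + u + x').toNat) * (fun n => F (W * n + r)) (((y' - x') * ((1 : ℕ) : ℤ) + u + x').toNat) := by
    apply sum_congr rfl
    intro u _
    simp only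
    rw [← toNat_line F z W r hr hz hF0, ← toNat_line F z W r hr hz hF0]
    congr 3
    · rw [hx']
      push_cast
      ring
    · rw [hy']
      push_cast
      ring
  rw [e0]
  refine h1.trans ?_
  apply mul_le_mul_of_nonneg_left _ hM
  have h2 : hh w (((1 : ℕ) : ℤ) - ((0 : ℕ) : ℤ)).natAbs = 1 := by
    unfold hh
    simp
  rw [h2, mul_one]
  have h3 := hh_one w (y' - x').natAbs
  apply pow_le_pow_left₀ (by linarith)
  unfold hh
  apply prod_le_prod_of_subset_of_one_le
  · intro p hp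
    rw [mem_filter, Nat.mem_primeFactors] at hp ⊢
    refine ⟨⟨hp.1.1, ?_, ?_⟩, hp.2⟩
    · have e : (x - y) = W * (x' - y') := by rw [hx', hy']; ring
      rw [e, Int.natAbs_mul]
      apply Dvd.dvd.mul_left
      have : (x' - y').natAbs = (y' - x').natAbs := by omega
      rw [this]
      exact hp.1.2.1
    · omega
  · intro p hp
    have := fac_inv p (Nat.prime_of_mem_primeFactors (mem_filter.1 hp).1)
    linarith
  · intro p hp _
    exact fac_inv p (Nat.prime_of_mem_primeFactors (mem_filter.1 hp).1)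

/-- the box norm from a law for one factor -/
theorem box_abs (C : Finset ℕ) (U : ℕ) (x : ℕ → ℕ → ℝ) (B0 : ℝ) (hB0 : 0 ≤ B0) (hB : ∀ t ∈ C, ∀ u ∈ range U, |x t u| ≤ B0) (Λ : ℝ)
    (hlaw : ∀ c : ℕ → ℝ, (∀ t ∈ C, |c t| ≤ B0) → ∑ u ∈ range U, |∑ t ∈ C, c t * x t u| ≤ Λ) :
    ∑ t ∈ C, ∑ t' ∈ C, (∑ u ∈ range U, x t u * x t' u) ^ 2 ≤ U * (C.card * B0 ^ 2 * Λ) := by
  have hex : ∑ t ∈ C, ∑ t' ∈ C, (∑ u ∈ range U, x t u * x t' u) ^ 2 =
      ∑ u ∈ range U, ∑ u' ∈ range U, (∑ t ∈ C, x t u * x t u') ^ 2 := by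
    have h1 : ∀ t t' : ℕ, (∑ u ∈ range U, x t u * x t' u) ^ 2 = ∑ u ∈ range U, ∑ u' ∈ range U, (x t u * x t u') * (x t' u * x t' u') := by
      intro t t'
      rw [pow_two, sum_mul_sum]
      apply sum_congr rfl
      intro u _
      apply sum_congr rfl
      intro u' _
      ring
    have h2 : ∀ u u' : ℕ, (∑ t ∈ C, x t u * x t u') ^ 2 = ∑ t ∈ C, ∑ t' ∈ C, (x t u * x t u') * (x t' u * x t' u') := by
      intro u u'
      rw [pow_two, sum_mul_sum]
    simp only [h1, h2]
    rw [sum_congr rfl fun t _ => sum_comm]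
    rw [sum_comm]
    apply sum_congr rfl
    intro u _
    rw [sum_congr rfl fun t _ => sum_comm]
    rw [sum_comm]
  rw [hex]
  have hu : ∀ u ∈ range U, ∑ u' ∈ range U, (∑ t ∈ C, x t u * x t u') ^ 2 ≤ C.card * B0 ^ 2 * Λ := by
    intro u hu
    have hsq : ∀ u' ∈ range U, (∑ t ∈ C, x t u * x t u') ^ 2 ≤ (C.card * B0 ^ 2) * |∑ t ∈ C, x t u * x t u'| := by
      intro u' hu'
      rw [← sq_abs, pow_two]
      apply mul_le_mul_of_nonneg_right _ (abs_nonneg _)
      refine (abs_sum_le_sum_abs _ _).trans ?_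
      have h1 : ∀ t ∈ C, |x t u * x t u'| ≤ B0 ^ 2 := by
        intro t ht
        rw [abs_mul, pow_two]
        exact mul_le_mul (hB t ht u hu) (hB t ht u' hu') (abs_nonneg _) hB0
      refine (sum_le_sum h1).trans (le_of_eq ?_)
      rw [sum_const, nsmul_eq_mul]
    refine (sum_le_sum hsq).trans ?_
    rw [← mul_sum]
    apply mul_le_mul_of_nonneg_left _ (by positivity)
    exact hlaw (fun t => x t u) (fun t ht => hB t ht u hu)
  refine (sum_le_sum hu).trans (le_of_eq ?_)
  rw [sum_const, card_range, nsmul_eq_mul]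

/-- the mean square telescoping for families -/
theorem tele_fam {K : ℕ} (T w : ℕ) (C : Finset ℕ) (hC : C ⊆ range T) (U : Fin K → ℕ) (v : Fin K → ℕ → ℤ) (f g : Fin K → ℕ → ℕ → ℝ)
    (B0 M ε Mo η : ℝ) (hB0 : 0 ≤ B0) (hM : 0 ≤ M) (hε : 0 ≤ ε) (hMo : 0 ≤ Mo) (hη : 0 ≤ η)
    (hf : ∀ i, ∀ t ∈ C, ∀ t' ∈ C, v i t ≠ v i t' → |∑ u ∈ range (U i), f i t u * f i t' u| ≤ U i * (M * hh w (v i t - v i t').natAbs ^ 2))
    (hg : ∀ i, ∀ t ∈ C, ∀ t' ∈ C, v i t ≠ v i t' → |∑ u ∈ range (U i), g i t u * g i t' u| ≤ U i * (M * hh w (v i t - v i t').natAbs ^ 2))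
    (hfB : ∀ i, ∀ t ∈ C, ∀ u ∈ range (U i), 0 ≤ f i t u ∧ f i t u ≤ B0) (hgB : ∀ i, ∀ t ∈ C, ∀ u ∈ range (U i), 0 ≤ g i t u ∧ g i t u ≤ B0)
    (hbox : ∀ j, ∑ t ∈ C, ∑ t' ∈ C, (∑ u ∈ range (U j), (f j t u - g j t u) * (f j t' u - g j t' u)) ^ 2 ≤ ε * (T * U j) ^ 2)
    (hmom : ∀ i, ∑ t ∈ C, ∑ t' ∈ C, (if v i t = v i t' then 0 else hh w (v i t - v i t').natAbs ^ (4 * (K - 1))) ≤ (T : ℝ) ^ 2 * Mo)
    (heq : ∀ i, (((C ×ˢ C).filter (fun x => v i x.1 = v i x.2)).card : ℝ) ≤ (T : ℝ) ^ 2 * η)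
    (c : ℕ → ℝ) (hc : ∀ t, |c t| ≤ 1) :
    ∑ u ∈ Fintype.piFinset (fun i : Fin K => range (U i)), |∑ t ∈ C, c t * (∏ i, f i t (u i) - ∏ i, g i t (u i))| ≤
      K * ((∏ i, (U i : ℝ)) * √(K * ((T : ℝ) ^ 2 * η * (B0 ^ 2) ^ K) + K * (M ^ (K - 1) * (√ε * (T : ℝ) ^ 2 * √Mo)))) := by
  classical
  rcases Nat.eq_zero_or_pos K with hK0 | hK
  · subst hK0
    simp
  haveI : Nonempty (Fin K) := ⟨⟨0, hK⟩⟩
  set P : Fin K → ℕ → ℕ → ℝ := fun i t u => if t ∈ C then f i t u else 0 with hP
  set Q : Fin K → ℕ → ℕ → ℝ := fun i t u => if t ∈ C then g i t u else 0 with hQ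
  set hi : Fin K → ℕ → ℕ → ℝ := fun i t t' => hh w (v i t - v i t').natAbs with hhi
  have hi1 : ∀ i t t', 1 ≤ hi i t t' := fun i t t' => hh_one w _
  set mx : ℕ → ℕ → ℝ := fun t t' => univ.sup' univ_nonempty (fun i => hi i t t') with hmx
  have hmxle : ∀ i t t', hi i t t' ≤ mx t t' := fun i t t' => le_sup' (fun i => hi i t t') (mem_univ i)
  have hmx1 : ∀ t t', 1 ≤ mx t t' := fun t t' => (hi1 ⟨0, hK⟩ t t').trans (hmxle _ t t')
  have hmxpow : ∀ t t' (n : ℕ), mx t t' ^ n ≤ ∑ i, hi i t t' ^ n := by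
    intro t t' n
    obtain ⟨i, _, hi'⟩ := exists_mem_eq_sup' univ_nonempty (fun i => hi i t t')
    have e : mx t t' = hi i t t' := hi'
    rw [e]
    exact single_le_sum (f := fun i => hi i t t' ^ n) (fun j _ => by have := hi1 j t t'; positivity) (mem_univ i)
  set H : ℕ → ℕ → ℝ := fun t t' => if ∃ i, v i t = v i t' then B0 ^ 2 else M * mx t t' ^ 2 with hH
  have hH0 : ∀ t ∈ range T, ∀ t' ∈ range T, 0 ≤ H t t' := by
    intro t _ t' _
    have := hmx1 t t'
    rw [hH]
    simp only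
    split_ifs <;> positivity
  have hself : ∀ F : Fin K → ℕ → ℕ → ℝ, (∀ i, ∀ t ∈ C, ∀ t' ∈ C, v i t ≠ v i t' → |∑ u ∈ range (U i), F i t u * F i t' u| ≤ U i * (M * hh w (v i t - v i t').natAbs ^ 2)) →
      (∀ i, ∀ t ∈ C, ∀ u ∈ range (U i), 0 ≤ F i t u ∧ F i t u ≤ B0) → ∀ i, ∀ t ∈ range T, ∀ t' ∈ range T,
      |∑ u ∈ range (U i), (if t ∈ C then F i t u else 0) * (if t' ∈ C then F i t' u else 0)| ≤ U i * H t t' := by
    intro F hF hFB i t ht t' ht'
    by_cases h1 : t ∈ C
    · by_cases h2 : t' ∈ C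
      · simp only [if_pos h1, if_pos h2]
        rw [hH]
        simp only
        split_ifs with h
        · refine (abs_sum_le_sum_abs _ _).trans ?_
          have h3 : ∀ u ∈ range (U i), |F i t u * F i t' u| ≤ B0 ^ 2 := by
            intro u hu
            have a1 := hFB i t h1 u hu
            have a2 := hFB i t' h2 u hu
            rw [abs_of_nonneg (mul_nonneg a1.1 a2.1), pow_two]
            exact mul_le_mul a1.2 a2.2 a2.1 hB0
          refine (sum_le_sum h3).trans (le_of_eq ?_)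
          rw [sum_const, card_range, nsmul_eq_mul]
        · push Not at h
          refine (hF i t h1 t' h2 (h i)).trans ?_
          apply mul_le_mul_of_nonneg_left _ (Nat.cast_nonneg _)
          apply mul_le_mul_of_nonneg_left _ hM
          exact pow_le_pow_left₀ (by have := hi1 i t t'; linarith) (hmxle i t t') 2
      · simp only [if_neg h2, mul_zero, sum_const_zero, abs_zero]
        exact mul_nonneg (Nat.cast_nonneg _) (hH0 t ht t' ht')
    · simp only [if_neg h1, zero_mul, sum_const_zero, abs_zero]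
      exact mul_nonneg (Nat.cast_nonneg _) (hH0 t ht t' ht')
  have hE : ∀ j, ∑ t ∈ range T, ∑ t' ∈ range T,
      |∑ u ∈ range (U j), (P j t u - Q j t u) * (P j t' u - Q j t' u)| * H t t' ^ (K - 1) ≤
      U j * (K * ((T : ℝ) ^ 2 * η * (B0 ^ 2) ^ K) + K * (M ^ (K - 1) * (√ε * (T : ℝ) ^ 2 * √Mo))) := by
    intro j
    set R : ℕ → ℕ → ℝ := fun t t' => ∑ u ∈ range (U j), (f j t u - g j t u) * (f j t' u - g j t' u) with hR
    have hsum : ∑ t ∈ range T, ∑ t' ∈ range T, |∑ u ∈ range (U j), (P j t u - Q j t u) * (P j t' u - Q j t' u)| * H t t' ^ (K - 1) =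
        ∑ t ∈ C, ∑ t' ∈ C, |R t t'| * H t t' ^ (K - 1) := by
      rw [← sum_subset hC]
      · apply sum_congr rfl
        intro t ht
        rw [← sum_subset hC]
        · apply sum_congr rfl
          intro t' ht'
          rw [hP, hQ, hR]
          simp only [if_pos ht, if_pos ht']
        · intro t' _ ht'
          rw [hP, hQ]
          simp [ht']
      · intro t _ ht
        rw [hP, hQ]
        simp [ht]
    rw [hsum]
    have hRB : ∀ t ∈ C, ∀ t' ∈ C, |R t t'| ≤ U j * B0 ^ 2 := by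
      intro t ht t' ht'
      rw [hR]
      simp only
      refine (abs_sum_le_sum_abs _ _).trans ?_
      have h3 : ∀ u ∈ range (U j), |(f j t u - g j t u) * (f j t' u - g j t' u)| ≤ B0 ^ 2 := by
        intro u hu
        have a1 := hfB j t ht u hu
        have a2 := hgB j t ht u hu
        have a3 := hfB j t' ht' u hu
        have a4 := hgB j t' ht' u hu
        rw [abs_mul, pow_two]
        apply mul_le_mul _ _ (abs_nonneg _) hB0
        · rw [abs_le]
          constructor <;> linarith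
        · rw [abs_le]
          constructor <;> linarith
      refine (sum_le_sum h3).trans (le_of_eq ?_)
      rw [sum_const, card_range, nsmul_eq_mul]
    have hsplit : ∀ t ∈ C, ∀ t' ∈ C, |R t t'| * H t t' ^ (K - 1) ≤
        ∑ i, ((if v i t = v i t' then U j * (B0 ^ 2) ^ K else 0) +
          M ^ (K - 1) * (|R t t'| * (if v i t = v i t' then 0 else hh w (v i t - v i t').natAbs ^ (2 * (K - 1))))) := by
      intro t ht t' ht'
      have hterm : ∀ i, 0 ≤ (if v i t = v i t' then U j * (B0 ^ 2) ^ K else 0) +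
          M ^ (K - 1) * (|R t t'| * (if v i t = v i t' then 0 else hh w (v i t - v i t').natAbs ^ (2 * (K - 1)))) := by
        intro i
        have := hi1 i t t'
        have h0 : (0 : ℝ) ≤ hh w (v i t - v i t').natAbs := by
          have := hh_one w (v i t - v i t').natAbs
          linarith
        split_ifs <;> positivity
      rw [hH]
      simp only
      split_ifs with h
      · obtain ⟨i, hi'⟩ := h
        refine le_trans ?_ (single_le_sum (f := fun i => (if v i t = v i t' then U j * (B0 ^ 2) ^ K else 0) +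
          M ^ (K - 1) * (|R t t'| * (if v i t = v i t' then 0 else hh w (v i t - v i t').natAbs ^ (2 * (K - 1))))) (fun i _ => hterm i) (mem_univ i))
        simp only [if_pos hi', mul_zero, add_zero]
        calc |R t t'| * (B0 ^ 2) ^ (K - 1) ≤ (U j * B0 ^ 2) * (B0 ^ 2) ^ (K - 1) := mul_le_mul_of_nonneg_right (hRB t ht t' ht') (by positivity)
          _ = U j * (B0 ^ 2) ^ K := by
              rw [mul_assoc, ← pow_succ', Nat.sub_add_cancel hK]
      · push Not at h
        have e1 : ∀ i, (if v i t = v i t' then (U j : ℝ) * (B0 ^ 2) ^ K else 0) +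
          M ^ (K - 1) * (|R t t'| * (if v i t = v i t' then 0 else hh w (v i t - v i t').natAbs ^ (2 * (K - 1)))) =
          M ^ (K - 1) * (|R t t'| * hi i t t' ^ (2 * (K - 1))) := by
          intro i
          rw [if_neg (h i), if_neg (h i), zero_add]
        rw [sum_congr rfl fun i _ => e1 i, ← mul_sum, ← mul_sum, mul_pow, ← pow_mul]
        calc |R t t'| * (M ^ (K - 1) * mx t t' ^ (2 * (K - 1))) = M ^ (K - 1) * (|R t t'| * mx t t' ^ (2 * (K - 1))) := by ring
          _ ≤ _ := by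
            apply mul_le_mul_of_nonneg_left _ (by positivity)
            apply mul_le_mul_of_nonneg_left _ (abs_nonneg _)
            exact hmxpow t t' _
    refine (sum_le_sum fun t ht => sum_le_sum fun t' ht' => hsplit t ht t' ht').trans ?_
    have e2 : ∑ t ∈ C, ∑ t' ∈ C, ∑ i, ((if v i t = v i t' then (U j : ℝ) * (B0 ^ 2) ^ K else 0) +
          M ^ (K - 1) * (|R t t'| * (if v i t = v i t' then 0 else hh w (v i t - v i t').natAbs ^ (2 * (K - 1))))) =
        ∑ i, ((∑ t ∈ C, ∑ t' ∈ C, (if v i t = v i t' then (U j : ℝ) * (B0 ^ 2) ^ K else 0)) +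
          M ^ (K - 1) * ∑ t ∈ C, ∑ t' ∈ C, (|R t t'| * (if v i t = v i t' then 0 else hh w (v i t - v i t').natAbs ^ (2 * (K - 1))))) := by
      rw [sum_congr rfl fun t _ => sum_comm, sum_comm]
      apply sum_congr rfl
      intro i _
      rw [mul_sum, ← sum_add_distrib]
      apply sum_congr rfl
      intro t _
      rw [mul_sum, ← sum_add_distrib]
    rw [e2]
    have hi2 : ∀ i ∈ (univ : Finset (Fin K)), ((∑ t ∈ C, ∑ t' ∈ C, (if v i t = v i t' then (U j : ℝ) * (B0 ^ 2) ^ K else 0)) +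
          M ^ (K - 1) * ∑ t ∈ C, ∑ t' ∈ C, (|R t t'| * (if v i t = v i t' then 0 else hh w (v i t - v i t').natAbs ^ (2 * (K - 1))))) ≤
        U j * (((T : ℝ) ^ 2 * η * (B0 ^ 2) ^ K) + (M ^ (K - 1) * (√ε * (T : ℝ) ^ 2 * √Mo))) := by
      intro i _
      rw [mul_add]
      apply add_le_add
      · rw [← sum_product' (f := fun t t' => if v i t = v i t' then (U j : ℝ) * (B0 ^ 2) ^ K else 0), ← sum_filter, sum_const, nsmul_eq_mul]
        calc _ ≤ ((T : ℝ) ^ 2 * η) * ((U j : ℝ) * (B0 ^ 2) ^ K) := mul_le_mul_of_nonneg_right (heq i) (by positivity)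
          _ = _ := by ring
      · have e3 : (U j : ℝ) * (M ^ (K - 1) * (√ε * (T : ℝ) ^ 2 * √Mo)) = M ^ (K - 1) * ((√ε * (T * U j)) * (T * √Mo)) := by ring
        rw [e3]
        apply mul_le_mul_of_nonneg_left _ (by positivity)
        rw [← sum_product' (f := fun t t' : ℕ => |R t t'| * (if v i t = v i t' then 0 else hh w (v i t - v i t').natAbs ^ (2 * (K - 1))))]
        refine (Real.sum_mul_le_sqrt_mul_sqrt (C ×ˢ C) (fun x => |R x.1 x.2|)
          (fun x => if v i x.1 = v i x.2 then 0 else hh w (v i x.1 - v i x.2).natAbs ^ (2 * (K - 1)))).trans ?_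
        apply mul_le_mul _ _ (Real.sqrt_nonneg _) (by positivity)
        · have e4 : √ε * (T * U j) = √(ε * (T * U j) ^ 2) := by
            rw [Real.sqrt_mul hε, Real.sqrt_sq (by positivity)]
          rw [e4]
          apply Real.sqrt_le_sqrt
          refine le_trans (le_of_eq ?_) (hbox j)
          rw [sum_product (f := fun x : ℕ × ℕ => |R x.1 x.2| ^ 2)]
          apply sum_congr rfl
          intro t _
          apply sum_congr rfl
          intro t' _
          simp only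
          rw [sq_abs]
        · have e4 : (T : ℝ) * √Mo = √((T : ℝ) ^ 2 * Mo) := by
            rw [Real.sqrt_mul (by positivity), Real.sqrt_sq (by positivity)]
          rw [e4]
          apply Real.sqrt_le_sqrt
          refine le_trans (le_of_eq ?_) (hmom i)
          rw [sum_product (f := fun x : ℕ × ℕ => (if v i x.1 = v i x.2 then 0 else hh w (v i x.1 - v i x.2).natAbs ^ (2 * (K - 1))) ^ 2)]
          apply sum_congr rfl
          intro t _
          apply sum_congr rfl
          intro t' _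
          simp only
          split_ifs
          · norm_num
          · rw [← pow_mul]
            congr 1
            ring
    refine (sum_le_sum hi2).trans (le_of_eq ?_)
    rw [sum_const, card_univ, Fintype.card_fin, nsmul_eq_mul]
    ring
  have hmain := tele_sq' T U c (fun t _ => hc t) P Q H hH0 (hself f hf hfB) (hself g hg hgB) _ (by positivity) hE
  refine le_trans (le_of_eq ?_) hmain
  apply sum_congr rfl
  intro u _
  congr 1
  rw [← sum_subset hC]
  · apply sum_congr rfl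
    intro t ht
    rw [hP, hQ]
    simp only [if_pos ht]
  · intro t _ ht
    rw [hP, hQ]
    simp only [if_neg ht]
    rw [sub_self, mul_zero]

end

end Run7.h402.PG
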