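import Mathlib
import Pool.Agent.Run7.h402.PY.Y3

/-!
# The sum over the residue classes, for families
-/

set_option autoImplicit false

open Finset

namespace Run7.h402.PG

open Run7.h402.PX Run7.h402.PT Run7.h402.PV Run7.h402.PY
open Pool.Agent.H807R2.Dav
open Pool.Agent.H373R2.T7

noncomputable section

/-- the class of the arguments -/
def cls (T W : ℕ) (s : ℕ → ℕ) (d : ℕ) : Finset ℕ := (range T).filter (fun t => s t % W = d)

/-- the sum over the residue classes -/
theorem residue_fam {K : ℕ} (W T w z : ℕ) (U : Fin K → ℕ) (hWw : W = Wm w) (hwz : w ≤ z) (s : ℕ → ℕ) (v : Fin K → ℕ → ℤ)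
    (hv : ∀ i, ∀ t ∈ range T, ∀ t' ∈ range T, s t % W = s t' % W → v i t % W = v i t' % W) (c : ℕ → ℝ)
    (hc : ∀ n, |c n| ≤ 1) (Bd : ℝ) (hBd : 0 ≤ Bd)
    (hline : ∀ (d : ℕ) (cc r : Fin K → ℕ), (∀ i, cc i < W) → (∀ i, r i < W) → (∀ i, Nat.Coprime W (r i)) →
      (∀ i, ∀ t ∈ cls T W s d, (v i t + (cc i : ℕ)) % W = r i) →
      ∑ u ∈ Fintype.piFinset (fun i : Fin K => range (U i)), |∑ t ∈ cls T W s d, c t *
        (∏ i, fp z ((v i t + ((W * u i + cc i : ℕ) : ℤ)).toNat) - ∏ i, gp z ((v i t + ((W * u i + cc i : ℕ) : ℤ)).toNat))| ≤ Bd) :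
    ∑ m ∈ Fintype.piFinset (fun i : Fin K => range (W * U i)), |∑ t ∈ range T, c t *
        (∏ i, fp z ((v i t + (m i : ℕ)).toNat) - ∏ i, gp z ((v i t + (m i : ℕ)).toNat))| ≤
      W * (Nat.totient W : ℝ) ^ K * Bd := by
  classical
  have hW : 1 ≤ W := by rw [hWw]; exact Wm_pos w
  have hW0 : (0 : ℤ) < W := by exact_mod_cast hW
  rw [pi_split' W U hW]
  -- the base values
  have hbase : ∀ d, ∃ k : Fin K → ℤ, ∀ i, ∀ t ∈ cls T W s d, v i t % W = k i % W := by
    intro d
    rcases (cls T W s d).eq_empty_or_nonempty with h | ⟨t0, ht0⟩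
    · refine ⟨fun _ => 0, fun i t ht => ?_⟩
      rw [h] at ht
      exact absurd ht (notMem_empty t)
    · refine ⟨fun i => v i t0, fun i t ht => ?_⟩
      unfold cls at ht ht0
      rw [mem_filter] at ht ht0
      exact hv i t ht.1 t0 ht0.1 (by rw [ht.2, ht0.2])
  choose k hk using hbase
  have h1 : ∀ cc ∈ Fintype.piFinset (fun _ : Fin K => range W), ∑ u ∈ Fintype.piFinset (fun i : Fin K => range (U i)),
      |∑ t ∈ range T, c t * (∏ i, fp z ((v i t + ((W * u i + cc i : ℕ) : ℤ)).toNat) - ∏ i, gp z ((v i t + ((W * u i + cc i : ℕ) : ℤ)).toNat))| ≤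
      ∑ d ∈ range W, Bd * ∏ i, (if Nat.Coprime W ((k d i + (cc i : ℕ)) % W).toNat then (1 : ℝ) else 0) := by
    intro cc hcc
    rw [Fintype.mem_piFinset] at hcc
    have h2 : ∀ u ∈ Fintype.piFinset (fun i : Fin K => range (U i)),
        |∑ t ∈ range T, c t * (∏ i, fp z ((v i t + ((W * u i + cc i : ℕ) : ℤ)).toNat) - ∏ i, gp z ((v i t + ((W * u i + cc i : ℕ) : ℤ)).toNat))| ≤
        ∑ d ∈ range W, |∑ t ∈ cls T W s d, c t * (∏ i, fp z ((v i t + ((W * u i + cc i : ℕ) : ℤ)).toNat) - ∏ i, gp z ((v i t + ((W * u i + cc i : ℕ) : ℤ)).toNat))| := by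
      intro u _
      have e : ∑ t ∈ range T, c t * (∏ i, fp z ((v i t + ((W * u i + cc i : ℕ) : ℤ)).toNat) - ∏ i, gp z ((v i t + ((W * u i + cc i : ℕ) : ℤ)).toNat)) =
          ∑ d ∈ range W, ∑ t ∈ cls T W s d, c t * (∏ i, fp z ((v i t + ((W * u i + cc i : ℕ) : ℤ)).toNat) - ∏ i, gp z ((v i t + ((W * u i + cc i : ℕ) : ℤ)).toNat)) := by
        unfold cls
        exact (sum_fiberwise_of_maps_to (fun t _ => mem_range.2 (Nat.mod_lt _ hW)) _).symm
      rw [e]
      exact abs_sum_le_sum_abs _ _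
    refine (sum_le_sum h2).trans ?_
    rw [sum_comm]
    apply sum_le_sum
    intro d _
    set r : Fin K → ℕ := fun i => ((k d i + (cc i : ℕ)) % W).toNat with hr
    have hr1 : ∀ i, r i < W := by
      intro i
      have h1 := Int.emod_nonneg (k d i + (cc i : ℕ)) hW0.ne'
      have h2 := Int.emod_lt_of_pos (k d i + (cc i : ℕ)) hW0
      rw [hr]
      simp only
      omega
    have hrt : ∀ i, ∀ t ∈ cls T W s d, (v i t + (cc i : ℕ)) % W = r i := by
      intro i t ht
      have h1 := Int.emod_nonneg (k d i + (cc i : ℕ)) hW0.ne'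
      rw [hr]
      simp only
      rw [Int.toNat_of_nonneg h1]
      exact Int.ModEq.add_right _ (hk d i t ht)
    by_cases hcop : ∀ i, Nat.Coprime W (r i)
    · have e2 : ∏ i, (if Nat.Coprime W ((k d i + (cc i : ℕ)) % W).toNat then (1 : ℝ) else 0) = 1 := by
        apply prod_eq_one
        intro i _
        rw [if_pos (hcop i)]
      rw [e2, mul_one]
      exact hline d cc r (fun i => mem_range.1 (hcc i)) hr1 hcop hrt
    · push Not at hcop
      obtain ⟨i, hi⟩ := hcop
      have e2 : ∏ i, (if Nat.Coprime W ((k d i + (cc i : ℕ)) % W).toNat then (1 : ℝ) else 0) = 0 :=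
        prod_eq_zero (mem_univ i) (if_neg hi)
      rw [e2, mul_zero]
      apply le_of_eq
      apply sum_eq_zero
      intro u _
      rw [abs_eq_zero]
      apply sum_eq_zero
      intro t ht
      rcases le_or_gt 0 (v i t + ((W * u i + cc i : ℕ) : ℤ)) with h0 | h0
      · have hnc : ¬ Nat.Coprime (Wm w) ((v i t + ((W * u i + cc i : ℕ) : ℤ)).toNat) := by
          rw [← hWw]
          intro hcon
          apply hi
          have h3 : ((v i t + ((W * u i + cc i : ℕ) : ℤ)).toNat) % W = r i := by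
            have h4 := hrt i t ht
            have h5 : (((v i t + ((W * u i + cc i : ℕ) : ℤ)).toNat : ℕ) : ℤ) % W = r i := by
              rw [Int.toNat_of_nonneg h0, ← h4]
              push_cast
              have e6 : v i t + (W * (u i : ℤ) + cc i) = (v i t + cc i) + W * u i := by ring
              rw [e6, Int.add_mul_emod_self_left]
            exact_mod_cast h5
          rw [← h3]
          rw [← Nat.div_add_mod ((v i t + ((W * u i + cc i : ℕ) : ℤ)).toNat) W, Nat.coprime_mul_left_add_right] at hcon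
          exact hcon
        rw [prod_eq_zero (mem_univ i) (fp_cop w z _ hwz hnc), prod_eq_zero (mem_univ i) (gp_cop w z _ hwz hnc), sub_zero, mul_zero]
      · have h3 : (v i t + ((W * u i + cc i : ℕ) : ℤ)).toNat = 0 := by omega
        have h4 : fp z ((v i t + ((W * u i + cc i : ℕ) : ℤ)).toNat) = 0 := by rw [h3]; exact fp_zero z 0 (Nat.zero_le _)
        have h5 : gp z ((v i t + ((W * u i + cc i : ℕ) : ℤ)).toNat) = 0 := by rw [h3]; exact gp_zero z 0 (Nat.zero_le _)
        rw [prod_eq_zero (mem_univ i) h4, prod_eq_zero (mem_univ i) h5, sub_zero, mul_zero]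
  refine (sum_le_sum h1).trans ?_
  rw [sum_comm]
  have h2 : ∀ d ∈ range W, ∑ cc ∈ Fintype.piFinset (fun _ : Fin K => range W),
      Bd * ∏ i, (if Nat.Coprime W ((k d i + (cc i : ℕ)) % W).toNat then (1 : ℝ) else 0) = (Nat.totient W : ℝ) ^ K * Bd := by
    intro d _
    rw [← mul_sum, mul_comm]
    congr 1
    rw [← prod_univ_sum (fun _ : Fin K => range W) (fun i c => if Nat.Coprime W ((k d i + (c : ℕ)) % W).toNat then (1 : ℝ) else 0)]
    rw [prod_congr rfl fun i _ => shift_totient W hW (k d i), prod_const, card_univ, Fintype.card_fin]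
  rw [sum_congr rfl h2, sum_const, card_range, nsmul_eq_mul, mul_assoc]

end

end Run7.h402.PG
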