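import Mathlib

/-!
# Project PG: the Bateman-Horn asymptotic formula for almost all systems of `K ≤ B log log X` polynomials

Interface of the elementary pieces (all closed statements; every proof is in the doc string).
-/

set_option autoImplicit false

open Finset

namespace Run7.h402.PG

noncomputable section

/-- the additive energy of order `h` (the same definition as `Pool.Agent.TH212.EH.En`) -/
def En (h : ℕ) {ι : Type} [Fintype ι] (v : ι → ℤ) : ℕ :=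
  Nat.card {q : (Fin h → ι) × (Fin h → ι) // ∑ j, v (q.1 j) = ∑ j, v (q.2 j)}

/-- the large prime factors (the same definition as `Run7.h402.PX.hh`) -/
def hh (w d : ℕ) : ℝ := ∏ p ∈ d.primeFactors.filter (fun p => w < p), (1 - 1 / (p : ℝ))⁻¹

/-- Piece REP. For every integer `s` the number of the `q` with `∑ v (q.1 j) - ∑ v (q.2 j) = s` is at most `En h v`.
Proof: let `r x` be the number of `a : Fin h → ι` with `∑ v (a j) = x`. The left side is `∑ x, r (x + s) * r x`, which is at most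
`∑ x, (r (x + s) ^ 2 + r x ^ 2) / 2 ≤ ∑ x, r x ^ 2 = En h v` (sums over the finite set of all values). -/
def S_REP : Prop := ∀ (h T : ℕ) (v : Fin T → ℤ) (s : ℤ),
  Nat.card {q : (Fin h → Fin T) × (Fin h → Fin T) // ∑ j, v (q.1 j) - ∑ j, v (q.2 j) = s} ≤ En h v

/-- Piece EQ. Proof: the `p`-th power of the set of the pairs with `v x.1 = v x.2` injects into the set counted by `En p v`
(`(x_j)_j ↦ (fun j => (x_j).1, fun j => (x_j).2)`; use `Fintype.piFinset` or functions `Fin p → Fin T × Fin T`). -/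
def S_EQ : Prop := ∀ (p T : ℕ) (v : Fin T → ℤ), (univ.filter (fun x : Fin T × Fin T => v x.1 = v x.2)).card ^ p ≤ En p v

/-- Piece DV: theorem `t_DV : S_REP → S_DV`. Proof: the `p`-th power of the set of the pairs injects (as in EQ) into the set of the `q` with
`e ∣ ∑ v (q.1 j) - ∑ v (q.2 j)`; this difference is `e * J` with `e * |J| ≤ 2 * p * M`, hence with `2 * (2 * p * M / e) + 1` possible
values of `J`, and for each `J` the number of the `q` is at most `En p v` by REP. -/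
def S_DV : Prop := ∀ (p T M e : ℕ) (v : Fin T → ℤ), 1 ≤ e → (∀ i, |v i| ≤ M) →
  e * (univ.filter (fun x : Fin T × Fin T => (e : ℤ) ∣ v x.1 - v x.2)).card ^ p ≤ (4 * p * M + e) * En p v

/-- Piece SU: theorem `t_SU : S_REP → S_SU`. Proof: split off the last coordinates `a = q.1 (last)`, `b = q.2 (last)` (`Fin.snoc` or `Fin.cons`): for given `a, b` the
rest satisfies `∑ v (q.1 j) - ∑ v (q.2 j) = v b - v a`, at most `En p v` possibilities by REP. -/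
def S_SU : Prop := ∀ (p T : ℕ) (v : Fin T → ℤ), En (p + 1) v ≤ T ^ 2 * En p v

/-- Piece MOA: the large prime factors do not matter. Proof: let `y = ⌊L / 8⌋`. The product of the factors of `hh w d ^ k` over the
primes `p ≤ y` is the product on the right (`p ∈ d.primeFactors` iff `p` prime, `p ∣ d`, as `d ≠ 0`). For `p > y` we have
`(1 - 1 / p)⁻¹ ≤ exp (2 / p) ≤ exp (2 / (L / 8)) = exp (16 / L)` (as `p > L / 8`), and the number `m` of these prime factors of `d` satisfies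
`(L / 8) ^ m ≤ d ≤ exp (D L)`, `m ≤ D L / log (L / 8) ≤ 2 D L / log L` for large `L`. So they contribute at most
`exp (k * m * 16 / L) ≤ exp (B log L * 32 D / log L) = exp (32 B D) ≤ L` for large `L`. -/
def S_MOA : Prop := ∀ B D : ℕ, ∃ L0 : ℝ, ∀ L : ℝ, L0 ≤ L → ∀ d w k : ℕ, d ≠ 0 → (d : ℝ) ≤ Real.exp (D * L) →
  (k : ℝ) ≤ B * Real.log L →
  hh w d ^ k ≤ L * ∏ p ∈ (Icc 1 ⌊L / 8⌋₊).filter (fun p => p.Prime ∧ w < p ∧ p ∣ d), ((1 - 1 / (p : ℝ))⁻¹) ^ k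

/-- Piece MOB: expansion of the product. Proof: `∏ p ∈ P.filter (p ∣ n), (1 + g p) = ∑ Q ⊆ P.filter (p ∣ n), ∏ p ∈ Q, g p`
(`Finset.prod_one_add` or `prod_add_one`), and `Q ⊆ P.filter (p ∣ n)` iff `Q ⊆ P` and `∏ p ∈ Q, p ∣ n`
(`Finset.prod_primes_dvd` and transitivity); exchange the sums. -/
def S_MOB : Prop := ∀ (T : ℕ) (v : Fin T → ℤ) (P : Finset ℕ) (g : ℕ → ℝ), (∀ p ∈ P, p.Prime) →
  ∑ x : Fin T × Fin T, ∏ p ∈ P.filter (fun p : ℕ => (p : ℤ) ∣ v x.1 - v x.2), (1 + g p) =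
    ∑ Q ∈ P.powerset, (∏ p ∈ Q, g p) * ((univ.filter (fun x : Fin T × Fin T => ((∏ p ∈ Q, p : ℕ) : ℤ) ∣ v x.1 - v x.2)).card : ℝ)

/-- Piece MOC: the Euler product. Proof: for `q > w ≥ k` we have `((1 - 1 / q)⁻¹) ^ k ≤ exp (2 k / q) ≤ 1 + 7 k / q` (`exp x ≤ 1 + 7 x / 2`
for `0 ≤ x ≤ 2`, by convexity or monotonicity), so that the factor is at most `1 + 7 k q ^ (-1 - 1 / p) ≤ exp (7 k q ^ (-1 - 1 / p))`,
and the sum of `q ^ (-1 - 1 / p)` over all `q ≥ 1` converges (`Real.summable_nat_rpow`), to a number which depends on `p` only. -/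
def S_MOC : Prop := ∀ p : ℕ, 1 ≤ p → ∃ C : ℝ, 0 < C ∧ ∀ w k y : ℕ, k ≤ w →
  ∏ q ∈ (Icc 1 y).filter (fun q => q.Prime ∧ w < q), (1 + (((1 - 1 / (q : ℝ))⁻¹) ^ k - 1) * (q : ℝ) ^ (-(1 / (p : ℝ)))) ≤ Real.exp (C * k)

/-- Piece MO: the moment; theorem `t_MO : S_DV → S_MOA → S_MOB → S_MOC → S_MO`. Proof: `C' = 2 + (2 C + 1) + ⌈C_p B⌉` say. Let `y = ⌊L / 8⌋`, `P` the set of the primes in `(w, y]`,
`g q = ((1 - 1 / q)⁻¹) ^ k - 1 ≥ 0`. By MOA (with `d = |v x.1 - v x.2| ≤ 2 N L ^ C ≤ exp ((D + 1) L)`) the sum is at most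
`L * ∑ x, ∏ p ∈ P.filter (p ∣ v x.1 - v x.2), (1 + g p)`, by MOB `L * ∑ Q ⊆ P, (∏ Q g) * #{x : e ∣ v x.1 - v x.2}`, `e = ∏ p ∈ Q, p`.
Here `e ≤ ∏ (primes ≤ y) = primorial y ≤ 4 ^ y ≤ exp (L / 4) ≤ N` (`primorial_le_four_pow`). By DV with `M = ⌊N L ^ C⌋`
(`e ≤ N ≤ M`): `e * card ^ p ≤ 5 p M En ≤ 5 p N L ^ C En ≤ 5 p L ^ (2 C) T ^ (2 p)`, hence
`card ≤ (5 p L ^ (2 C)) ^ (1 / p) * T ^ 2 * e ^ (-1 / p) ≤ 5 p L ^ (2 C) * T ^ 2 * ∏ p' ∈ Q, p' ^ (-1 / p)`. Summing over `Q`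
(`Finset.prod_one_add` backwards) gives the product of MOC, at most `exp (C_p k) ≤ exp (C_p B log L) = L ^ (C_p B)`; and `5 p ≤ L`. -/
def S_MO : Prop := ∀ p B C D : ℕ, 1 ≤ p → ∃ C' : ℕ, ∃ L0 : ℝ, ∀ L : ℝ, L0 ≤ L →
  ∀ (T N : ℕ) (v : Fin T → ℤ), Real.exp (L / 4) ≤ N → (N : ℝ) ≤ Real.exp (D * L) → (∀ i, (|v i| : ℝ) ≤ N * L ^ C) →
  (En p v : ℝ) * N ≤ L ^ C * (T : ℝ) ^ (2 * p) → ∀ w k : ℕ, k ≤ w → (k : ℝ) ≤ B * Real.log L →
  ∑ x : Fin T × Fin T, (if v x.1 = v x.2 then 0 else hh w (v x.1 - v x.2).natAbs ^ k) ≤ (T : ℝ) ^ 2 * L ^ C'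

end

end Run7.h402.PG
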