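import Mathlib
import Pool.Agent.Run7.h402.PY.Y1
import Pool.Agent.Run7.h536.QC1

/-!
# Project PG: the law for one factor
-/

set_option autoImplicit false

open Finset

namespace Run7.h402.PG

open Run7.h402.PX Run7.h402.PY
open Pool.Agent.H373R2.T7

noncomputable section

/-- Piece LF: the law for one factor. `L = log T`. Proof: apply `Pool.Agent.Run7.h536.QC.dualc p 2 (2 * C + 2) 0 U` with
`N' = N * (⌈L ^ C⌉₊ + 1)` (so `N' ≥ H`, `N' ≤ 3 N L ^ C`, `L ≤ log N' ≤ (D + 2) L ≤ L ^ 2`) to the family `t ↦ v t - 1` (the energy does not change;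
`B0` here is `2 * B0'`, since `(log N') ^ B0' ≤ L ^ (2 B0')`), and `c = m + 1`. This gives
`∑ m < H, |∑ t, w t * dI z (v t + m)| ≤ N' T / (log N') ^ U ≤ 3 N L ^ C T / L ^ U`. Here `dI z m = lamI m - lamzI z m` (zero for `m ≤ 0`);
the difference of `dI z m` and `Dz z m.toNat` is, for `m ≥ 1`, `(Λ m - lamz z m) - Dz z m` and its sum over `1 ≤ m ≤ 3 N'` is at most
`2 √(3 N') log (3 N') + z (log z + (Vz z)⁻¹)` by `Run7.h402.PY.l1_fg` (`(Vz z)⁻¹ ≤ L` by `Vz_inv_small`), which is at most `N / L ^ (A + 1)` for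
large `T`; for each `t` the `m < H` give different arguments, so the contribution is at most `T N / L ^ (A + 1)`. Compare `PY/Y1.lean`. -/
def S_LF : Prop := ∀ p C D A : ℕ, 1 ≤ p → ∃ B0 : ℕ, ∀ E : ℕ, ∃ T0 : ℕ, ∀ T : ℕ, T0 ≤ T → ∀ (N : ℕ) (v : ℕ → ℤ), T ≤ N → (N : ℝ) ≤ (T : ℝ) ^ D →
  (∀ t < T, (|v t| : ℝ) ≤ N * Real.log T ^ C) →
  (Pool.Agent.TH212.EH.En p (fun t : Fin T => v t) : ℝ) * N ≤ Real.log T ^ C * (T : ℝ) ^ (2 * p) →
  ∀ z : ℕ, Real.log T ^ B0 ≤ z → (z : ℝ) ≤ Real.log T ^ E → ∀ H : ℕ, (H : ℝ) ≤ N * Real.log T ^ C →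
  ∀ w : ℕ → ℝ, (∀ t < T, |w t| ≤ 1) →
  ∑ m ∈ range H, |∑ t ∈ range T, w t * Dz z ((v t + m).toNat)| ≤ T * N / Real.log T ^ A

end

end Run7.h402.PG
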