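import Mathlib
import Pool.Agent.Run7.h402.PY.Y4
import Pool.Agent.Run7.h402.PG.Iface
import Pool.Agent.Run7.h402.PG.IfaceL
import Pool.Agent.Run7.h402.PG.G1
import Pool.Agent.Run7.h402.PG.G2

/-!
# The numerical parts of the comparison for families
-/

set_option autoImplicit false

open Finset

namespace Run7.h402.PG

open Run7.h402.PX Run7.h402.PT Run7.h402.PV Run7.h402.PY
open Pool.Agent.H807R2.Dav
open Pool.Agent.H373R2.T7
open Pool.Agent.N475.SP (dom)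

noncomputable section

theorem log_sq (c : ℝ) : ∃ L0 : ℝ, ∀ L : ℝ, L0 ≤ L → c * Real.log L ^ 2 ≤ L := by
  obtain ⟨a, h⟩ := dom c 1 2 one_pos
  refine ⟨max 1 (Real.exp a), fun L hL => ?_⟩
  have h1 : Real.exp a ≤ L := (le_max_right _ _).trans hL
  have hL0 : 0 < L := lt_of_lt_of_le one_pos ((le_max_left _ _).trans hL)
  have h2 := h (Real.log L) (by rwa [Real.le_log_iff_exp_le hL0])
  rwa [one_mul, Real.exp_log hL0] at h2

theorem x_part (p B D A : ℕ) (hp : 1 ≤ p) : ∃ L0 : ℝ, ∀ L : ℝ, L0 ≤ L → ∀ K : ℕ, (K : ℝ) ≤ B * Real.log L →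
    √(K * Real.exp (-(L / (2 * p)))) * ((D + 2) * L) ^ K ≤ 1 / L ^ A := by
  obtain ⟨a1, h1⟩ := log_sq (4 * p * (2 * B + A + 1))
  obtain ⟨a2, h2⟩ := log_sq (B : ℝ)
  refine ⟨max (max a1 a2) (max (Real.exp 1) (D + 2)), fun L hL K hK => ?_⟩
  have g1 := h1 L ((le_max_left _ _).trans ((le_max_left _ _).trans hL))
  have g2 := h2 L ((le_max_right _ _).trans ((le_max_left _ _).trans hL))
  have g3 : Real.exp 1 ≤ L := (le_max_left _ _).trans ((le_max_right _ _).trans hL)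
  have g4 : (D : ℝ) + 2 ≤ L := (le_max_right _ _).trans ((le_max_right _ _).trans hL)
  have hL0 : 0 < L := lt_of_lt_of_le (Real.exp_pos _) g3
  obtain ⟨ℓ, hℓ⟩ : ∃ ℓ, ℓ = Real.log L := ⟨_, rfl⟩
  rw [← hℓ] at g1 g2 hK
  have hℓ1 : 1 ≤ ℓ := by rw [hℓ, Real.le_log_iff_exp_le hL0]; exact g3
  have hLe : Real.exp ℓ = L := by rw [hℓ, Real.exp_log hL0]
  have hp0 : (1 : ℝ) ≤ p := by exact_mod_cast hp
  have hKL : (K : ℝ) ≤ L := by
    refine hK.trans (le_trans ?_ g2)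
    apply mul_le_mul_of_nonneg_left _ (Nat.cast_nonneg _)
    nlinarith
  have e1 : √(K * Real.exp (-(L / (2 * p)))) ≤ L * Real.exp (-(L / (4 * p))) := by
    rw [Real.sqrt_le_left (by positivity)]
    have e2 : (L * Real.exp (-(L / (4 * p)))) ^ 2 = L ^ 2 * Real.exp (-(L / (2 * p))) := by
      rw [mul_pow, ← Real.exp_nat_mul]
      congr 2
      push_cast
      field_simp
      ring
    rw [e2]
    apply mul_le_mul_of_nonneg_right _ (Real.exp_pos _).le
    have : (1 : ℝ) ≤ L := by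
      have := Real.add_one_le_exp (1 : ℝ)
      linarith
    nlinarith
  have e3 : ((D + 2) * L) ^ K ≤ Real.exp (2 * B * ℓ ^ 2) := by
    calc ((D + 2) * L) ^ K ≤ (L * L) ^ K := by gcongr
      _ = Real.exp (2 * ℓ * K) := by
          rw [← hLe, ← Real.exp_add, ← Real.exp_nat_mul]
          congr 1
          ring
      _ ≤ Real.exp (2 * B * ℓ ^ 2) := by
          apply Real.exp_le_exp.2
          nlinarith
  calc √(K * Real.exp (-(L / (2 * p)))) * ((D + 2) * L) ^ K ≤ (L * Real.exp (-(L / (4 * p)))) * Real.exp (2 * B * ℓ ^ 2) := by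
        gcongr
    _ = Real.exp (ℓ + -(L / (4 * p)) + 2 * B * ℓ ^ 2) := by rw [Real.exp_add, Real.exp_add, hLe]
    _ ≤ Real.exp (-(A * ℓ)) := by
        apply Real.exp_le_exp.2
        have h3 : (2 * B + A + 1) * ℓ ^ 2 ≤ L / (4 * p) := by
          rw [le_div_iff₀ (by positivity)]
          linarith
        have h4 : ℓ ≤ ℓ ^ 2 := by nlinarith
        have h5 : (A : ℝ) * ℓ ≤ A * ℓ ^ 2 := mul_le_mul_of_nonneg_left h4 (Nat.cast_nonneg _)
        linarith
    _ = 1 / L ^ A := by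
        rw [Real.exp_neg, Real.exp_nat_mul, hLe, one_div]

theorem y_part (B A G C' : ℕ) (L : ℝ) (hL : 1 ≤ L) (hℓ0 : 0 ≤ Real.log L) (K : ℕ) (hK : 1 ≤ K) (hKB : (K : ℝ) ≤ B * Real.log L) (hKL : (K : ℝ) ≤ L) (s : ℝ) (hs : 0 ≤ s)
    (hsG : s ≤ Real.exp G) :
    s ^ (K - 1) * (√(K : ℝ) * √(√(1 / L ^ (C' + 4 * (G * B + 1 + A)) * L ^ C'))) ≤ 1 / L ^ A := by
  have hL0 : 0 < L := by linarith
  have hLe : Real.exp (Real.log L) = L := Real.exp_log hL0
  have e1 : s ^ (K - 1) ≤ L ^ (G * B) := by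
    calc s ^ (K - 1) ≤ (Real.exp G) ^ (K - 1) := pow_le_pow_left₀ hs hsG _
      _ ≤ (Real.exp G) ^ K := pow_le_pow_right₀ (Real.one_le_exp (Nat.cast_nonneg _)) (by omega)
      _ = Real.exp (K * G) := (Real.exp_nat_mul _ _).symm
      _ ≤ Real.exp ((G * B : ℕ) * Real.log L) := by
          apply Real.exp_le_exp.2
          push_cast
          calc (K : ℝ) * G ≤ (B * Real.log L) * G := mul_le_mul_of_nonneg_right hKB (Nat.cast_nonneg _)
            _ = G * B * Real.log L := by ring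
      _ = L ^ (G * B) := by rw [Real.exp_nat_mul, hLe]
  have e2 : √(K : ℝ) ≤ L := by
    rw [Real.sqrt_le_left hL0.le]
    nlinarith
  have e3 : √(√(1 / L ^ (C' + 4 * (G * B + 1 + A)) * L ^ C')) = 1 / L ^ (G * B + 1 + A) := by
    have h1 : 1 / L ^ (C' + 4 * (G * B + 1 + A)) * L ^ C' = ((1 / L ^ (G * B + 1 + A)) ^ 2) ^ 2 := by
      rw [pow_add, ← pow_mul, one_div_pow, ← pow_mul]
      have : (G * B + 1 + A) * (2 * 2) = 4 * (G * B + 1 + A) := by ring
      rw [this]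
      field_simp
    rw [h1, Real.sqrt_sq (by positivity), Real.sqrt_sq (by positivity)]
  rw [e3]
  calc s ^ (K - 1) * (√(K : ℝ) * (1 / L ^ (G * B + 1 + A))) ≤ L ^ (G * B) * (L * (1 / L ^ (G * B + 1 + A))) := by gcongr
    _ = 1 / L ^ A := by
        rw [pow_add, pow_add, pow_one]
        field_simp

/-- the square root of the sum -/
theorem sqrt_part {K : ℕ} (T η B0 M' ε Mo : ℝ) (hT : 0 ≤ T) (hη : 0 ≤ η) (hB0 : 0 ≤ B0) (hM : 0 ≤ M') (hε : 0 ≤ ε) (hMo : 0 ≤ Mo) :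
    √(K * (T ^ 2 * η * (B0 ^ 2) ^ K) + K * (M' ^ (K - 1) * (√ε * T ^ 2 * √Mo))) ≤
      T * (√(K * η) * B0 ^ K + √(M' ^ (K - 1)) * (√(K : ℝ) * √(√(ε * Mo)))) := by
  have hadd : ∀ x y : ℝ, 0 ≤ x → 0 ≤ y → √(x + y) ≤ √x + √y := by
    intro x y hx hy
    rw [Real.sqrt_le_iff]
    refine ⟨by positivity, ?_⟩
    have h1 := Real.sq_sqrt hx
    have h2 := Real.sq_sqrt hy
    nlinarith [Real.sqrt_nonneg x, Real.sqrt_nonneg y, mul_nonneg (Real.sqrt_nonneg x) (Real.sqrt_nonneg y)]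
  refine (hadd _ _ (by positivity) (by positivity)).trans ?_
  rw [mul_add]
  apply add_le_add
  · apply le_of_eq
    have e1 : (K : ℝ) * (T ^ 2 * η * (B0 ^ 2) ^ K) = (K * η) * (T * B0 ^ K) ^ 2 := by
      rw [mul_pow, ← pow_mul, ← pow_mul, mul_comm K 2]
      ring
    rw [e1, Real.sqrt_mul (by positivity), Real.sqrt_sq (by positivity)]
    ring
  · apply le_of_eq
    have e1 : (K : ℝ) * (M' ^ (K - 1) * (√ε * T ^ 2 * √Mo)) = M' ^ (K - 1) * (K * (√(ε * Mo) * T ^ 2)) := by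
      rw [Real.sqrt_mul hε]
      ring
    rw [e1, Real.sqrt_mul (by positivity), Real.sqrt_mul (by positivity), Real.sqrt_mul (by positivity), Real.sqrt_sq hT]
    ring

end

end Run7.h402.PG
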