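import Mathlib
import Pool.Agent.Run7.h402.PG.G4

/-!
# The comparison of the primes with the model for families of integers of small additive energy
-/

set_option autoImplicit false

open Finset

namespace Run7.h402.PG

open Run7.h402.PX Run7.h402.PT Run7.h402.PV Run7.h402.PY
open Pool.Agent.H807R2.Dav
open Pool.Agent.H373R2.T7
open Pool.Agent.N475.SP (dom)

noncomputable section

theorem sum_pairs (T : ℕ) (C : Finset ℕ) (hC : C ⊆ range T) (F : ℕ → ℕ → ℝ) (hF : ∀ t t', 0 ≤ F t t') :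
    ∑ t ∈ C, ∑ t' ∈ C, F t t' ≤ ∑ x : Fin T × Fin T, F x.1 x.2 := by
  rw [Fintype.sum_prod_type]
  have h1 : ∑ t ∈ C, ∑ t' ∈ C, F t t' ≤ ∑ t ∈ range T, ∑ t' ∈ range T, F t t' := by
    refine le_trans (sum_le_sum fun t _ => sum_le_sum_of_subset_of_nonneg hC fun t' _ _ => hF t t') ?_
    exact sum_le_sum_of_subset_of_nonneg hC fun t _ _ => sum_nonneg fun t' _ => hF t t'
  refine h1.trans (le_of_eq ?_)
  rw [Finset.sum_range (fun t => ∑ t' ∈ range T, F t t')]
  apply sum_congr rfl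
  intro t _
  rw [Finset.sum_range (fun t' => F t t')]

/-- the number of pairs with equal values -/
theorem eq_count (hEQ : S_EQ) (p T C : ℕ) (hp : 1 ≤ p) (L : ℝ) (hL0 : 0 < L) (hL : L ^ C ≤ Real.exp (L / 2)) (N : ℕ) (hN : Real.exp L ≤ N) (v : ℕ → ℤ)
    (hE : (En p (fun t : Fin T => v t) : ℝ) * N ≤ L ^ C * (T : ℝ) ^ (2 * p)) (Cs : Finset ℕ) (hC : Cs ⊆ range T) :
    (((Cs ×ˢ Cs).filter (fun x => v x.1 = v x.2)).card : ℝ) ≤ (T : ℝ) ^ 2 * Real.exp (-(L / (2 * p))) := by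
  classical
  have h1 : (((Cs ×ˢ Cs).filter (fun x => v x.1 = v x.2)).card : ℝ) ≤ ((univ.filter (fun x : Fin T × Fin T => v x.1 = v x.2)).card : ℝ) := by
    have h2 := sum_pairs T Cs hC (fun t t' => if v t = v t' then 1 else 0) (fun t t' => by split_ifs <;> norm_num)
    rw [← sum_product' (f := fun t t' => if v t = v t' then (1 : ℝ) else 0), ← sum_filter, ← sum_filter, sum_const, sum_const, nsmul_eq_mul, nsmul_eq_mul, mul_one, mul_one] at h2
    exact h2
  refine h1.trans ?_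
  have h3 : (((univ.filter (fun x : Fin T × Fin T => v x.1 = v x.2)).card : ℝ)) ^ p ≤ En p (fun t : Fin T => v t) := by
    have := hEQ p T (fun t : Fin T => v t)
    exact_mod_cast this
  have hN0 : (0 : ℝ) < N := lt_of_lt_of_le (Real.exp_pos _) hN
  have hp0 : (0 : ℝ) < p := by exact_mod_cast hp
  have h4 : (((univ.filter (fun x : Fin T × Fin T => v x.1 = v x.2)).card : ℝ)) ^ p ≤ ((T : ℝ) ^ 2 * Real.exp (-(L / (2 * p)))) ^ p := by
    refine h3.trans ?_
    have e1 : ((T : ℝ) ^ 2 * Real.exp (-(L / (2 * p)))) ^ p = (T : ℝ) ^ (2 * p) * Real.exp (-(L / 2)) := by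
      rw [mul_pow, ← pow_mul, ← Real.exp_nat_mul]
      congr 2
      field_simp
    rw [e1]
    have h5 : (En p (fun t : Fin T => v t) : ℝ) ≤ L ^ C * (T : ℝ) ^ (2 * p) / N := by
      rw [le_div_iff₀ hN0]
      exact hE
    refine h5.trans ?_
    rw [div_le_iff₀ hN0]
    calc L ^ C * (T : ℝ) ^ (2 * p) ≤ Real.exp (L / 2) * (T : ℝ) ^ (2 * p) := mul_le_mul_of_nonneg_right hL (by positivity)
      _ = (T : ℝ) ^ (2 * p) * (Real.exp (-(L / 2)) * Real.exp L) := by
          rw [← Real.exp_add, mul_comm]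
          congr 2
          ring
      _ ≤ (T : ℝ) ^ (2 * p) * (Real.exp (-(L / 2)) * N) := by gcongr
      _ = _ := by ring
  exact le_of_pow_le_pow_left₀ (by omega) (by positivity) h4

/-- the analytic conditions -/
structure Cf (B C D R p A : ℕ) (L : ℝ) : Prop where
  f1 : L ^ C ≤ Real.exp (L / 2)
  f2 : 1000 * L ^ (4 * R + C + 1) ≤ Real.exp L
  f3 : L ^ (2 * R + C) ≤ Real.exp (3 * L / 4)
  f4 : (D : ℝ) + 3 ≤ L
  f5 : 2 * L ^ (2 * R + 1) ≤ Real.exp (L / 4)
  f6 : ((D : ℝ) + 2) ^ 3 ≤ L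
  f7 : 4 * L ^ C ≤ Real.exp (L / 2)

theorem cf_ev (B C D R p A : ℕ) : ∃ L0 : ℝ, ∀ L : ℝ, L0 ≤ L → Cf B C D R p A L := by
  obtain ⟨a1, h1⟩ := dom 1 (1 / 2) C (by norm_num)
  obtain ⟨a2, h2⟩ := dom 1000 1 (4 * R + C + 1) one_pos
  obtain ⟨a3, h3⟩ := dom 1 (3 / 4) (2 * R + C) (by norm_num)
  obtain ⟨a5, h5⟩ := dom 2 (1 / 4) (2 * R + 1) (by norm_num)
  obtain ⟨a7, h7⟩ := dom 4 (1 / 2) C (by norm_num)
  refine ⟨max (max (max a1 a2) (max a3 a5)) (max (max ((D : ℝ) + 3) (((D : ℝ) + 2) ^ 3)) a7), fun L hL => ?_⟩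
  have g1 : a1 ≤ L := le_trans (le_trans (le_trans (le_max_left _ _) (le_max_left _ _)) (le_max_left _ _)) hL
  have g2 : a2 ≤ L := le_trans (le_trans (le_trans (le_max_right _ _) (le_max_left _ _)) (le_max_left _ _)) hL
  have g3 : a3 ≤ L := le_trans (le_trans (le_trans (le_max_left _ _) (le_max_right _ _)) (le_max_left _ _)) hL
  have g5 : a5 ≤ L := le_trans (le_trans (le_trans (le_max_right _ _) (le_max_right _ _)) (le_max_left _ _)) hL
  have g4 : (D : ℝ) + 3 ≤ L := le_trans (le_trans (le_trans (le_max_left _ _) (le_max_left _ _)) (le_max_right _ _)) hL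
  have g6 : ((D : ℝ) + 2) ^ 3 ≤ L := le_trans (le_trans (le_trans (le_max_right _ _) (le_max_left _ _)) (le_max_right _ _)) hL
  have g7 : a7 ≤ L := le_trans (le_trans (le_max_right _ _) (le_max_right _ _)) hL
  refine ⟨?_, ?_, ?_, g4, ?_, g6, ?_⟩
  · have := h1 L g1
    rwa [one_mul, show 1 / 2 * L = L / 2 by ring] at this
  · have := h2 L g2
    rwa [one_mul] at this
  · have := h3 L g3
    rwa [one_mul, show 3 / 4 * L = 3 * L / 4 by ring] at this
  · have := h5 L g5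
    rwa [show 1 / 4 * L = L / 4 by ring] at this
  · have := h7 L g7
    rwa [show 1 / 2 * L = L / 2 by ring] at this

/-- sizes -/
theorem sizes_fam {B C D R p A : ℕ} {L : ℝ} (cf : Cf B C D R p A L) (hL1 : 1000 ≤ L) (W N H : ℕ) (hW1 : 1 ≤ W) (hW : (W : ℝ) ≤ L ^ (2 * R))
    (hN1 : Real.exp L ≤ N) (hN2 : (N : ℝ) ≤ Real.exp (D * L)) (hH1 : (N : ℝ) ≤ H * L ^ C) (hH2 : (H : ℝ) ≤ N * L ^ C) :
    Real.exp (L / 4) ≤ ((H / W + 1 : ℕ) : ℝ) ∧ W * (H / W + 1) ≤ H + W ∧ H ≤ W * (H / W + 1) ∧ Real.exp (L / 4) ≤ H ∧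
    ((W * (H / W + 1) : ℕ) : ℝ) ≤ N * L ^ (C + 1) ∧
    ((W * (9 * (⌈(N : ℝ) * L ^ C⌉₊ + W) + (H / W + 1) + 1) : ℕ) : ℝ) ≤ Real.exp ((D + 2) * L) := by
  have hL0 : 0 < L := by linarith
  have h1 : H ≤ W * (H / W + 1) := (Nat.lt_mul_div_succ H hW1).le
  have h2 : W * (H / W + 1) ≤ H + W := by
    rw [mul_add, mul_one]
    have := Nat.mul_div_le H W
    omega
  have hWr : (0 : ℝ) < W := by exact_mod_cast hW1
  have hLC : 1 ≤ L ^ C := one_le_pow₀ (by linarith)
  have hL2R : 1 ≤ L ^ (2 * R) := one_le_pow₀ (by linarith)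
  have hN0 : (0 : ℝ) < N := lt_of_lt_of_le (Real.exp_pos _) hN1
  have h3 : Real.exp (L / 4) * W ≤ H := by
    have k1 : Real.exp L ≤ H * L ^ C := hN1.trans hH1
    have k2 : (Real.exp (L / 4) * W) * L ^ C ≤ Real.exp L := by
      calc (Real.exp (L / 4) * W) * L ^ C ≤ (Real.exp (L / 4) * L ^ (2 * R)) * L ^ C := by gcongr
        _ = Real.exp (L / 4) * L ^ (2 * R + C) := by rw [pow_add]; ring
        _ ≤ Real.exp (L / 4) * Real.exp (3 * L / 4) := by
            have := cf.f3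
            gcongr
        _ = Real.exp L := by rw [← Real.exp_add]; congr 1; ring
    have k3 : (Real.exp (L / 4) * W) * L ^ C ≤ H * L ^ C := k2.trans k1
    exact le_of_mul_le_mul_right k3 (by positivity)
  have h4 : Real.exp (L / 4) ≤ H := by
    refine le_trans ?_ h3
    apply le_mul_of_one_le_right (Real.exp_pos _).le
    exact_mod_cast hW1
  have h5 : Real.exp (L / 4) ≤ ((H / W + 1 : ℕ) : ℝ) := by
    have k1 : (H : ℝ) ≤ W * ((H / W + 1 : ℕ) : ℝ) := by exact_mod_cast h1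
    have k2 : Real.exp (L / 4) * W ≤ ((H / W + 1 : ℕ) : ℝ) * W := by linarith
    exact le_of_mul_le_mul_right k2 hWr
  have hWX : (W : ℝ) ≤ Real.exp L := by
    have := cf.f2
    refine hW.trans (le_trans ?_ this)
    calc L ^ (2 * R) ≤ L ^ (4 * R + C + 1) := pow_le_pow_right₀ (by linarith) (by omega)
      _ ≤ _ := by
        have : 0 ≤ L ^ (4 * R + C + 1) := by positivity
        linarith
  have h6 : ((W * (H / W + 1) : ℕ) : ℝ) ≤ N * L ^ (C + 1) := by
    have k1 : ((W * (H / W + 1) : ℕ) : ℝ) ≤ H + W := by exact_mod_cast h2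
    refine k1.trans ?_
    have k2 : (W : ℝ) ≤ N * L ^ C := by
      calc (W : ℝ) ≤ N * 1 := by rw [mul_one]; exact hWX.trans hN1
        _ ≤ _ := by gcongr
    calc (H : ℝ) + W ≤ N * L ^ C + N * L ^ C := add_le_add hH2 k2
      _ = N * L ^ C * 2 := by ring
      _ ≤ N * L ^ C * L := by
          apply mul_le_mul_of_nonneg_left _ (by positivity)
          linarith
      _ = _ := by rw [pow_succ]; ring
  refine ⟨h5, h2, h1, h4, h6, ?_⟩
  have k1 : ((⌈(N : ℝ) * L ^ C⌉₊ : ℕ) : ℝ) ≤ 2 * (N * L ^ C) := by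
    have k2 := (Nat.ceil_lt_add_one (by positivity : 0 ≤ (N : ℝ) * L ^ C)).le
    have k3 : 1 ≤ (N : ℝ) * L ^ C := by
      have : (1 : ℝ) ≤ N := by
        have := Real.add_one_le_exp L
        linarith
      nlinarith
    linarith
  have k4 : ((H / W + 1 : ℕ) : ℝ) ≤ 2 * (N * L ^ C) := by
    have k5 : ((H / W : ℕ) : ℝ) ≤ H := by exact_mod_cast Nat.div_le_self H W
    have k3 : 1 ≤ (N : ℝ) * L ^ C := by
      have : (1 : ℝ) ≤ N := by
        have := Real.add_one_le_exp L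
        linarith
      nlinarith
    push_cast
    linarith
  have k6 : (W : ℝ) ≤ N * L ^ C := by
    calc (W : ℝ) ≤ N * 1 := by rw [mul_one]; exact hWX.trans hN1
      _ ≤ _ := by gcongr
  have k7 : 1 ≤ (N : ℝ) * L ^ C := by
    have : (1 : ℝ) ≤ N := by
      have := Real.add_one_le_exp L
      linarith
    nlinarith
  push_cast at k4 ⊢
  have hC0 : 0 ≤ (N : ℝ) * L ^ C := by positivity
  calc (W : ℝ) * (9 * ((⌈(N : ℝ) * L ^ C⌉₊ : ℝ) + W) + (((H / W : ℕ) : ℝ) + 1) + 1) ≤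
        L ^ (2 * R) * (9 * (2 * (N * L ^ C) + N * L ^ C) + 2 * (N * L ^ C) + N * L ^ C) := by
        apply mul_le_mul hW _ (by positivity) (by positivity)
        linarith
    _ = N * (30 * L ^ (2 * R + C)) := by rw [pow_add]; ring
    _ ≤ Real.exp (D * L) * Real.exp (2 * L) := by
        apply mul_le_mul hN2 _ (by positivity) (Real.exp_pos _).le
        have k8 := cf.f2
        calc 30 * L ^ (2 * R + C) ≤ 1000 * L ^ (4 * R + C + 1) := by
              have : L ^ (2 * R + C) ≤ L ^ (4 * R + C + 1) := pow_le_pow_right₀ (by linarith) (by omega)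
              have : 0 ≤ L ^ (2 * R + C) := by positivity
              linarith
          _ ≤ Real.exp L := k8
          _ ≤ Real.exp (2 * L) := Real.exp_le_exp.2 (by linarith)
    _ = Real.exp ((D + 2) * L) := by rw [← Real.exp_add]; congr 1; ring

end

end Run7.h402.PG
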