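import Mathlib
import Pool.Agent.Run7.h402.PG.G5

/-!
# The comparison of the primes with the model for families of integers of small additive energy: the main theorem
-/

set_option autoImplicit false

open Finset

namespace Run7.h402.PG

open Run7.h402.PX Run7.h402.PT Run7.h402.PV Run7.h402.PY
open Pool.Agent.H807R2.Dav
open Pool.Agent.H373R2.T7
open Pool.Agent.N475.SP (dom)

noncomputable section

theorem class_sub (W U cc : ℕ) (hW : 1 ≤ W) (hcc : cc < W) (F : ℕ → ℝ) (hF : ∀ n, 0 ≤ F n) :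
    ∑ u ∈ range U, F (W * u + cc) ≤ ∑ m ∈ range (W * U), F m := by
  rw [range_split W U hW]
  exact single_le_sum (f := fun b => ∑ t ∈ range U, F (W * t + b)) (fun b _ => sum_nonneg fun t _ => hF _) (mem_range.2 hcc)

/-- the box norm in one class -/
theorem box_fam (T W U cc N : ℕ) (hW : 1 ≤ W) (hcc : cc < W) (Cs : Finset ℕ) (hC : Cs ⊆ range T) (z : ℕ) (v : ℕ → ℤ) (B0 Λ : ℝ) (hB0 : 0 < B0)
    (hDB : ∀ t ∈ Cs, ∀ u ∈ range U, |Dz z ((v t + ((W * u + cc : ℕ) : ℤ)).toNat)| ≤ B0)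
    (hlaw : ∀ w : ℕ → ℝ, (∀ t < T, |w t| ≤ 1) → ∑ m ∈ range (W * U), |∑ t ∈ range T, w t * Dz z ((v t + m).toNat)| ≤ Λ) :
    ∑ t ∈ Cs, ∑ t' ∈ Cs, (∑ u ∈ range U, Dz z ((v t + ((W * u + cc : ℕ) : ℤ)).toNat) * Dz z ((v t' + ((W * u + cc : ℕ) : ℤ)).toNat)) ^ 2 ≤
      U * (Cs.card * B0 ^ 2 * (B0 * Λ)) := by
  classical
  apply box_abs Cs U (fun t u => Dz z ((v t + ((W * u + cc : ℕ) : ℤ)).toNat)) B0 hB0.le hDB
  intro c hc
  have h1 := hlaw (fun t => if t ∈ Cs then c t / B0 else 0) (by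
    intro t _
    split_ifs with h
    · rw [abs_div, abs_of_pos hB0, div_le_one hB0]
      exact hc t h
    · simp)
  have h2 := class_sub W U cc hW hcc (fun m => |∑ t ∈ range T, (if t ∈ Cs then c t / B0 else 0) * Dz z ((v t + m).toNat)|) (fun _ => abs_nonneg _)
  have h3 : ∀ u : ℕ, |∑ t ∈ Cs, c t * Dz z ((v t + ((W * u + cc : ℕ) : ℤ)).toNat)| =
      B0 * |∑ t ∈ range T, (if t ∈ Cs then c t / B0 else 0) * Dz z ((v t + ((W * u + cc : ℕ) : ℤ)).toNat)| := by
    intro u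
    rw [← abs_of_pos hB0, ← abs_mul, abs_of_pos hB0]
    congr 1
    rw [mul_sum, ← sum_subset hC]
    · apply sum_congr rfl
      intro t ht
      rw [if_pos ht]
      field_simp
    · intro t _ ht
      rw [if_neg ht, zero_mul, mul_zero]
  simp only [h3]
  rw [← mul_sum]
  exact mul_le_mul_of_nonneg_left (h2.trans h1) hB0.le

/-- **the comparison of the primes with the model for families of small energy** -/
theorem core_fam (hLF : S_LF) (hMO : S_MO) (hEQ : S_EQ) (A B C D p : ℕ) (hp : 1 ≤ p) : ∃ E0 : ℕ, ∀ E : ℕ, E0 ≤ E → ∃ T0 : ℕ, ∀ T : ℕ, T0 ≤ T →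
    ∀ K : ℕ, 1 ≤ K → (K : ℝ) ≤ B * Real.log (Real.log T) → ∀ (s : ℕ → ℕ) (v : Fin K → ℕ → ℤ) (N H : Fin K → ℕ),
    (∀ i, T ≤ N i) → (∀ i, (N i : ℝ) ≤ (T : ℝ) ^ D) → (∀ i, ∀ t < T, (|v i t| : ℝ) ≤ N i * Real.log T ^ C) →
    (∀ i, (Pool.Agent.TH212.EH.En p (fun t : Fin T => v i t) : ℝ) * N i ≤ Real.log T ^ C * (T : ℝ) ^ (2 * p)) →
    (∀ i, ∀ t < T, ∀ t' < T, ∀ q : ℕ, s t % q = s t' % q → v i t % q = v i t' % q) →
    (∀ i, (N i : ℝ) ≤ H i * Real.log T ^ C) → (∀ i, (H i : ℝ) ≤ N i * Real.log T ^ C) → ∀ c : ℕ → ℝ, (∀ n, |c n| ≤ 1) →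
    ∑ m ∈ Fintype.piFinset (fun i : Fin K => range (H i)), |∑ t ∈ range T, c t *
        (∏ i, fp (zL E (Real.log T)) ((v i t + (m i : ℕ)).toNat) - ∏ i, gp (zL E (Real.log T)) ((v i t + (m i : ℕ)).toNat))| ≤
      T * (∏ i, (H i : ℝ)) / Real.log T ^ A := by
  classical
  obtain ⟨CC, hCC, hpf⟩ := pair_f
  set R : ℕ := 8 * B + 1 with hR
  set s0 : ℝ := √(16 * CC * (D + 2) ^ 2 + 2) with hs
  have hs0 : 0 ≤ s0 := Real.sqrt_nonneg _
  have hs2 : s0 ^ 2 = 16 * CC * (D + 2) ^ 2 + 2 := Real.sq_sqrt (by positivity)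
  set G : ℕ := ⌈s0⌉₊ with hG
  have hGe : s0 ≤ Real.exp G := by
    have h1 := Nat.le_ceil s0
    have h2 := Real.add_one_le_exp (G : ℝ)
    linarith
  obtain ⟨C', La, hmo⟩ := hMO p (4 * B) C D hp
  set A' : ℕ := A + 2 * R + 3 with hA'
  set u0 : ℕ := C' + 4 * (G * B + 1 + A') with hu0
  obtain ⟨B₀, hlaw⟩ := hLF p (C + 1) D (u0 + 2 * R + C + 5) hp
  refine ⟨max (B₀ + 1) (2 * R + 1), fun E hE => ?_⟩
  obtain ⟨N1, hlawE⟩ := hlaw E
  obtain ⟨N2, hVi⟩ := Vz_inv_small E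
  obtain ⟨Lb, hcond⟩ := cond_ev B C 0 R E 0 B₀ ((le_max_right _ _).trans hE) ((le_max_left _ _).trans hE)
  obtain ⟨Lc, hcond2⟩ := cond2_ev C R 0
  obtain ⟨Ld, hcf⟩ := cf_ev B C D R p A
  obtain ⟨Le, hxp⟩ := x_part p B D A' hp
  refine ⟨max (max N1 N2) (max 3 ⌈Real.exp (max (max La Lb) (max (max Lc Ld) Le))⌉₊), fun T hT K hK hKB s v N H hTN hND hvN hEn hcong hNH hHN c hc => ?_⟩
  have hT1 : N1 ≤ T := le_trans (le_trans (le_max_left _ _) (le_max_left _ _)) hT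
  have hT2 : N2 ≤ T := le_trans (le_trans (le_max_right _ _) (le_max_left _ _)) hT
  have hT3 : 3 ≤ T := le_trans (le_trans (le_max_left _ _) (le_max_right _ _)) hT
  have hT0 : (0 : ℝ) < T := by exact_mod_cast (by omega : 0 < T)
  have hTL : Real.exp (max (max La Lb) (max (max Lc Ld) Le)) ≤ T := (Nat.le_ceil _).trans (by exact_mod_cast le_trans (le_trans (le_max_right _ _) (le_max_right _ _)) hT)
  set L : ℝ := Real.log T with hL
  have hLL0 : max (max La Lb) (max (max Lc Ld) Le) ≤ L := by rwa [hL, Real.le_log_iff_exp_le hT0]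
  have cd := hcond L (le_trans (le_trans (le_max_right _ _) (le_max_left _ _)) hLL0)
  have cd2 := hcond2 L (le_trans (le_trans (le_trans (le_max_left _ _) (le_max_left _ _)) (le_max_right _ _)) hLL0)
  have cf := hcf L (le_trans (le_trans (le_trans (le_max_right _ _) (le_max_left _ _)) (le_max_right _ _)) hLL0)
  have hLe : Le ≤ L := le_trans (le_trans (le_max_right _ _) (le_max_right _ _)) hLL0
  have hLa : La ≤ L := le_trans (le_trans (le_max_left _ _) (le_max_left _ _)) hLL0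
  have hL1 := cd.l1
  have hL0 : 0 < L := by linarith
  have hℓ3 := cd.l0
  have hTe : Real.exp L = T := by rw [hL, Real.exp_log hT0]
  have hTD : (T : ℝ) ^ D = Real.exp (D * L) := by rw [Real.exp_nat_mul, hTe]
  set z : ℕ := zL E L with hz
  have hzle : (z : ℝ) ≤ L ^ E := Nat.floor_le (by positivity)
  have hzge : L ^ E - 1 ≤ z := by
    have := Nat.lt_floor_add_one (L ^ E)
    have e : ((⌊L ^ E⌋₊ : ℕ) : ℝ) = z := rfl
    linarith
  obtain ⟨hwℓ, hw2, hw8, hWle, hzW, hwz⟩ := W_facts cd hR K z hKB hzge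
  set w : ℕ := ⌈(R : ℝ) * Real.log L⌉₊ with hw
  set W : ℕ := Wm w with hW
  have hW1 : 1 ≤ W := Wm_pos w
  have hWr : (1 : ℝ) ≤ W := by exact_mod_cast hW1
  have hz1 : 1 ≤ z := le_trans hW1 hzW
  have hTr : (1 : ℝ) ≤ T := by exact_mod_cast (by omega : 1 ≤ T)
  have hVz : (Vz z)⁻¹ ≤ L := hVi T hT2 z hz1 hzle
  have hVz0 : 0 ≤ (Vz z)⁻¹ := inv_nonneg.2 (Vz_pos z).le
  set V : ℝ := Vz w with hV
  have hV0 : 0 < V := Vz_pos w
  have hV1 : V ≤ 1 := Vz_le_one w
  have hVi1 : 1 ≤ V⁻¹ := (one_le_inv₀ hV0).2 hV1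
  set M' : ℝ := s0 ^ 2 * V⁻¹ ^ 2 with hM'
  have hM'0 : 0 ≤ M' := by positivity
  set ε : ℝ := 1 / L ^ u0 with hε
  have hε0 : 0 < ε := by positivity
  set U : Fin K → ℕ := fun i => H i / W + 1 with hU
  have hNe : ∀ i, Real.exp L ≤ N i := by
    intro i
    rw [hTe]
    exact_mod_cast hTN i
  have hND' : ∀ i, (N i : ℝ) ≤ Real.exp (D * L) := fun i => by rw [← hTD]; exact hND i
  have hsz := fun i => sizes_fam cf hL1 W (N i) (H i) hW1 hWle (hNe i) (hND' i) (hNH i) (hHN i)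
  set S1 : Fin K → ℕ := fun i => ⌈(N i : ℝ) * L ^ C⌉₊ + W with hS1
  set Sb : Fin K → ℕ := fun i => 9 * S1 i + U i with hSb
  have hlogS : ∀ i, ∀ n : ℕ, n ≤ W * (Sb i + 1) → Real.log n ≤ (D + 2) * L := by
    intro i n hn
    rcases Nat.eq_zero_or_pos n with h0 | h0
    · rw [h0, Nat.cast_zero, Real.log_zero]
      positivity
    · have h1 : (n : ℝ) ≤ Real.exp ((D + 2) * L) := by
        have h2 : (n : ℝ) ≤ ((W * (Sb i + 1) : ℕ) : ℝ) := by exact_mod_cast hn
        exact h2.trans (hsz i).2.2.2.2.2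
      rw [← Real.log_exp ((D + 2) * L)]
      exact Real.log_le_log (by exact_mod_cast h0) h1
  set B0 : ℝ := (D + 2) * L with hB0
  have hB0pos : 0 < B0 := by positivity
  have hfB : ∀ i, ∀ n : ℕ, n ≤ W * (Sb i + 1) → fp z n ≤ B0 := by
    intro i n hn
    unfold fp
    split_ifs with h
    · exact hlogS i n hn
    · exact hB0pos.le
  have hgB : ∀ n : ℕ, gp z n ≤ B0 := by
    intro n
    have h1 : L ≤ B0 := by
      rw [hB0]
      have : (0 : ℝ) ≤ D := Nat.cast_nonneg _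
      nlinarith
    unfold gp lamz
    split_ifs
    · linarith
    · linarith
    · linarith
  -- pair correlations
  have hPg : ∀ i, ∀ r : ℕ, Nat.Coprime W r → ∀ s0 δ : ℕ, 1 ≤ δ →
      ∑ n ∈ Icc 1 (U i), gp z (W * (s0 + n) + r) * gp z (W * (s0 + n + δ) + r) ≤ (M' * U i) * Run7.h402.PX.hh w δ ^ 2 := by
    intro i r hr t0 δ hδ
    have h1 := pair_g w z r t0 δ (U i) ⌈√L⌉₊ hr hδ hz1 hwz
    have h2 := pairg_part' cd cd2 (U i) z (hsz i).1 hz1 hzle hVz
    have h3 := hh_one w δ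
    refine h1.trans ?_
    have h4 : V⁻¹ ^ 2 * Run7.h402.PX.hh w δ * U i ≤ V⁻¹ ^ 2 * U i * Run7.h402.PX.hh w δ ^ 2 := by
      have : Run7.h402.PX.hh w δ ≤ Run7.h402.PX.hh w δ ^ 2 := by nlinarith
      calc V⁻¹ ^ 2 * Run7.h402.PX.hh w δ * U i = V⁻¹ ^ 2 * U i * Run7.h402.PX.hh w δ := by ring
        _ ≤ _ := by gcongr
    have h5 : (U i : ℝ) ≤ V⁻¹ ^ 2 * U i * Run7.h402.PX.hh w δ ^ 2 := by
      have h6 : 1 ≤ V⁻¹ ^ 2 := one_le_pow₀ hVi1
      have h7 : 1 ≤ Run7.h402.PX.hh w δ ^ 2 := one_le_pow₀ h3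
      calc (U i : ℝ) = 1 * U i * 1 := by ring
        _ ≤ _ := by gcongr
    have h6 : (M' * U i) * Run7.h402.PX.hh w δ ^ 2 = (16 * CC * (D + 2) ^ 2 + 2) * (V⁻¹ ^ 2 * U i * Run7.h402.PX.hh w δ ^ 2) := by
      rw [hM', hs2]
      ring
    have h7 : 0 ≤ V⁻¹ ^ 2 * U i * Run7.h402.PX.hh w δ ^ 2 := by positivity
    have h8 : 0 ≤ CC * (D + 2) ^ 2 * (V⁻¹ ^ 2 * U i * Run7.h402.PX.hh w δ ^ 2) := by positivity
    rw [h6]
    linarith
  have hPf : ∀ i, ∀ r : ℕ, r < W → Nat.Coprime W r → ∀ s0 δ : ℕ, 1 ≤ δ → s0 + U i + δ ≤ Sb i →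
      ∑ n ∈ Icc 1 (U i), fp z (W * (s0 + n) + r) * fp z (W * (s0 + n + δ) + r) ≤ (M' * U i) * Run7.h402.PX.hh w δ ^ 2 := by
    intro i r hrW hr t0 δ hδ ht0
    have hU2 : 2 ≤ U i := by
      have h1 : (2 : ℝ) ≤ U i := by
        have h2 := (hsz i).1
        have h3 := Real.add_one_le_exp (L / 4)
        have h4 : ((H i / W + 1 : ℕ) : ℝ) = U i := rfl
        linarith
      exact_mod_cast h1
    have hU0 : (0 : ℝ) < U i := by exact_mod_cast (by omega : 0 < U i)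
    have h1 := hpf w z r t0 δ (U i) (W * (Sb i + 1)) hr hδ hU2 (by
      have e : W * (Sb i + 1) = W * Sb i + W := by ring
      rw [e]
      have h5 : Wm w * (t0 + U i + δ) ≤ W * Sb i := Nat.mul_le_mul_left W ht0
      exact Nat.add_le_add h5 hrW.le)
    refine h1.trans ?_
    have h2 : L / 4 ≤ Real.log (U i) := by
      rw [Real.le_log_iff_exp_le hU0]
      exact (hsz i).1
    have h3 := hh_one w δ
    set h := Run7.h402.PX.hh w δ with hh0
    set lN := Real.log ((W * (Sb i + 1) : ℕ) : ℝ) with hlN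
    have hlN1 : lN ≤ (D + 2) * L := hlogS i _ le_rfl
    have hlN0 : 0 ≤ lN := Real.log_natCast_nonneg _
    have h4 : lN ^ 2 ≤ (D + 2) ^ 2 * L ^ 2 := by
      calc lN ^ 2 ≤ ((D + 2) * L) ^ 2 := pow_le_pow_left₀ hlN0 hlN1 2
        _ = _ := by ring
    have h5 : (L / 4) ^ 2 ≤ Real.log (U i) ^ 2 := pow_le_pow_left₀ (by linarith) h2 2
    have h6 : CC * (V⁻¹ * h) ^ 2 * U i / Real.log (U i) ^ 2 ≤ CC * (V⁻¹ * h) ^ 2 * U i / (L / 4) ^ 2 :=
      div_le_div_of_nonneg_left (by positivity) (by positivity) h5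
    calc lN ^ 2 * (CC * (V⁻¹ * h) ^ 2 * U i / Real.log (U i) ^ 2) ≤ ((D + 2) ^ 2 * L ^ 2) * (CC * (V⁻¹ * h) ^ 2 * U i / (L / 4) ^ 2) := by
          apply mul_le_mul h4 h6 (by positivity) (by positivity)
      _ = 16 * CC * (D + 2) ^ 2 * (V⁻¹ ^ 2 * U i * h ^ 2) := by
          field_simp
          ring
      _ ≤ (16 * CC * (D + 2) ^ 2 + 2) * (V⁻¹ ^ 2 * U i * h ^ 2) := by
          apply mul_le_mul_of_nonneg_right _ (by positivity)
          linarith
      _ = (M' * U i) * h ^ 2 := by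
          rw [hM', hs2]
          ring
  -- the moments
  have hkw : 4 * (K - 1) ≤ w := by omega
  have hkB : ((4 * (K - 1) : ℕ) : ℝ) ≤ ((4 * B : ℕ) : ℝ) * Real.log L := by
    have h1 : ((K - 1 : ℕ) : ℝ) ≤ K := by exact_mod_cast Nat.sub_le K 1
    push_cast
    nlinarith
  have hmom : ∀ i, ∀ d, ∑ t ∈ cls T W s d, ∑ t' ∈ cls T W s d, (if v i t = v i t' then 0 else Run7.h402.PX.hh w (v i t - v i t').natAbs ^ (4 * (K - 1))) ≤ (T : ℝ) ^ 2 * L ^ C' := by
    intro i d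
    have h1 := hmo L hLa T (N i) (fun t : Fin T => v i t) (by
      refine le_trans ?_ (hNe i)
      exact Real.exp_le_exp.2 (by linarith)) (hND' i) (fun t => hvN i t t.2) (hEn i) w (4 * (K - 1)) hkw hkB
    refine le_trans ?_ h1
    refine le_trans (sum_pairs T (cls T W s d) (filter_subset _ _) (fun t t' => if v i t = v i t' then 0 else Run7.h402.PX.hh w (v i t - v i t').natAbs ^ (4 * (K - 1))) ?_) (le_of_eq rfl)
    intro t t'
    have := hh_one w (v i t - v i t').natAbs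
    split_ifs <;> positivity
  have heq : ∀ i, ∀ d, (((cls T W s d ×ˢ cls T W s d).filter (fun x => v i x.1 = v i x.2)).card : ℝ) ≤ (T : ℝ) ^ 2 * Real.exp (-(L / (2 * p))) :=
    fun i d => eq_count hEQ p T C hp L hL0 cf.f1 (N i) (hNe i) (v i) (hEn i) _ (filter_subset _ _)
  -- one residue class
  set y : ℝ := √(K : ℝ) * √(√(ε * L ^ C')) with hy
  set x : ℝ := √(K * Real.exp (-(L / (2 * p)))) * B0 ^ K with hx
  set Bd : ℝ := K * ((∏ i, (U i : ℝ)) * (T * (x + √(M' ^ (K - 1)) * y))) with hBd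
  have hUpos : 0 ≤ ∏ i, (U i : ℝ) := prod_nonneg fun i _ => Nat.cast_nonneg _
  have hx0 : 0 ≤ x := by positivity
  have hy0 : 0 ≤ y := by positivity
  have hres := residue_fam W T w z U rfl hwz s v (fun i t ht t' ht' h => hcong i t (mem_range.1 ht) t' (mem_range.1 ht') W h) c hc Bd (by positivity) (by
    intro d cc r hcc hr hcop hrt
    have habs : ∀ i, ∀ t ∈ cls T W s d, |v i t + ((cc i : ℕ) : ℤ)| ≤ S1 i := by
      intro i t ht
      have h1 := hvN i t (mem_range.1 (mem_filter.1 ht).1)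
      have h2 : |v i t| ≤ (⌈(N i : ℝ) * L ^ C⌉₊ : ℤ) := by
        have h3 := h1.trans (Nat.le_ceil _)
        exact_mod_cast h3
      have h4 := abs_add_le (v i t) ((cc i : ℕ) : ℤ)
      have h5 : |((cc i : ℕ) : ℤ)| = cc i := abs_of_nonneg (by positivity)
      have h6 := hcc i
      rw [hS1]
      push_cast
      omega
    have hcast : ∀ i, ∀ t u : ℕ, v i t + ((W * u + cc i : ℕ) : ℤ) = (v i t + ((cc i : ℕ) : ℤ)) + W * u := by
      intro i t u
      push_cast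
      ring
    have hval : ∀ i, ∀ t ∈ cls T W s d, ∀ u ∈ range (U i), (v i t + ((W * u + cc i : ℕ) : ℤ)).toNat ≤ W * (Sb i + 1) := by
      intro i t ht u hu
      have h1 := habs i t ht
      have h2 := mem_range.1 hu
      rw [hcast i t u]
      have h3 := le_abs_self (v i t + ((cc i : ℕ) : ℤ))
      have h4 : W * u ≤ W * U i := Nat.mul_le_mul_left _ h2.le
      have h5 : (v i t + ((cc i : ℕ) : ℤ) + W * u).toNat ≤ S1 i + W * U i := by
        have h6 : ((W * u : ℕ) : ℤ) ≤ ((W * U i : ℕ) : ℤ) := by exact_mod_cast h4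
        push_cast at h6
        omega
      refine h5.trans ?_
      have h7 : S1 i ≤ W * S1 i := Nat.le_mul_of_pos_left _ hW1
      have h8 : W * (Sb i + 1) = 9 * (W * S1 i) + W * U i + W := by rw [hSb]; ring
      rw [h8]
      omega
    have hlz : ∀ i, ∑ t ∈ cls T W s d, ∑ t' ∈ cls T W s d, (∑ u ∈ range (U i), Dz z ((v i t + ((W * u + cc i : ℕ) : ℤ)).toNat) * Dz z ((v i t' + ((W * u + cc i : ℕ) : ℤ)).toNat)) ^ 2 ≤
        ε * (T * U i) ^ 2 := by
      intro i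
      have h1 := box_fam T W (U i) (cc i) (N i) hW1 (hcc i) (cls T W s d) (filter_subset _ _) z (v i) B0 (T * N i / L ^ (u0 + 2 * R + C + 5)) hB0pos (by
        intro t ht u hu
        have a1 := hfB i _ (hval i t ht u hu)
        have a2 := hgB ((v i t + ((W * u + cc i : ℕ) : ℤ)).toNat)
        have a3 := fp_nonneg z ((v i t + ((W * u + cc i : ℕ) : ℤ)).toNat)
        have a4 := gp_nonneg z ((v i t + ((W * u + cc i : ℕ) : ℤ)).toNat)
        unfold Dz
        rw [abs_le]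
        constructor <;> linarith) (by
        intro wt hwt
        refine hlawE T hT1 (N i) (v i) (hTN i) (hND i) ?_ ?_ z ?_ hzle (W * U i) (hsz i).2.2.2.2.1 wt hwt
        · intro t ht
          refine (hvN i t ht).trans ?_
          apply mul_le_mul_of_nonneg_left _ (Nat.cast_nonneg _)
          exact pow_le_pow_right₀ (by linarith) (Nat.le_succ C)
        · refine (hEn i).trans ?_
          apply mul_le_mul_of_nonneg_right _ (by positivity)
          exact pow_le_pow_right₀ (by linarith) (Nat.le_succ C)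
        · have h3 := cd.c3
          have h4 : L ^ B₀ ≤ (2 * L) ^ B₀ := pow_le_pow_left₀ hL0.le (by linarith) _
          linarith)
      refine h1.trans ?_
      have hcard : ((cls T W s d).card : ℝ) ≤ T := by
        have : (cls T W s d).card ≤ (range T).card := card_le_card (filter_subset _ _)
        rw [card_range] at this
        exact_mod_cast this
      have hU0 : (0 : ℝ) ≤ U i := Nat.cast_nonneg _
      have hN : (N i : ℝ) ≤ (L ^ (2 * R) * U i) * L ^ C := by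
        refine (hNH i).trans ?_
        apply mul_le_mul_of_nonneg_right _ (by positivity)
        have h2 : (H i : ℝ) ≤ W * U i := by exact_mod_cast (hsz i).2.2.1
        exact h2.trans (mul_le_mul_of_nonneg_right hWle hU0)
      have hB3 : B0 ^ 3 ≤ L ^ 4 := by
        rw [hB0, mul_pow]
        calc ((D : ℝ) + 2) ^ 3 * L ^ 3 ≤ L * L ^ 3 := mul_le_mul_of_nonneg_right cf.f6 (by positivity)
          _ = L ^ 4 := by ring
      have hcN : (0 : ℝ) ≤ N i := Nat.cast_nonneg _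
      calc (U i : ℝ) * ((cls T W s d).card * B0 ^ 2 * (B0 * (T * N i / L ^ (u0 + 2 * R + C + 5)))) ≤
          (U i : ℝ) * (T * B0 ^ 2 * (B0 * (T * ((L ^ (2 * R) * U i) * L ^ C) / L ^ (u0 + 2 * R + C + 5)))) := by gcongr
        _ = (T * U i) ^ 2 * (B0 ^ 3 * (L ^ (2 * R) * L ^ C)) / L ^ (u0 + 2 * R + C + 5) := by ring
        _ ≤ (T * U i) ^ 2 * (L ^ 4 * (L ^ (2 * R) * L ^ C)) / L ^ (u0 + 2 * R + C + 5) := by gcongr
        _ = (1 / L) * (1 / L ^ u0) * (T * U i) ^ 2 := by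
            have e : L ^ (u0 + 2 * R + C + 5) = L ^ u0 * L ^ (2 * R) * L ^ C * L ^ 4 * L := by
              rw [← pow_add, ← pow_add, ← pow_add, ← pow_succ]
            rw [e]
            field_simp
        _ ≤ 1 * (1 / L ^ u0) * (T * U i) ^ 2 := by
            gcongr
            rw [div_le_one hL0]
            linarith
        _ = ε * (T * U i) ^ 2 := by rw [hε]; ring
    have hcorr : ∀ (F : ℕ → ℝ), (∀ n, 0 ≤ F n) → (∀ n ≤ z, F n = 0) → ∀ i, (∀ s0 δ : ℕ, 1 ≤ δ → s0 + U i + δ ≤ Sb i →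
        ∑ n ∈ Icc 1 (U i), F (W * (s0 + n) + r i) * F (W * (s0 + n + δ) + r i) ≤ (M' * U i) * Run7.h402.PX.hh w δ ^ 2) →
        ∀ t ∈ cls T W s d, ∀ t' ∈ cls T W s d, v i t ≠ v i t' →
        |∑ u ∈ range (U i), F ((v i t + ((W * u + cc i : ℕ) : ℤ)).toNat) * F ((v i t' + ((W * u + cc i : ℕ) : ℤ)).toNat)| ≤
          U i * (M' * Run7.h402.PX.hh w (v i t - v i t').natAbs ^ 2) := by
      intro F hF hF0 i hPB t ht t' ht' hne
      have h1 := corr_fam F hF w z W (U i) (Sb i) (r i) (hr i) hzW hF0 (M' * U i) (by positivity) hPB (v i t + ((cc i : ℕ) : ℤ)) (v i t' + ((cc i : ℕ) : ℤ))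
        (fun h => hne (add_right_cancel h)) (hrt i t ht) (hrt i t' ht') (S1 i) (habs i t ht) (habs i t' ht') le_rfl
      have e1 : (v i t + ((cc i : ℕ) : ℤ)) - (v i t' + ((cc i : ℕ) : ℤ)) = v i t - v i t' := by ring
      rw [e1] at h1
      have e2 : (U i : ℝ) * (M' * Run7.h402.PX.hh w (v i t - v i t').natAbs ^ 2) = M' * U i * Run7.h402.PX.hh w (v i t - v i t').natAbs ^ 2 := by ring
      rw [e2]
      refine le_trans (le_of_eq ?_) h1
      congr 1
      apply sum_congr rfl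
      intro u _
      rw [hcast i t u, hcast i t' u]
    have h1 := tele_fam T w (cls T W s d) (filter_subset _ _) U v (fun i t u => fp z ((v i t + ((W * u + cc i : ℕ) : ℤ)).toNat))
      (fun i t u => gp z ((v i t + ((W * u + cc i : ℕ) : ℤ)).toNat)) B0 M' ε (L ^ C') (Real.exp (-(L / (2 * p)))) hB0pos.le hM'0 hε0.le (by positivity) (Real.exp_pos _).le
      (fun i => hcorr (fp z) (fp_nonneg z) (fp_zero z) i (fun s0 δ h1 h2 => hPf i (r i) (hr i) (hcop i) s0 δ h1 h2))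
      (fun i => hcorr (gp z) (gp_nonneg z) (gp_zero z) i (fun s0 δ h1 _ => hPg i (r i) (hcop i) s0 δ h1))
      (fun i t ht u hu => ⟨fp_nonneg _ _, hfB i _ (hval i t ht u hu)⟩) (fun i t ht u hu => ⟨gp_nonneg _ _, hgB _⟩)
      (fun j => hlz j) (fun i => hmom i d) (fun i => heq i d) c hc
    refine h1.trans ?_
    rw [hBd]
    apply mul_le_mul_of_nonneg_left _ (Nat.cast_nonneg _)
    apply mul_le_mul_of_nonneg_left _ hUpos
    exact sqrt_part (T : ℝ) (Real.exp (-(L / (2 * p)))) B0 M' ε (L ^ C') hT0.le (Real.exp_pos _).le hB0pos.le hM'0 hε0.le (by positivity))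
  have hKL : (K : ℝ) ≤ L := by
    have := cd.c12
    have h2 : (0 : ℝ) ≤ B * Real.log L := by positivity
    linarith
  have hxp' : x ≤ 1 / L ^ A' := hxp L hLe K hKB
  have hyp : s0 ^ (K - 1) * y ≤ 1 / L ^ A' := y_part B A' G C' L (by linarith) (by linarith) K hK hKB hKL s0 hs0 hGe
  have hprod := prod_bound H U W (Real.exp (L / 4)) (Real.exp_pos _) (fun i => (hsz i).2.2.2.1) (fun i => (hsz i).2.1) (by
    calc 2 * ((K : ℝ) * W) ≤ 2 * (L * L ^ (2 * R)) := by gcongr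
      _ = 2 * L ^ (2 * R + 1) := by rw [pow_succ]; ring
      _ ≤ _ := cf.f5)
  have halg := final_alg' hK (W : ℝ) T (Nat.totient W) V s0 x y U (by positivity) (by positivity) hV0 hV1 hs0 hx0 hy0 (tot_Wm w)
  have hPH : 0 ≤ ∏ i, (H i : ℝ) := prod_nonneg fun i _ => Nat.cast_nonneg _
  have hPU : 0 ≤ ∏ i, ((W : ℝ) * U i) := prod_nonneg fun i _ => by positivity
  have hfin : K * ((W * T) * (∏ i, ((W : ℝ) * U i)) * (x + s0 ^ (K - 1) * y)) ≤ T * (∏ i, (H i : ℝ)) / L ^ A := by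
    calc K * ((W * T) * (∏ i, ((W : ℝ) * U i)) * (x + s0 ^ (K - 1) * y)) ≤ L * ((L ^ (2 * R) * T) * (2 * ∏ i, (H i : ℝ)) * (1 / L ^ A' + 1 / L ^ A')) := by
          gcongr
      _ = T * (∏ i, (H i : ℝ)) * (4 * (L * L ^ (2 * R)) / L ^ A') := by ring
      _ ≤ T * (∏ i, (H i : ℝ)) * (1 / L ^ A) := by
          apply mul_le_mul_of_nonneg_left _ (by positivity)
          have e : L ^ A' = L ^ A * (L * L ^ (2 * R)) * L ^ 2 := by
            rw [hA', mul_comm L (L ^ (2 * R)), ← pow_succ, ← pow_add, ← pow_add]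
            congr 1
          rw [e, div_le_div_iff₀ (by positivity) (by positivity)]
          have h1 : (4 : ℝ) ≤ L ^ 2 := by nlinarith
          have h2 : 0 ≤ L ^ A * (L * L ^ (2 * R)) := by positivity
          nlinarith
      _ = T * (∏ i, (H i : ℝ)) / L ^ A := by ring
  refine le_trans ?_ hfin
  refine le_trans ?_ halg
  refine le_trans ?_ hres
  have hsub : Fintype.piFinset (fun i : Fin K => range (H i)) ⊆ Fintype.piFinset (fun i : Fin K => range (W * U i)) := by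
    intro m hm
    rw [Fintype.mem_piFinset] at hm ⊢
    intro i
    have h1 := mem_range.1 (hm i)
    have h2 := (hsz i).2.2.1
    rw [mem_range]
    exact lt_of_lt_of_le h1 h2
  exact sum_le_sum_of_subset_of_nonneg hsub fun m _ _ => abs_nonneg _

end

end Run7.h402.PG
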