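import Mathlib
import Pool.Agent.Run7.h402.PD.D4
import Pool.Agent.Run7.h536.PW3

/-!
# Project PG: the two pieces with imports
-/

set_option autoImplicit false

open Finset Polynomial

namespace Run7.h402.PG

open Run7.h402.PX Run7.h402.PD
open Pool.Agent.H373R2.T7

noncomputable section

/-- Piece PE: energy of the values of polynomials, one order for all degrees at most `D`. Proof: degree `1`: `p = 1` (`f` is injective,
`En 1 = T`). Degree `d ≥ 2`: `Pool.Agent.Run7.h536` theorem `poly_energy` with `b = 2`, all digit sets `range 2`, `T ≤ 2 ^ k < 2 * T`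
(`SD` is then `range (2 ^ k)`), and monotonicity (`En_mono` in the same file). Then `En (p + 1) ≤ T ^ 2 * En p` (piece SU of
`Run7.h402.PG.Iface`) gives a common `p` for all `d ≤ D`. The case `T = 0` is trivial. -/
def S_PE : Prop := ∀ D : ℕ, ∃ p : ℕ, ∃ C : ℝ, 1 ≤ p ∧ 0 < C ∧ ∀ T : ℕ, ∀ f : ℤ[X], 1 ≤ f.natDegree → f.natDegree ≤ D →
  (Pool.Agent.TH212.EH.En p (fun t : Fin T => f.eval ((t : ℕ) : ℤ)) : ℝ) * (T : ℝ) ^ f.natDegree ≤ C * (T : ℝ) ^ (2 * p)

/-- the number of the residue classes `n` modulo `p` with `p ∣ ∏ i, P i (n)` -/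
def nP {K : ℕ} (P : Fin K → ℤ[X]) (p : ℕ) : ℕ := by
  classical
  exact ((range p).filter (fun n : ℕ => ∃ i, (p : ℤ) ∣ (P i).eval (n : ℤ))).card

/-- Piece ML: the fundamental lemma for `K ≤ B log log X` polynomials. Proof: as `Run7.h402.PD.model_int` (file `PD/D4.lean`, uses
`multi_sieveG` with the predicate `∃ i, p ∣ P i (n)` and the dimension `max 1 (D * K)` instead of `K`, and `sieve_err` with `B * D`): if `nP P p = p`
for some prime `p ≤ z` both sides are zero (up to the `n` with a small value); otherwise `nP P p ≤ D * K` (a polynomial of degree at most `D`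
which is not zero modulo `p` has at most `D` roots, one which is zero modulo `p` makes `nP = p`). The `n ≤ X` with some value
`P i (n) ≤ z` are at most `K * D * (z + 1)`, each contributes at most `(Vz z)⁻¹ ^ K ≤ L ^ K`. `lS` is defined in `PD/D1.lean`. -/
def S_ML : Prop := ∀ B E A D : ℕ, 1 ≤ E → ∃ X0 : ℕ, ∀ X : ℕ, X0 ≤ X → ∀ K : ℕ, 1 ≤ K → (K : ℝ) ≤ B * Real.log (Real.log X) →
  ∀ P : Fin K → ℤ[X], (∀ i, 1 ≤ (P i).natDegree ∧ (P i).natDegree ≤ D) → (∀ i, ∀ n ∈ Icc 1 X, 0 ≤ (P i).eval (n : ℤ)) →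
  ∀ y : ℕ, y ≤ X →
  |∑ n ∈ Icc 1 y, ∏ i, gp (zL E (Real.log X)) ((P i).eval (n : ℤ)).toNat - lS K (nP P) (zL E (Real.log X)) * y| ≤
    X / Real.log X ^ A

end

end Run7.h402.PG
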