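import Mathlib

/-!
# Project PG, second part: a lower bound for the singular series of almost all systems of polynomials

All statements are closed; every proof is in the doc string. `p` always runs over primes.
-/

set_option autoImplicit false

open Finset Polynomial

namespace Run7.h402.PG

noncomputable section

/-- the number of roots modulo `p` of `f + m` -/
def rho (f : ℤ[X]) (m : ℤ) (p : ℕ) : ℕ := ((range p).filter (fun n : ℕ => (p : ℤ) ∣ f.eval (n : ℤ) + m)).card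

open Classical in
/-- the number of residue classes modulo `p` in which some `P i + m i` vanishes -/
def nuS {K : ℕ} (P : Fin K → ℤ[X]) (m : Fin K → ℤ) (p : ℕ) : ℕ :=
  ((range p).filter (fun n : ℕ => ∃ i, (p : ℤ) ∣ (P i).eval (n : ℤ) + m i)).card

/-- the local factor of the singular series -/
def Fac {K : ℕ} (P : Fin K → ℤ[X]) (m : Fin K → ℤ) (p : ℕ) : ℝ := (1 - (nuS P m p : ℝ) / p) / (1 - 1 / (p : ℝ)) ^ K

/-- the non-constant coefficients are not all divisible by `p` -/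
def Prim (f : ℤ[X]) (p : ℕ) : Prop := ∃ j : ℕ, 1 ≤ j ∧ ¬ (p : ℤ) ∣ f.coeff j

/-- Piece NU. Proof: `f + m` is not zero in `(ZMod p)[X]`, so it has at most `D` roots there (`Polynomial.card_roots'`); the second part is the
union bound; the third: `nuS ≤ D K < p`. -/
def S_NU : Prop := (∀ (D p : ℕ) (f : ℤ[X]) (m : ℤ), p.Prime → f.natDegree ≤ D → Prim f p → rho f m p ≤ D) ∧
  (∀ (K p : ℕ) (P : Fin K → ℤ[X]) (m : Fin K → ℤ), nuS P m p ≤ ∑ i, rho (P i) (m i) p) ∧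
  (∀ (K D p : ℕ) (P : Fin K → ℤ[X]) (m : Fin K → ℤ), p.Prime → (∀ i, (P i).natDegree ≤ D) → (∀ i, Prim (P i) p) → nuS P m p ≤ D * K)

/-- Piece INV: independence modulo different primes. Proof: (1) `range (U i) ⊆ range (Q * (U i / Q + 1))`, `Q * (U i / Q + 1) ≤ U i + Q`;
the function `u ↦ ∏ p, f p (W u + c)` depends only on `u` modulo `Q = ∏ p ∈ Ps, p` in every coordinate, so that the sum over
`∏ range (Q * (U i / Q + 1))` is `∏ (U i / Q + 1)` times the sum over `(range Q) ^ K`. (2) By induction on `Ps` and the Chinese remainder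
theorem in every coordinate (`x ↦ (x % Q', x % p)` is a bijection of `range (Q' * p)` and `range Q' × range p`), the sum over
`(range Q) ^ K` is the product over `p ∈ Ps` of the sums of `f p (W r + c)` over `r ∈ (range p) ^ K`. (3) As `p ∤ W`, `r ↦ (W r + c) % p` is a
bijection of `(range p) ^ K`, so this sum is the sum of `f p r`. Together: `∏ (U i / Q + 1) * ∏ p, ∑ r, f p r ≤
∏ ((U i + Q) / Q) * ∏ p, ∑ r, f p r = ∏ (U i + Q) * ∏ p, (∑ r, f p r) / p ^ K`. -/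
def S_INV : Prop := ∀ (K : ℕ) (Ps : Finset ℕ) (W : ℕ) (c : Fin K → ℤ) (f : ℕ → (Fin K → ℤ) → ℝ),
  (∀ p ∈ Ps, p.Prime ∧ ¬ p ∣ W) → (∀ p ∈ Ps, ∀ m, 0 ≤ f p m) →
  (∀ p ∈ Ps, ∀ m m' : Fin K → ℤ, (∀ i, (p : ℤ) ∣ m i - m' i) → f p m = f p m') → ∀ U : Fin K → ℕ,
  ∑ u ∈ Fintype.piFinset (fun i : Fin K => range (U i)), ∏ p ∈ Ps, f p (fun i => (W : ℤ) * (u i : ℕ) + c i) ≤
    (∏ i, ((U i : ℝ) + (∏ p ∈ Ps, p : ℕ))) *
      ∏ p ∈ Ps, (∑ r ∈ Fintype.piFinset (fun _ : Fin K => range p), f p (fun i => ((r i : ℕ) : ℤ))) / (p : ℝ) ^ K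

/-- Piece MI: the mean of the inverse factor. Proof: `ν = nuS P r p ≤ D K ≤ p / 8` (NU) and `(1 - x)⁻¹ ≤ 1 + x + 2 x ^ 2` for
`0 ≤ x ≤ 1 / 2`, so `(1 - ν / p)⁻¹ ≤ 1 + ν / p + 2 (D K / p) ^ 2`. Summing over the `p ^ K` vectors `r`: `∑ r, ν ≤ ∑ i, ∑ n < p, #{r : p ∣ P i (n) + r i}`
`= K * p * p ^ (K - 1) = K * p ^ K`. -/
def S_MI : Prop := ∀ (K D p : ℕ) (P : Fin K → ℤ[X]), p.Prime → 8 * D * K ≤ p → (∀ i, (P i).natDegree ≤ D) → (∀ i, Prim (P i) p) →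
  (∑ r ∈ Fintype.piFinset (fun _ : Fin K => range p), (1 - (nuS P (fun i => ((r i : ℕ) : ℤ)) p : ℝ) / p)⁻¹) / (p : ℝ) ^ K ≤
    1 + K / p + 2 * (D * K / (p : ℝ)) ^ 2

/-- Piece LC: the variance at the large primes. Proof: expand the square. For `p = q`: `|rho - 1| ≤ D` (NU and `1 ≤ D`), so this part is
at most `U D ^ 2 ∑ 1 / p ^ 2`. For `p ≠ q`: the sum of `(rho (W u + c) p - 1) * (rho (W u + c) q - 1)` over a period `p q` of `u` vanishes (Chinese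
remainder theorem: it is the product of `∑ (rho r p - 1) = 0` over `r` modulo `p` and the same for `q`: `∑ r < p, rho f r p = p`, each `n` is
counted for one `r`), and the sum over an incomplete period is at most `p q D ^ 2` in absolute value, so that the part of `(p, q)` is at
most `D ^ 2`. -/
def S_LC : Prop := ∀ (D U W : ℕ) (c : ℤ) (f : ℤ[X]) (Ps : Finset ℕ), 1 ≤ D → f.natDegree ≤ D →
  (∀ p ∈ Ps, p.Prime ∧ ¬ p ∣ W ∧ Prim f p) →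
  ∑ u ∈ range U, (∑ p ∈ Ps, ((rho f ((W : ℤ) * (u : ℕ) + c) p : ℝ) - 1) / p) ^ 2 ≤
    U * (D ^ 2 * ∑ p ∈ Ps, 1 / (p : ℝ) ^ 2) + D ^ 2 * (Ps.card : ℝ) ^ 2

/-- Mertens (known: `Pool.Agent.Helper256.KM.mertens_inv`) -/
def S_MER : Prop := ∃ C : ℝ, ∀ N : ℕ, 3 ≤ N → |∑ p ∈ (Icc 1 N).filter Nat.Prime, (1 : ℝ) / p - Real.log (Real.log N)| ≤ C

/-- the hypotheses on the system and on the progression: `K ≤ B log L`, degrees at most `D`, coprime non-constant coefficients,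
`8 D K ≤ w`, no prime `p > w` divides `W`, sides at least `exp (L / 4)` -/
def Hyp (B D : ℕ) (L : ℝ) (K : ℕ) (P : Fin K → ℤ[X]) (w W : ℕ) (U : Fin K → ℕ) : Prop :=
  1 ≤ K ∧ 1 ≤ D ∧ (K : ℝ) ≤ B * Real.log L ∧ (∀ i, (P i).natDegree ≤ D) ∧ (∀ i, ∀ p : ℕ, p.Prime → Prim (P i) p) ∧ 8 * D * K ≤ w ∧
  (∀ p : ℕ, p.Prime → w < p → ¬ p ∣ W) ∧ ∀ i, Real.exp (L / 4) ≤ U i

open Classical in
/-- Piece SA: theorem `t_SA : S_NU → S_INV → S_MI → S_SA`. Primes in `(w, L / 8]`. Proof: `Ps` these primes, `f p m = (1 - 1 / p) ^ K (1 - nuS P m p / p)⁻¹`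
`= (Fac P m p)⁻¹ > 0`; it depends on `m` modulo `p` only. `Q = ∏ p ∈ Ps, p ≤ 4 ^ (L / 8) ≤ exp (L / 5)` (`primorial_le_four_pow`), so
`∏ (U i + Q) ≤ ∏ U i * (1 + exp (-L / 20)) ^ K ≤ 2 ∏ U i`. By MI the factor of `p` in INV is at most `(1 - 1 / p) ^ K (1 + K / p + 2 (D K / p) ^ 2) ≤
exp (2 (D K / p) ^ 2)`, and `∑ p > w, 2 (D K / p) ^ 2 ≤ 2 (D K) ^ 2 * 2 / w ≤ D K` (`∑ n > w, 1 / n ^ 2 ≤ 1 / w ≤ 2 / w`). So the sum of
`∏ (Fac)⁻¹` over the `u` is at most `2 exp (D K) ∏ U i ≤ 2 L ^ (D B) ∏ U i`, and Markov's inequality gives the claim with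
`A1 = D B + A + 1` (`2 ≤ L`). -/
def S_SA : Prop := ∀ A B D : ℕ, ∃ A1 : ℕ, ∃ L0 : ℝ, ∀ L : ℝ, L0 ≤ L → ∀ (K : ℕ) (P : Fin K → ℤ[X]) (w W : ℕ) (U : Fin K → ℕ) (c : Fin K → ℤ),
  Hyp B D L K P w W U →
  (((Fintype.piFinset (fun i : Fin K => range (U i))).filter (fun u =>
    ∏ p ∈ (Icc 1 ⌊L / 8⌋₊).filter (fun p => p.Prime ∧ w < p), Fac P (fun i => (W : ℤ) * (u i : ℕ) + c i) p < 1 / L ^ A1)).card : ℝ) ≤
    (∏ i, (U i : ℝ)) / L ^ A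

/-- Piece SB: theorem `t_SB : S_NU → S_MER → S_SB`. Primes in `(max w (L / 8), L ^ E1]`, all `m`. Proof: `Fac P m p ≥ 1 - D K / p ≥ exp (-2 D K / p)`
(`D K ≤ p / 8`; `(1 - 1 / p) ^ K ≤ 1`), and the sum of `1 / p` over the primes in `(L / 8, L ^ E1]` is at most
`log (E1 log L) - log (log (L / 8)) + 2 C + 1 ≤ log (2 E1) + 2 C + 1` (MER at `⌊L ^ E1⌋` and `⌊L / 8⌋`; `log ⌊L / 8⌋ ≥ log L / 2`). So the product is at least
`exp (-2 D K (log (2 E1) + 2 C + 1)) ≥ L ^ (-A1)`. -/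
def S_SB : Prop := ∀ B D E1 : ℕ, 1 ≤ E1 → ∃ A1 : ℕ, ∃ L0 : ℝ, ∀ L : ℝ, L0 ≤ L → ∀ (K : ℕ) (P : Fin K → ℤ[X]) (w W : ℕ) (U : Fin K → ℕ) (m : Fin K → ℤ),
  Hyp B D L K P w W U →
  1 / L ^ A1 ≤ ∏ p ∈ (Icc 1 ⌊L ^ E1⌋₊).filter (fun p => p.Prime ∧ w < p ∧ ⌊L / 8⌋₊ < p), Fac P m p

open Classical in
/-- Piece SC: theorem `t_SC : S_NU → S_LC → S_SC`. Primes in `(L ^ E1, z]`, `z ≤ L ^ E`, `E1 = A + 4`. Proof: for `p > L ^ E1` and `ν = nuS ≤ ∑ i, rho i`,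
`ν ≤ D K`: `Fac ≥ (1 - ν / p) (1 + K / p) ≥ exp (-ν / p - (ν / p) ^ 2) exp (K / p - (K / p) ^ 2)`, so that `∏ Fac ≥
exp (-∑ i ∑ p (rho i p - 1) / p - 2 (D K) ^ 2 ∑ 1 / p ^ 2)`, and the last term is at most `1`. By Cauchy's inequality over `i` and LC (`Ps` the primes in
`(max w (L ^ E1), z]`, at most `L ^ E` of them, `∑ 1 / p ^ 2 ≤ 2 / L ^ E1`) the sum over `u` of `(∑ i ∑ p (rho i p - 1) / p) ^ 2` is at most
`K ∑ i, (∏_{j ≠ i} U j) (U i * 2 D ^ 2 / L ^ E1 + D ^ 2 L ^ (2 E)) ≤ ∏ U j * K ^ 2 * 3 D ^ 2 / L ^ E1 ≤ ∏ U j / L ^ A`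
(`U i ≥ exp (L / 4)`). Markov: outside at most `∏ U / L ^ A` of the `u` this number is at most `1`, and then `∏ Fac ≥ exp (-2) ≥ 1 / L`. -/
def S_SC : Prop := ∀ A B D E : ℕ, ∃ L0 : ℝ, ∀ L : ℝ, L0 ≤ L → ∀ (K : ℕ) (P : Fin K → ℤ[X]) (w W : ℕ) (U : Fin K → ℕ) (c : Fin K → ℤ) (z : ℕ),
  Hyp B D L K P w W U → (z : ℝ) ≤ L ^ E →
  (((Fintype.piFinset (fun i : Fin K => range (U i))).filter (fun u =>
    ∏ p ∈ (Icc 1 z).filter (fun p => p.Prime ∧ w < p ∧ ⌊L ^ (A + 4)⌋₊ < p), Fac P (fun i => (W : ℤ) * (u i : ℕ) + c i) p < 1 / L)).card : ℝ) ≤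
    (∏ i, (U i : ℝ)) / L ^ A

end

end Run7.h402.PG
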