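import Mathlib
import Pool.Agent.Run7.h402.PG.IfaceS
import Pool.Agent.Run7.h402.PG.IfaceP
import Pool.Agent.Run7.h402.PG.G6

/-!
# Deterministic facts about the local factors of systems of polynomials, and the counting of classes
-/

set_option autoImplicit false

open Finset Polynomial

namespace Run7.h402.PG

open Run7.h402.PX Run7.h402.PD Run7.h402.PY
open Pool.Agent.H373R2.T7

noncomputable section

/-- admissible systems -/
def AdmS {K : ℕ} (P : Fin K → ℤ[X]) (m : Fin K → ℤ) : Prop := ∀ p : ℕ, p.Prime → nuS P m p < p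

theorem nuS_congr {K : ℕ} (P : Fin K → ℤ[X]) (m m' : Fin K → ℤ) (p : ℕ) (h : ∀ i, (p : ℤ) ∣ m i - m' i) : nuS P m p = nuS P m' p := by
  classical
  unfold nuS
  congr 1
  apply filter_congr
  intro n _
  constructor
  · rintro ⟨i, hi⟩
    refine ⟨i, ?_⟩
    have := dvd_sub hi (h i)
    have e : (P i).eval (n : ℤ) + m i - (m i - m' i) = (P i).eval (n : ℤ) + m' i := by ring
    rwa [e] at this
  · rintro ⟨i, hi⟩
    refine ⟨i, ?_⟩
    have := dvd_add hi (h i)
    have e : (P i).eval (n : ℤ) + m' i + (m i - m' i) = (P i).eval (n : ℤ) + m i := by ring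
    rwa [e] at this

theorem adm_mod (hNU : S_NU) {K D w : ℕ} (P : Fin K → ℤ[X]) (hD : ∀ i, (P i).natDegree ≤ D) (hprim : ∀ i, ∀ p : ℕ, p.Prime → Prim (P i) p)
    (hD1 : 1 ≤ D) (hK : 1 ≤ K) (hw : 8 * D * K ≤ w) (m : Fin K → ℕ) :
    AdmS P (fun i => (m i : ℤ)) ↔ AdmS P (fun i => ((m i % Wm w : ℕ) : ℤ)) := by
  have hDK : 1 ≤ D * K := Nat.mul_pos hD1 hK
  have hbig : ∀ (a : Fin K → ℤ) (p : ℕ), p.Prime → w < p → nuS P a p < p := by
    intro a p hp hwp
    have h1 := hNU.2.2 K D p P a hp hD (fun i => hprim i p hp)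
    have h2 : 8 * (D * K) ≤ w := by rw [← mul_assoc]; exact hw
    omega
  have hsm : ∀ p : ℕ, p.Prime → p ≤ w → nuS P (fun i => (m i : ℤ)) p = nuS P (fun i => ((m i % Wm w : ℕ) : ℤ)) p := by
    intro p hp hpw
    apply nuS_congr
    intro i
    have h1 : (p : ℤ) ∣ (Wm w : ℤ) := by exact_mod_cast (dvd_Wm w p hp).2 hpw
    have h2 : (m i : ℤ) - ((m i % Wm w : ℕ) : ℤ) = (Wm w : ℤ) * ((m i / Wm w : ℕ) : ℤ) := by
      have := Nat.mod_add_div (m i) (Wm w)
      have h3 : ((m i % Wm w + Wm w * (m i / Wm w) : ℕ) : ℤ) = (m i : ℤ) := by rw [this]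
      push_cast at h3 ⊢
      linarith
    rw [h2]
    exact Dvd.dvd.mul_right h1 _
  constructor
  · intro h p hp
    rcases Nat.lt_or_ge w p with h1 | h1
    · exact hbig _ p hp h1
    · rw [← hsm p hp h1]
      exact h p hp
  · intro h p hp
    rcases Nat.lt_or_ge w p with h1 | h1
    · exact hbig _ p hp h1
    · rw [hsm p hp h1]
      exact h p hp

theorem low_part {K : ℕ} (P : Fin K → ℤ[X]) (m : Fin K → ℤ) (w : ℕ) (h : AdmS P m) :
    (Vz w)⁻¹ ^ K ≤ (Wm w : ℝ) * ∏ p ∈ pz w, Fac P m p := by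
  have h1 : ∏ p ∈ pz w, Fac P m p = (Vz w)⁻¹ ^ K * ∏ p ∈ pz w, (1 - (nuS P m p : ℝ) / p) := lS_eq K (nuS P m) w
  rw [h1]
  have hV : 0 ≤ (Vz w)⁻¹ ^ K := pow_nonneg (inv_nonneg.2 (Vz_pos w).le) K
  have h2 : (1 : ℝ) ≤ (Wm w : ℝ) * ∏ p ∈ pz w, (1 - (nuS P m p : ℝ) / p) := by
    unfold Wm
    push_cast
    rw [← prod_mul_distrib]
    have h3 : ∏ _p ∈ pz w, (1 : ℝ) ≤ ∏ p ∈ pz w, ((p : ℝ) * (1 - (nuS P m p : ℝ) / p)) := by
      apply prod_le_prod
      · intro p _
        exact zero_le_one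
      · intro p hp
        have hpp := (mem_pz.1 hp).2
        have hp0 : (0 : ℝ) < p := by exact_mod_cast hpp.pos
        have h4 := h p hpp
        have h5 : (nuS P m p : ℝ) + 1 ≤ p := by exact_mod_cast h4
        have e : (p : ℝ) * (1 - (nuS P m p : ℝ) / p) = p - nuS P m p := by field_simp
        rw [e]
        linarith
    rwa [prod_const_one] at h3
  calc (Vz w)⁻¹ ^ K = (Vz w)⁻¹ ^ K * 1 := (mul_one _).symm
    _ ≤ (Vz w)⁻¹ ^ K * ((Wm w : ℝ) * ∏ p ∈ pz w, (1 - (nuS P m p : ℝ) / p)) := mul_le_mul_of_nonneg_left h2 hV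
    _ = _ := by ring

theorem Fac_pos (hNU : S_NU) {K D w : ℕ} (P : Fin K → ℤ[X]) (hD : ∀ i, (P i).natDegree ≤ D) (hprim : ∀ i, ∀ p : ℕ, p.Prime → Prim (P i) p)
    (hw : 8 * D * K ≤ w) (m : Fin K → ℤ) (p : ℕ) (hp : p.Prime) (hwp : w < p) : 0 < Fac P m p := by
  have h1 := hNU.2.2 K D p P m hp hD (fun i => hprim i p hp)
  have h2 : 8 * (D * K) ≤ w := by rw [← mul_assoc]; exact hw
  have h3 : nuS P m p < p := by
    have := hp.pos
    omega
  have hp2 : (2 : ℝ) ≤ p := by exact_mod_cast hp.two_le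
  have h4 : (nuS P m p : ℝ) < p := by exact_mod_cast h3
  unfold Fac
  apply div_pos
  · have : (nuS P m p : ℝ) / p < 1 := by
      rw [div_lt_one (by linarith)]
      exact h4
    linarith
  · apply pow_pos
    have : 1 / (p : ℝ) < 1 := by
      rw [div_lt_one (by linarith)]
      linarith
    linarith

theorem split_prod (F : ℕ → ℝ) (w z a b : ℕ) (hwz : w ≤ z) (hab : a ≤ b) (hbz : b ≤ z) :
    ∏ p ∈ pz z, F p = (∏ p ∈ pz w, F p) * ((∏ p ∈ (Icc 1 a).filter (fun p => p.Prime ∧ w < p), F p) *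
      ((∏ p ∈ (Icc 1 b).filter (fun p => p.Prime ∧ w < p ∧ a < p), F p) *
        ∏ p ∈ (Icc 1 z).filter (fun p => p.Prime ∧ w < p ∧ b < p), F p)) := by
  have e1 : pz w = (pz z).filter (fun p => p ≤ w) := by
    ext p
    rw [mem_filter, mem_pz, mem_pz]
    constructor
    · rintro ⟨h1, h2⟩
      exact ⟨⟨by omega, h2⟩, h1⟩
    · rintro ⟨⟨_, h2⟩, h3⟩
      exact ⟨h3, h2⟩
  have e2 : (Icc 1 a).filter (fun p => p.Prime ∧ w < p) = ((pz z).filter (fun p => ¬ p ≤ w)).filter (fun p => p ≤ a) := by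
    ext p
    rw [mem_filter, mem_filter, mem_filter, mem_pz, mem_Icc]
    constructor
    · rintro ⟨⟨h1, h2⟩, h3, h4⟩
      exact ⟨⟨⟨by omega, h3⟩, by omega⟩, h2⟩
    · rintro ⟨⟨⟨h1, h2⟩, h3⟩, h4⟩
      exact ⟨⟨h2.one_lt.le, h4⟩, h2, by omega⟩
  have e3 : (Icc 1 b).filter (fun p => p.Prime ∧ w < p ∧ a < p) =
      (((pz z).filter (fun p => ¬ p ≤ w)).filter (fun p => ¬ p ≤ a)).filter (fun p => p ≤ b) := by
    ext p
    rw [mem_filter, mem_filter, mem_filter, mem_filter, mem_pz, mem_Icc]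
    constructor
    · rintro ⟨⟨h1, h2⟩, h3, h4, h5⟩
      exact ⟨⟨⟨⟨by omega, h3⟩, by omega⟩, by omega⟩, h2⟩
    · rintro ⟨⟨⟨⟨h1, h2⟩, h3⟩, h4⟩, h5⟩
      exact ⟨⟨h2.one_lt.le, h5⟩, h2, by omega, by omega⟩
  have e4 : (Icc 1 z).filter (fun p => p.Prime ∧ w < p ∧ b < p) =
      (((pz z).filter (fun p => ¬ p ≤ w)).filter (fun p => ¬ p ≤ a)).filter (fun p => ¬ p ≤ b) := by
    ext p
    rw [mem_filter, mem_filter, mem_filter, mem_filter, mem_pz, mem_Icc]
    constructor
    · rintro ⟨⟨h1, h2⟩, h3, h4, h5⟩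
      exact ⟨⟨⟨⟨by omega, h3⟩, by omega⟩, by omega⟩, by omega⟩
    · rintro ⟨⟨⟨⟨h1, h2⟩, h3⟩, h4⟩, h5⟩
      exact ⟨⟨h2.one_lt.le, h1⟩, h2, by omega, by omega⟩
  rw [e1, e2, e3, e4, prod_filter_mul_prod_filter_not, prod_filter_mul_prod_filter_not, prod_filter_mul_prod_filter_not]

theorem sum_shift (F : ℕ → ℝ) (X : ℕ) : ∑ n ∈ Icc 1 X, F n = ∑ t ∈ range X, F (t + 1) := by
  induction X with
  | zero => simp
  | succ X ih => rw [sum_Icc_succ_top (by omega), sum_range_succ, ih]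

/-- few small values -/
theorem few_val (f : ℤ[X]) (D : ℕ) (h1 : 1 ≤ f.natDegree) (h2 : f.natDegree ≤ D) (F : Finset ℕ) (q : ℤ) :
    (F.filter (fun n : ℕ => f.eval (n : ℤ) = q)).card ≤ D := by
  classical
  set g : ℤ[X] := f - C q with hg
  have hdeg : g.natDegree = f.natDegree := Polynomial.natDegree_sub_C
  have hg0 : g ≠ 0 := by
    intro h
    rw [← hdeg, h, natDegree_zero] at h1
    omega
  have h3 : (F.filter (fun n : ℕ => f.eval (n : ℤ) = q)).card ≤ g.roots.toFinset.card := by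
    apply Finset.card_le_card_of_injOn (fun n : ℕ => (n : ℤ))
    · intro n hn
      have hn2 := (mem_filter.1 hn).2
      rw [mem_coe, Multiset.mem_toFinset, Polynomial.mem_roots hg0, Polynomial.IsRoot.def, hg, eval_sub,
        eval_C, hn2, sub_self]
    · intro a _ b _ hab
      have h4 : ((a : ℕ) : ℤ) = (b : ℤ) := hab
      exact_mod_cast h4
  refine h3.trans ((Multiset.toFinset_card_le _).trans ((Polynomial.card_roots' g).trans ?_))
  rw [hdeg]
  exact h2

/-- replacing `Fp` by `fp` -/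
theorem fp_Fp {K D : ℕ} (P : Fin K → ℤ[X]) (hD : ∀ i, 1 ≤ (P i).natDegree ∧ (P i).natDegree ≤ D) (X z : ℕ) (M : ℝ) (hM : 0 ≤ M)
    (hval : ∀ i, ∀ n ∈ Icc 1 X, Real.log (((P i).eval (n : ℤ)).toNat : ℝ) ≤ M) (c : ℕ → ℝ) (hc : ∀ n, |c n| ≤ 1) :
    |∑ n ∈ Icc 1 X, c n * ∏ i, Run7.h402.PT.Fp ((P i).eval (n : ℤ)).toNat - ∑ n ∈ Icc 1 X, c n * ∏ i, fp z ((P i).eval (n : ℤ)).toNat| ≤
      ((K * (z * D) : ℕ) : ℝ) * M ^ K := by
  classical
  rw [← sum_sub_distrib]
  refine (abs_sum_le_sum_abs _ _).trans ?_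
  have hFM : ∀ i, ∀ n ∈ Icc 1 X, 0 ≤ Run7.h402.PT.Fp ((P i).eval (n : ℤ)).toNat ∧ Run7.h402.PT.Fp ((P i).eval (n : ℤ)).toNat ≤ M := by
    intro i n hn
    refine ⟨Run7.h402.PT.Fp_nonneg _, ?_⟩
    unfold Run7.h402.PT.Fp
    split_ifs
    · exact hval i n hn
    · exact hM
  obtain ⟨Q, hQ⟩ : ∃ Q : ℕ → Prop, ∀ n, Q n ↔ ∃ i, ∃ q ∈ Icc 1 z, (P i).eval (n : ℤ) = (q : ℤ) := ⟨_, fun _ => Iff.rfl⟩
  have hterm : ∀ n ∈ Icc 1 X, |c n * ∏ i, Run7.h402.PT.Fp ((P i).eval (n : ℤ)).toNat - c n * ∏ i, fp z ((P i).eval (n : ℤ)).toNat| ≤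
      if Q n then M ^ K else 0 := by
    intro n hn
    split_ifs with h
    · rw [← mul_sub, abs_mul]
      have h1 : 0 ≤ ∏ i, fp z ((P i).eval (n : ℤ)).toNat := prod_nonneg fun i _ => fp_nonneg _ _
      have h2 : ∏ i, fp z ((P i).eval (n : ℤ)).toNat ≤ ∏ i, Run7.h402.PT.Fp ((P i).eval (n : ℤ)).toNat := by
        apply prod_le_prod (fun i _ => fp_nonneg _ _)
        intro i _
        unfold fp Run7.h402.PT.Fp
        split_ifs with h3 h4 h4
        · exact le_rfl
        · exact absurd h3.1 h4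
        · exact Real.log_natCast_nonneg _
        · exact le_rfl
      have h3 : ∏ i, Run7.h402.PT.Fp ((P i).eval (n : ℤ)).toNat ≤ M ^ K := by
        calc ∏ i, Run7.h402.PT.Fp ((P i).eval (n : ℤ)).toNat ≤ ∏ _i : Fin K, M :=
              prod_le_prod (fun i _ => (hFM i n hn).1) (fun i _ => (hFM i n hn).2)
          _ = M ^ K := by rw [prod_const, card_univ, Fintype.card_fin]
      rw [abs_of_nonneg (sub_nonneg.2 h2)]
      have h4 : ∏ i, Run7.h402.PT.Fp ((P i).eval (n : ℤ)).toNat - ∏ i, fp z ((P i).eval (n : ℤ)).toNat ≤ M ^ K := by linarith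
      calc |c n| * (∏ i, Run7.h402.PT.Fp ((P i).eval (n : ℤ)).toNat - ∏ i, fp z ((P i).eval (n : ℤ)).toNat) ≤ 1 * M ^ K :=
            mul_le_mul (hc n) h4 (sub_nonneg.2 h2) zero_le_one
        _ = M ^ K := one_mul _
    · have e : ∏ i, Run7.h402.PT.Fp ((P i).eval (n : ℤ)).toNat = ∏ i, fp z ((P i).eval (n : ℤ)).toNat := by
        apply prod_congr rfl
        intro i _
        unfold fp Run7.h402.PT.Fp
        by_cases h1 : (((P i).eval (n : ℤ)).toNat).Prime
        · rw [if_pos h1, if_pos]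
          refine ⟨h1, ?_⟩
          by_contra hcon
          apply h
          rw [hQ]
          refine ⟨i, ((P i).eval (n : ℤ)).toNat, mem_Icc.2 ⟨h1.one_lt.le, by omega⟩, ?_⟩
          have := h1.pos
          omega
        · rw [if_neg h1, if_neg]
          exact fun h2 => h1 h2.1
      rw [e, sub_self, abs_zero]
  refine (sum_le_sum hterm).trans ?_
  rw [← sum_filter, sum_const, nsmul_eq_mul]
  apply mul_le_mul_of_nonneg_right _ (pow_nonneg hM K)
  have h1 : (Icc 1 X).filter (fun n : ℕ => Q n) ⊆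
      (univ : Finset (Fin K)).biUnion fun i => (Icc 1 z).biUnion fun q => (Icc 1 X).filter (fun n : ℕ => (P i).eval (n : ℤ) = (q : ℤ)) := by
    intro n hn
    obtain ⟨hn1, hn2⟩ := mem_filter.1 hn
    obtain ⟨i, q, hq, hi⟩ := (hQ n).1 hn2
    exact mem_biUnion.2 ⟨i, mem_univ _, mem_biUnion.2 ⟨q, hq, mem_filter.2 ⟨hn1, hi⟩⟩⟩
  have h2 := (card_le_card h1).trans card_biUnion_le
  have h3 : ∑ i : Fin K, ((Icc 1 z).biUnion fun q => (Icc 1 X).filter (fun n : ℕ => (P i).eval (n : ℤ) = (q : ℤ))).card ≤ K * (z * D) := by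
    calc ∑ i : Fin K, ((Icc 1 z).biUnion fun q => (Icc 1 X).filter (fun n : ℕ => (P i).eval (n : ℤ) = (q : ℤ))).card ≤ ∑ _i : Fin K, z * D := by
          apply sum_le_sum
          intro i _
          refine card_biUnion_le.trans ?_
          calc ∑ q ∈ Icc 1 z, ((Icc 1 X).filter (fun n : ℕ => (P i).eval (n : ℤ) = (q : ℤ))).card ≤ ∑ _q ∈ Icc 1 z, D :=
                sum_le_sum fun q _ => few_val (P i) D (hD i).1 (hD i).2 _ _
            _ = z * D := by rw [sum_const, Nat.card_Icc, smul_eq_mul, Nat.add_sub_cancel]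
      _ = K * (z * D) := by rw [sum_const, card_univ, Fintype.card_fin, smul_eq_mul]
  exact_mod_cast h2.trans h3

open Classical in
/-- counting class by class -/
theorem class_count {K : ℕ} (W : ℕ) (hW : 1 ≤ W) (H : Fin K → ℕ) (Adm Good : (Fin K → ℕ) → Prop) (β ρ : ℝ)
    (hcl : ∀ m, Adm m ↔ Adm (fun i => m i % W))
    (hbad : ∀ cc : Fin K → ℕ, (∀ i, cc i < W) → Adm cc →
      (((Fintype.piFinset (fun i : Fin K => range (H i / W + 1))).filter (fun u => ¬ Good (fun i => W * u i + cc i))).card : ℝ) ≤ β)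
    (hβ : β ≤ ρ * ∏ i, ((H i / W : ℕ) : ℝ)) (hρ : 0 ≤ ρ) :
    (((Fintype.piFinset (fun i : Fin K => range (H i))).filter (fun m => Adm m ∧ ¬ Good m)).card : ℝ) ≤
      ρ * (((Fintype.piFinset (fun i : Fin K => range (H i))).filter (fun m => Adm m)).card : ℝ) := by
  set AC := (Fintype.piFinset (fun _ : Fin K => range W)).filter (fun cc => Adm cc) with hAC
  set BS := (Fintype.piFinset (fun i : Fin K => range (H i))).filter (fun m => Adm m ∧ ¬ Good m) with hBS
  set AS := (Fintype.piFinset (fun i : Fin K => range (H i))).filter (fun m => Adm m) with hAS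
  have hmodAC : ∀ m, Adm m → (fun i => m i % W) ∈ AC := by
    intro m hm
    rw [hAC, mem_filter, Fintype.mem_piFinset]
    exact ⟨fun i => mem_range.2 (Nat.mod_lt _ hW), (hcl m).1 hm⟩
  have h1 : BS.card = ∑ cc ∈ AC, (BS.filter (fun m => (fun i => m i % W) = cc)).card :=
    card_eq_sum_card_fiberwise (fun m hm => hmodAC m (mem_filter.1 hm).2.1)
  have h2 : AS.card = ∑ cc ∈ AC, (AS.filter (fun m => (fun i => m i % W) = cc)).card :=
    card_eq_sum_card_fiberwise (fun m hm => hmodAC m (mem_filter.1 hm).2)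
  have h3 : ∀ cc ∈ AC, ((BS.filter (fun m => (fun i => m i % W) = cc)).card : ℝ) ≤ β := by
    intro cc hcc
    rw [hAC, mem_filter, Fintype.mem_piFinset] at hcc
    refine le_trans ?_ (hbad cc (fun i => mem_range.1 (hcc.1 i)) hcc.2)
    have h4 : (BS.filter (fun m => (fun i => m i % W) = cc)).card ≤
        ((Fintype.piFinset (fun i : Fin K => range (H i / W + 1))).filter (fun u => ¬ Good (fun i => W * u i + cc i))).card := by
      apply card_le_card_of_injOn (fun m i => m i / W)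
      · intro m hm
        rw [mem_coe, mem_filter, hBS, mem_filter, Fintype.mem_piFinset] at hm
        obtain ⟨⟨hm1, hm2, hm3⟩, hm4⟩ := hm
        rw [mem_coe, mem_filter, Fintype.mem_piFinset]
        constructor
        · intro i
          have := mem_range.1 (hm1 i)
          rw [mem_range]
          exact Nat.lt_succ_of_le (Nat.div_le_div_right this.le)
        · have e : (fun i => W * (m i / W) + cc i) = m := by
            funext i
            have e1 : m i % W = cc i := congrFun hm4 i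
            rw [← e1]
            exact Nat.div_add_mod (m i) W
          simp only
          rw [e]
          exact hm3
      · intro m hm m' hm' hmm
        rw [mem_coe, mem_filter] at hm hm'
        funext i
        have e1 : m i % W = cc i := congrFun hm.2 i
        have e2 : m' i % W = cc i := congrFun hm'.2 i
        have e3 : m i / W = m' i / W := congrFun hmm i
        rw [← Nat.div_add_mod (m i) W, ← Nat.div_add_mod (m' i) W, e1, e2, e3]
    exact_mod_cast h4
  have h5 : ∀ cc ∈ AC, (∏ i, ((H i / W : ℕ) : ℝ)) ≤ ((AS.filter (fun m => (fun i => m i % W) = cc)).card : ℝ) := by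
    intro cc hcc
    rw [hAC, mem_filter, Fintype.mem_piFinset] at hcc
    have hcW : ∀ i, cc i < W := fun i => mem_range.1 (hcc.1 i)
    have h6 : (Fintype.piFinset (fun i : Fin K => range (H i / W))).card ≤ (AS.filter (fun m => (fun i => m i % W) = cc)).card := by
      apply card_le_card_of_injOn (fun u i => W * u i + cc i)
      · intro u hu
        rw [mem_coe, Fintype.mem_piFinset] at hu
        have e : (fun i => (W * u i + cc i) % W) = cc := by
          funext i
          rw [Nat.mul_add_mod, Nat.mod_eq_of_lt (hcW i)]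
        rw [mem_coe, mem_filter, hAS, mem_filter, Fintype.mem_piFinset]
        refine ⟨⟨fun i => ?_, ?_⟩, e⟩
        · have h7 := mem_range.1 (hu i)
          rw [mem_range]
          show W * u i + cc i < H i
          have h8 : W * (u i + 1) ≤ W * (H i / W) := Nat.mul_le_mul_left W h7
          have h9 := Nat.mul_div_le (H i) W
          have h10 := hcW i
          rw [Nat.mul_add, Nat.mul_one] at h8
          omega
        · rw [hcl]
          rw [e]
          exact hcc.2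
      · intro u _ u' _ huu
        funext i
        have e3 : W * u i + cc i = W * u' i + cc i := congrFun huu i
        have : W * u i = W * u' i := by omega
        exact Nat.eq_of_mul_eq_mul_left hW this
    rw [Fintype.card_piFinset] at h6
    have h7 : ((∏ i, (range (H i / W)).card : ℕ) : ℝ) ≤ ((AS.filter (fun m => (fun i => m i % W) = cc)).card : ℝ) := by exact_mod_cast h6
    refine le_trans (le_of_eq ?_) h7
    push_cast
    apply prod_congr rfl
    intro i _
    rw [card_range]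
  rw [h1, h2]
  push_cast
  rw [mul_sum]
  apply sum_le_sum
  intro cc hcc
  exact (h3 cc hcc).trans (hβ.trans (mul_le_mul_of_nonneg_left (h5 cc hcc) hρ))

end

end Run7.h402.PG
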