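import Mathlib
import Pool.Agent.Run7.h402.PG.G8

/-!
# The conclusion for one vector of constant terms, and the analytic conditions
-/

set_option autoImplicit false

open Finset Polynomial

namespace Run7.h402.PG

open Run7.h402.PX Run7.h402.PD Run7.h402.PY
open Pool.Agent.H373R2.T7
open Pool.Agent.N475.SP (dom)

noncomputable section

/-- the weighted sum over the prime values -/
def TF {K : ℕ} (P : Fin K → ℤ[X]) (m : Fin K → ℤ) (c : ℕ → ℝ) (X : ℕ) : ℝ :=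
  ∑ n ∈ Icc 1 X, c n * ∏ i, Run7.h402.PT.Fp ((P i).eval (n : ℤ) + m i).toNat

/-- the weighted sum over the prime values larger than `z` -/
def Tf {K : ℕ} (P : Fin K → ℤ[X]) (m : Fin K → ℤ) (c : ℕ → ℝ) (X z : ℕ) : ℝ :=
  ∑ n ∈ Icc 1 X, c n * ∏ i, fp z ((P i).eval (n : ℤ) + m i).toNat

/-- the weighted sum of the model -/
def TG {K : ℕ} (P : Fin K → ℤ[X]) (m : Fin K → ℤ) (c : ℕ → ℝ) (X z : ℕ) : ℝ :=
  ∑ n ∈ Icc 1 X, c n * ∏ i, gp z ((P i).eval (n : ℤ) + m i).toNat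

/-- the asymptotic formulas -/
def GoodP {K : ℕ} (P : Fin K → ℤ[X]) (m : Fin K → ℤ) (c : ℕ → ℝ) (X A z : ℕ) : Prop :=
  0 < lS K (nuS P m) z ∧ |TF P m (fun _ => 1) X - lS K (nuS P m) z * X| ≤ lS K (nuS P m) z * (X / Real.log X ^ A) ∧
    |TF P m c X - TG P m c X z| ≤ lS K (nuS P m) z * (X / Real.log X ^ A)

theorem good_of {K X A b0 z : ℕ} {L V : ℝ} (hL : L = Real.log X) (hL3 : 3 ≤ L) (P : Fin K → ℤ[X]) (m : Fin K → ℤ) (c : ℕ → ℝ)
    (hlow : V ≤ L ^ b0 * lS K (nuS P m) z) (hV1 : 1 ≤ V)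
    (hml : |TG P m (fun _ => 1) X z - lS K (nuS P m) z * X| ≤ X / L ^ (A + b0 + 1))
    (hs1 : |TF P m (fun _ => 1) X - Tf P m (fun _ => 1) X z| ≤ X / L ^ (A + b0 + 1))
    (hsc : |TF P m c X - Tf P m c X z| ≤ X / L ^ (A + b0 + 1))
    (hc1 : |Tf P m (fun _ => 1) X z - TG P m (fun _ => 1) X z| ≤ X * V / L ^ (A + b0 + 1))
    (hcc : |Tf P m c X z - TG P m c X z| ≤ X * V / L ^ (A + b0 + 1)) : GoodP P m c X A z := by
  set S := lS K (nuS P m) z with hS
  have hLb : 0 < L ^ b0 := by positivity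
  have hX0 : (0 : ℝ) ≤ X := Nat.cast_nonneg _
  have hS0 : 0 < S := by
    by_contra hcon
    push Not at hcon
    have : L ^ b0 * S ≤ 0 := mul_nonpos_of_nonneg_of_nonpos hLb.le hcon
    linarith
  have hLA : 0 < L ^ (A + 1) := by positivity
  have e0 : L ^ (A + b0 + 1) = L ^ (A + 1) * L ^ b0 := by rw [← pow_add]; congr 1; ring
  have hkey : X * V / L ^ (A + b0 + 1) ≤ X * S / L ^ (A + 1) := by
    rw [e0, div_le_div_iff₀ (by positivity) hLA]
    have h1 : X * V ≤ X * (L ^ b0 * S) := mul_le_mul_of_nonneg_left hlow hX0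
    nlinarith
  have hkey1 : X / L ^ (A + b0 + 1) ≤ X * S / L ^ (A + 1) := by
    refine le_trans ?_ hkey
    apply div_le_div_of_nonneg_right _ (by positivity)
    nlinarith
  have hfin : 3 * (X * S / L ^ (A + 1)) ≤ S * (X / L ^ A) := by
    have e1 : S * (X / L ^ A) = L * (X * S / L ^ (A + 1)) := by
      rw [pow_succ]
      field_simp
    rw [e1]
    apply mul_le_mul_of_nonneg_right hL3
    positivity
  have habs : ∀ x y z : ℝ, |x - z| ≤ |x - y| + |y - z| := fun x y z => abs_sub_le x y z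
  refine ⟨hS0, ?_, ?_⟩
  · rw [← hL]
    have h1 := habs (TF P m (fun _ => 1) X) (Tf P m (fun _ => 1) X z) (S * X)
    have h2 := habs (Tf P m (fun _ => 1) X z) (TG P m (fun _ => 1) X z) (S * X)
    have h3 : X * S / L ^ (A + 1) = X * S / L ^ (A + 1) := rfl
    linarith
  · rw [← hL]
    have h1 := habs (TF P m c X) (Tf P m c X z) (TG P m c X z)
    have h2 : 0 ≤ X * S / L ^ (A + 1) := by positivity
    linarith

/-- analytic conditions -/
structure CP (B C D R E a : ℕ) (Cp L : ℝ) : Prop where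
  a1 : Cp ≤ L
  a2 : 2 * L ^ (C + 2 * R) ≤ Real.exp (L / 2)
  a3 : 2 * (B : ℝ) * L ^ 1 ≤ Real.exp (L / 4)
  a4 : 4 * (B : ℝ) * (D + 3) * Real.log L ^ 2 ≤ L
  a5 : (B : ℝ) * D * L ^ (E + a + 1) ≤ Real.exp (L / 4)
  a6 : 3 * L ^ C ≤ Real.exp L
  a7 : L ^ (2 * C) ≤ Real.exp (L / 2)

theorem cp_ev (B C D R E a : ℕ) (Cp : ℝ) : ∃ L0 : ℝ, ∀ L : ℝ, L0 ≤ L → CP B C D R E a Cp L := by
  obtain ⟨x2, h2⟩ := dom 2 (1 / 2) (C + 2 * R) (by norm_num)
  obtain ⟨x3, h3⟩ := dom (2 * (B : ℝ)) (1 / 4) 1 (by norm_num)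
  obtain ⟨x4, h4⟩ := dom (4 * (B : ℝ) * (D + 3)) 1 2 (by norm_num)
  obtain ⟨x5, h5⟩ := dom ((B : ℝ) * D) (1 / 4) (E + a + 1) (by norm_num)
  obtain ⟨x6, h6⟩ := dom 3 1 C (by norm_num)
  obtain ⟨x7, h7⟩ := dom 1 (1 / 2) (2 * C) (by norm_num)
  refine ⟨max (max (max Cp x2) (max x3 (Real.exp x4))) (max (max x5 x6) (max x7 1)), fun L hL => ?_⟩
  have g1 : Cp ≤ L := le_trans (le_trans (le_trans (le_max_left _ _) (le_max_left _ _)) (le_max_left _ _)) hL
  have g2 : x2 ≤ L := le_trans (le_trans (le_trans (le_max_right _ _) (le_max_left _ _)) (le_max_left _ _)) hL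
  have g3 : x3 ≤ L := le_trans (le_trans (le_trans (le_max_left _ _) (le_max_right _ _)) (le_max_left _ _)) hL
  have g4 : Real.exp x4 ≤ L := le_trans (le_trans (le_trans (le_max_right _ _) (le_max_right _ _)) (le_max_left _ _)) hL
  have g5 : x5 ≤ L := le_trans (le_trans (le_trans (le_max_left _ _) (le_max_left _ _)) (le_max_right _ _)) hL
  have g6 : x6 ≤ L := le_trans (le_trans (le_trans (le_max_right _ _) (le_max_left _ _)) (le_max_right _ _)) hL
  have g7 : x7 ≤ L := le_trans (le_trans (le_trans (le_max_left _ _) (le_max_right _ _)) (le_max_right _ _)) hL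
  have g8 : 1 ≤ L := le_trans (le_trans (le_trans (le_max_right _ _) (le_max_right _ _)) (le_max_right _ _)) hL
  have hL0 : 0 < L := by linarith
  refine ⟨g1, ?_, ?_, ?_, ?_, ?_, ?_⟩
  · have := h2 L g2
    rwa [show 1 / 2 * L = L / 2 by ring] at this
  · have := h3 L g3
    rwa [show 1 / 4 * L = L / 4 by ring] at this
  · have := h4 (Real.log L) ((Real.le_log_iff_exp_le hL0).2 g4)
    rwa [one_mul, Real.exp_log hL0] at this
  · have := h5 L g5
    rwa [show 1 / 4 * L = L / 4 by ring] at this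
  · have := h6 L g6
    rwa [one_mul] at this
  · have := h7 L g7
    rwa [one_mul, show 1 / 2 * L = L / 2 by ring] at this

/-- the small values are negligible -/
theorem small_num {B C D R E a K z X : ℕ} {Cp L : ℝ} (cp : CP B C D R E a Cp L) (hL1 : 1000 ≤ L) (hl3 : 3 ≤ Real.log L)
    (hX : Real.exp L = X) (hKB : (K : ℝ) ≤ B * Real.log L) (hz : (z : ℝ) ≤ L ^ E) :
    ((K * (z * D) : ℕ) : ℝ) * ((D + 2) * L) ^ K ≤ X / L ^ a := by
  have hL0 : 0 < L := by linarith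
  set ℓ := Real.log L with hℓ
  have hLe : Real.exp ℓ = L := Real.exp_log hL0
  have hlL : ℓ ≤ L := (Real.log_le_sub_one_of_pos hL0).trans (by linarith)
  have h1 : ((D : ℝ) + 2) * L ≤ Real.exp ((D + 2) + ℓ) := by
    rw [Real.exp_add, hLe]
    have := Real.add_one_le_exp ((D : ℝ) + 2)
    apply mul_le_mul_of_nonneg_right _ hL0.le
    linarith
  have h2 : (((D : ℝ) + 2) * L) ^ K ≤ Real.exp (L / 4) := by
    calc (((D : ℝ) + 2) * L) ^ K ≤ (Real.exp ((D + 2) + ℓ)) ^ K := pow_le_pow_left₀ (by positivity) h1 K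
      _ = Real.exp (K * ((D + 2) + ℓ)) := (Real.exp_nat_mul _ _).symm
      _ ≤ Real.exp (L / 4) := by
          apply Real.exp_le_exp.2
          have h3 := cp.a4
          have hD : (0 : ℝ) ≤ D := by positivity
          have h4 : ((D : ℝ) + 2) + ℓ ≤ (D + 3) * ℓ := by nlinarith
          have h5 : (K : ℝ) * ((D + 2) + ℓ) ≤ (B * ℓ) * ((D + 3) * ℓ) := by
            apply mul_le_mul hKB h4 (by positivity) (by positivity)
          have h6 : (B : ℝ) * ℓ * ((D + 3) * ℓ) = (4 * (B : ℝ) * (D + 3) * ℓ ^ 2) / 4 := by ring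
          rw [h6] at h5
          linarith
  have h3 : ((K * (z * D) : ℕ) : ℝ) * L ^ a ≤ Real.exp (L / 4) := by
    refine le_trans ?_ cp.a5
    push_cast
    have h4 : (K : ℝ) ≤ B * L := hKB.trans (by gcongr)
    calc (K : ℝ) * (z * D) * L ^ a ≤ (B * L) * (L ^ E * D) * L ^ a := by gcongr
      _ = _ := by ring
  rw [le_div_iff₀ (by positivity), ← hX]
  calc ((K * (z * D) : ℕ) : ℝ) * (((D : ℝ) + 2) * L) ^ K * L ^ a = (((K * (z * D) : ℕ) : ℝ) * L ^ a) * (((D : ℝ) + 2) * L) ^ K := by ring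
    _ ≤ Real.exp (L / 4) * Real.exp (L / 4) := mul_le_mul h3 h2 (by positivity) (Real.exp_pos _).le
    _ = Real.exp (L / 4 + L / 4) := (Real.exp_add _ _).symm
    _ ≤ Real.exp L := Real.exp_le_exp.2 (by linarith)

/-- the sides modulo `W` -/
theorem sides_num {B C D R E a W X h d : ℕ} {Cp L : ℝ} (cp : CP B C D R E a Cp L) (hL1 : 1000 ≤ L) (hX : Real.exp L = X) (hX1 : 1 ≤ X)
    (hd : 1 ≤ d) (hW1 : 1 ≤ W) (hW : (W : ℝ) ≤ L ^ (2 * R)) (hh : (X : ℝ) ^ d ≤ h * L ^ C) :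
    Real.exp (L / 4) ≤ ((h / W : ℕ) : ℝ) := by
  have hL0 : 0 < L := by linarith
  have hX1' : (1 : ℝ) ≤ X := by exact_mod_cast hX1
  have hW0 : (0 : ℝ) < W := by exact_mod_cast hW1
  have h1 : (X : ℝ) ≤ h * L ^ C := by
    refine le_trans ?_ hh
    calc (X : ℝ) = (X : ℝ) ^ 1 := (pow_one _).symm
      _ ≤ (X : ℝ) ^ d := pow_le_pow_right₀ hX1' hd
  have h2 : Real.exp (L / 2) * W ≤ (h : ℝ) / 2 := by
    have h3 : Real.exp (L / 2) * Real.exp (L / 2) = X := by rw [← Real.exp_add, ← hX]; congr 1; ring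
    have h4 := cp.a2
    have h5 : Real.exp (L / 2) * (2 * L ^ (C + 2 * R)) ≤ h * L ^ C := by
      refine le_trans ?_ h1
      rw [← h3]
      exact mul_le_mul_of_nonneg_left h4 (Real.exp_pos _).le
    have e : L ^ (C + 2 * R) = L ^ C * L ^ (2 * R) := pow_add _ _ _
    rw [e] at h5
    have hLC : 0 < L ^ C := by positivity
    have h6 : (Real.exp (L / 2) * (2 * L ^ (2 * R))) * L ^ C ≤ h * L ^ C := by nlinarith
    have h7 := le_of_mul_le_mul_right h6 hLC
    have h8 : Real.exp (L / 2) * W ≤ Real.exp (L / 2) * L ^ (2 * R) := mul_le_mul_of_nonneg_left hW (Real.exp_pos _).le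
    linarith
  have h9 : (h : ℝ) / W < ((h / W : ℕ) : ℝ) + 1 := by
    rw [← Nat.floor_div_eq_div (K := ℝ)]
    exact Nat.lt_floor_add_one _
  have h10 : 2 * Real.exp (L / 2) ≤ (h : ℝ) / W := by
    rw [le_div_iff₀ hW0]
    linarith
  have h11 : Real.exp (L / 4) ≤ Real.exp (L / 2) := Real.exp_le_exp.2 (by linarith)
  have h12 : 1 ≤ Real.exp (L / 2) := Real.one_le_exp (by linarith)
  linarith

/-- the sizes of the values -/
theorem log_val {B C D R E a X d : ℕ} {Cp L x y : ℝ} (cp : CP B C D R E a Cp L) (hL1 : 1000 ≤ L) (hX : Real.exp L = X) (hd : d ≤ D)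
    (hx : x ≤ (X : ℝ) ^ d * L ^ C) (hy : y ≤ (X : ℝ) ^ d * L ^ C * 2) (hxy : 0 ≤ x + y) : Real.log (x + y) ≤ (D + 2) * L := by
  have hL0 : 0 < L := by linarith
  rcases hxy.eq_or_lt with h | h
  · rw [← h, Real.log_zero]
    positivity
  rw [Real.log_le_iff_le_exp h]
  have h1 : (X : ℝ) ^ d ≤ Real.exp (D * L) := by
    rw [← hX, ← Real.exp_nat_mul]
    apply Real.exp_le_exp.2
    have : (d : ℝ) ≤ D := by exact_mod_cast hd
    exact mul_le_mul_of_nonneg_right this hL0.le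
  have h2 := cp.a6
  calc x + y ≤ (X : ℝ) ^ d * (3 * L ^ C) := by linarith
    _ ≤ Real.exp (D * L) * Real.exp L := mul_le_mul h1 h2 (by positivity) (Real.exp_pos _).le
    _ = Real.exp (D * L + L) := (Real.exp_add _ _).symm
    _ ≤ _ := Real.exp_le_exp.2 (by nlinarith)

end

end Run7.h402.PG
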