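import Mathlib
import Pool.Agent.Run7.h402.PG.G7
import Pool.Agent.Run7.h402.PG.G9
import Pool.Agent.Run7.h402.PC.C9

/-!
# The asymptotic formula for almost all admissible systems of polynomials
-/

set_option autoImplicit false

open Finset Polynomial

namespace Run7.h402.PG

open Run7.h402.PX Run7.h402.PD Run7.h402.PY Run7.h402.PC
open Pool.Agent.H373R2.T7
open Pool.Agent.N475.SP (dom)

noncomputable section

theorem nP_nuS {K : ℕ} (P : Fin K → ℤ[X]) (m : Fin K → ℤ) : nP (fun i => P i + C (m i)) = nuS P m := by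
  funext p
  unfold nP nuS
  congr 1
  apply filter_congr
  intro n _
  simp only [eval_add, eval_C]

/-- the lower bound for the local factors outside the exceptional sets -/
theorem low_lS (hNU : S_NU) {K D w z A A1 A2 E R : ℕ} {L : ℝ} (hL1 : 1000 ≤ L) (P : Fin K → ℤ[X]) (hD : ∀ i, (P i).natDegree ≤ D)
    (hprim : ∀ i, ∀ p : ℕ, p.Prime → Prim (P i) p) (hw : 8 * D * K ≤ w) (m : Fin K → ℤ) (hadm : AdmS P m) (hz : z = zL E L)
    (hwz : w ≤ z) (hAE : A + 4 ≤ E) (hW : (Wm w : ℝ) ≤ L ^ (2 * R))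
    (h1 : 1 / L ^ A1 ≤ ∏ p ∈ (Icc 1 ⌊L / 8⌋₊).filter (fun p => p.Prime ∧ w < p), Fac P m p)
    (h2 : 1 / L ^ A2 ≤ ∏ p ∈ (Icc 1 ⌊L ^ (A + 4)⌋₊).filter (fun p => p.Prime ∧ w < p ∧ ⌊L / 8⌋₊ < p), Fac P m p)
    (h3 : 1 / L ≤ ∏ p ∈ (Icc 1 z).filter (fun p => p.Prime ∧ w < p ∧ ⌊L ^ (A + 4)⌋₊ < p), Fac P m p) :
    (Vz w)⁻¹ ^ K ≤ L ^ (2 * R + A1 + A2 + 1) * lS K (nuS P m) z := by
  have hL0 : 0 < L := by linarith
  have hab : ⌊L / 8⌋₊ ≤ ⌊L ^ (A + 4)⌋₊ := by
    apply Nat.floor_le_floor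
    calc L / 8 ≤ L := by linarith
      _ = L ^ 1 := (pow_one L).symm
      _ ≤ L ^ (A + 4) := pow_le_pow_right₀ (by linarith) (by omega)
  have hbz : ⌊L ^ (A + 4)⌋₊ ≤ z := by
    rw [hz]
    unfold zL
    apply Nat.floor_le_floor
    exact pow_le_pow_right₀ (by linarith) hAE
  have e : lS K (nuS P m) z = ∏ p ∈ pz z, Fac P m p := rfl
  rw [e, split_prod (Fac P m) w z ⌊L / 8⌋₊ ⌊L ^ (A + 4)⌋₊ hwz hab hbz]
  have h0 := low_part P m w hadm
  have hV : 0 ≤ (Vz w)⁻¹ ^ K := pow_nonneg (inv_nonneg.2 (Vz_pos w).le) K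
  have hW0 : (0 : ℝ) < Wm w := by exact_mod_cast Wm_pos w
  have hC0 : 0 ≤ ∏ p ∈ pz w, Fac P m p := by
    by_contra hcon
    push Not at hcon
    nlinarith
  set Q0 := ∏ p ∈ pz w, Fac P m p with hQ0
  set Q1 := ∏ p ∈ (Icc 1 ⌊L / 8⌋₊).filter (fun p => p.Prime ∧ w < p), Fac P m p with hQ1
  set Q2 := ∏ p ∈ (Icc 1 ⌊L ^ (A + 4)⌋₊).filter (fun p => p.Prime ∧ w < p ∧ ⌊L / 8⌋₊ < p), Fac P m p with hQ2
  set Q3 := ∏ p ∈ (Icc 1 z).filter (fun p => p.Prime ∧ w < p ∧ ⌊L ^ (A + 4)⌋₊ < p), Fac P m p with hQ3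
  have k1 : 1 ≤ L ^ A1 * Q1 := by
    rw [div_le_iff₀ (by positivity)] at h1
    linarith
  have k2 : 1 ≤ L ^ A2 * Q2 := by
    rw [div_le_iff₀ (by positivity)] at h2
    linarith
  have k3 : 1 ≤ L * Q3 := by
    rw [div_le_iff₀ (by positivity)] at h3
    linarith
  have k12 : 1 ≤ (L ^ A1 * Q1) * (L ^ A2 * Q2) := one_le_mul_of_one_le_of_one_le k1 k2
  have k123 : 1 ≤ (L ^ A1 * Q1) * (L ^ A2 * Q2) * (L * Q3) := one_le_mul_of_one_le_of_one_le k12 k3
  calc (Vz w)⁻¹ ^ K ≤ (Wm w : ℝ) * Q0 := h0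
    _ ≤ L ^ (2 * R) * Q0 := mul_le_mul_of_nonneg_right hW hC0
    _ = (L ^ (2 * R) * Q0) * 1 := (mul_one _).symm
    _ ≤ (L ^ (2 * R) * Q0) * ((L ^ A1 * Q1) * (L ^ A2 * Q2) * (L * Q3)) := mul_le_mul_of_nonneg_left k123 (by positivity)
    _ = _ := by ring

open Classical in
/-- **The asymptotic formula for almost all admissible systems of polynomials** -/
theorem main_poly (hLF : S_LF) (hMO : S_MO) (hEQ : S_EQ) (hPE : S_PE) (hML : S_ML) (hNU : S_NU) (hSA : S_SA) (hSB : S_SB) (hSC : S_SC)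
    (A B Cc D : ℕ) : ∃ E0 : ℕ, ∀ E : ℕ, E0 ≤ E → ∃ X0 : ℕ, ∀ X : ℕ, X0 ≤ X → ∀ K : ℕ, 1 ≤ K → (K : ℝ) ≤ B * Real.log (Real.log X) →
    ∀ P : Fin K → ℤ[X], (∀ i, 1 ≤ (P i).natDegree ∧ (P i).natDegree ≤ D) → (∀ i, ∀ p : ℕ, p.Prime → Prim (P i) p) →
    (∀ i, ∀ n ∈ Icc 1 X, 0 ≤ (P i).eval (n : ℤ) ∧ (((P i).eval (n : ℤ) : ℤ) : ℝ) ≤ (X : ℝ) ^ (P i).natDegree * Real.log X ^ Cc) →
    ∀ H : Fin K → ℕ, (∀ i, (X : ℝ) ^ (P i).natDegree ≤ H i * Real.log X ^ Cc ∧ (H i : ℝ) ≤ (X : ℝ) ^ (P i).natDegree * Real.log X ^ Cc) →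
    ∀ c : ℕ → ℝ, (∀ n, |c n| ≤ 1) →
    (((Fintype.piFinset (fun i : Fin K => range (H i))).filter (fun m : Fin K → ℕ => AdmS P (fun i => (m i : ℤ)) ∧
      ¬ GoodP P (fun i => (m i : ℤ)) c X A (zL E (Real.log X)))).card : ℝ) ≤
      (1 / Real.log X ^ A) * (((Fintype.piFinset (fun i : Fin K => range (H i))).filter (fun m : Fin K → ℕ => AdmS P (fun i => (m i : ℤ)))).card : ℝ) := by
  classical
  obtain ⟨p, Cp, hp, hCp, hen⟩ := hPE D
  obtain ⟨A1, La, hsa⟩ := hSA (A + 3) B D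
  obtain ⟨A2, Lb, hsb⟩ := hSB B D (A + 3 + 4) (by omega)
  set B' : ℕ := B * (D + 1) with hB'
  set R : ℕ := 8 * B' + 1 with hR
  set b0 : ℕ := 2 * R + A1 + A2 + 1 with hb0
  obtain ⟨Ec, hcore⟩ := core_class hLF hMO hEQ (2 * A + b0 + 4) B' (Cc + 1) D p hp
  refine ⟨max (max Ec (2 * R + 1)) (A + 3 + 4), fun E hE => ?_⟩
  have hE1 : Ec ≤ E := le_trans (le_trans (le_max_left _ _) (le_max_left _ _)) hE
  have hE2 : 2 * R + 1 ≤ E := le_trans (le_trans (le_max_right _ _) (le_max_left _ _)) hE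
  have hE3 : A + 3 + 4 ≤ E := le_trans (le_max_right _ _) hE
  obtain ⟨T0, hcoreE⟩ := hcore E hE1
  obtain ⟨Lc, hsc⟩ := hSC (A + 3) B D E
  obtain ⟨X1, hml⟩ := hML B E (A + b0 + 1) D (by omega)
  obtain ⟨Ld, hcond⟩ := cond_ev B' Cc 0 R E 0 0 hE2 (by omega)
  obtain ⟨Le, hcp⟩ := cp_ev B Cc D R E (A + b0 + 1) Cp
  refine ⟨max (max T0 X1) (max 3 ⌈Real.exp (max (max La Lb) (max (max Lc Ld) Le))⌉₊), fun X hX K hK hKB P hdeg hprim hval H hH c hc => ?_⟩
  have hX1 : T0 ≤ X := le_trans (le_trans (le_max_left _ _) (le_max_left _ _)) hX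
  have hX2 : X1 ≤ X := le_trans (le_trans (le_max_right _ _) (le_max_left _ _)) hX
  have hX3 : 3 ≤ X := le_trans (le_trans (le_max_left _ _) (le_max_right _ _)) hX
  have hX0 : (0 : ℝ) < X := by exact_mod_cast (by omega : 0 < X)
  have hXL : Real.exp (max (max La Lb) (max (max Lc Ld) Le)) ≤ X := (Nat.le_ceil _).trans (by exact_mod_cast le_trans (le_trans (le_max_right _ _) (le_max_right _ _)) hX)
  obtain ⟨L, hL⟩ : ∃ L : ℝ, L = Real.log X := ⟨_, rfl⟩
  have hLmax : max (max La Lb) (max (max Lc Ld) Le) ≤ L := by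
    rw [hL]
    exact (Real.le_log_iff_exp_le hX0).2 hXL
  have gLa : La ≤ L := le_trans (le_trans (le_max_left _ _) (le_max_left _ _)) hLmax
  have gLb : Lb ≤ L := le_trans (le_trans (le_max_right _ _) (le_max_left _ _)) hLmax
  have gLc : Lc ≤ L := le_trans (le_trans (le_trans (le_max_left _ _) (le_max_left _ _)) (le_max_right _ _)) hLmax
  have gLd : Ld ≤ L := le_trans (le_trans (le_trans (le_max_right _ _) (le_max_left _ _)) (le_max_right _ _)) hLmax
  have gLe : Le ≤ L := le_trans (le_trans (le_max_right _ _) (le_max_right _ _)) hLmax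
  have cd := hcond L gLd
  have cp := hcp L gLe
  have hL1 := cd.l1
  have hl3 := cd.l0
  have hL0 : 0 < L := by linarith
  have hexpL : Real.exp L = X := by rw [hL, Real.exp_log hX0]
  have hcoreX := hcoreE X hX1 K hK
  have hmlX := hml X hX2 K hK hKB
  rw [← hL] at hKB hval hH hcoreX hmlX ⊢
  have hD1 : 1 ≤ D := (hdeg ⟨0, hK⟩).1.trans (hdeg ⟨0, hK⟩).2
  have hKB' : (K : ℝ) ≤ B' * Real.log L := by
    refine hKB.trans ?_
    rw [hB']
    push_cast
    have : (B : ℝ) * Real.log L * 1 ≤ (B : ℝ) * Real.log L * (D + 1) := by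
      apply mul_le_mul_of_nonneg_left _ (by positivity)
      have : (0 : ℝ) ≤ D := by positivity
      linarith
    nlinarith
  obtain ⟨z, hz⟩ : ∃ z : ℕ, z = zL E L := ⟨_, rfl⟩
  have hz1 : (z : ℝ) ≤ L ^ E := by
    rw [hz]
    exact Nat.floor_le (by positivity)
  have hz2 : L ^ E - 1 ≤ (z : ℝ) := by
    rw [hz]
    have := (Nat.lt_floor_add_one (L ^ E)).le
    unfold zL
    linarith
  obtain ⟨w, hw⟩ : ∃ w : ℕ, w = ⌈((8 * B' + 1 : ℕ) : ℝ) * Real.log L⌉₊ := ⟨_, rfl⟩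
  have hwf := W_facts cd hR K z hKB' hz2
  rw [show (⌈(R : ℝ) * Real.log L⌉₊) = w from by rw [hw, hR]] at hwf
  obtain ⟨_, _, _, hWL, _, hwz⟩ := hwf
  have hw8 : 8 * D * K ≤ w := by
    have h1 : ((8 * D * K : ℕ) : ℝ) ≤ (w : ℝ) := by
      have hceil : ((8 * B' + 1 : ℕ) : ℝ) * Real.log L ≤ (w : ℝ) := by rw [hw]; exact Nat.le_ceil _
      refine le_trans ?_ hceil
      rw [hB']
      push_cast
      have hD0 : (0 : ℝ) ≤ D := by positivity
      have hB0 : (0 : ℝ) ≤ B := by positivity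
      have h2 : 8 * (D : ℝ) * K ≤ 8 * (D : ℝ) * (B * Real.log L) := mul_le_mul_of_nonneg_left hKB (by positivity)
      have h3 : (0 : ℝ) ≤ B * Real.log L := by positivity
      nlinarith
    exact_mod_cast h1
  obtain ⟨W, hW⟩ : ∃ W : ℕ, W = Wm w := ⟨_, rfl⟩
  have hW1 : 1 ≤ W := by rw [hW]; exact Wm_pos w
  rw [← hW] at hWL
  have hV0 : 0 < (Vz w)⁻¹ := inv_pos.2 (Vz_pos w)
  have hV1 : 1 ≤ (Vz w)⁻¹ := (one_le_inv₀ (Vz_pos w)).2 (Vz_le_one w)
  have hVK : 1 ≤ (Vz w)⁻¹ ^ K := one_le_pow₀ hV1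
  have hdegD : ∀ i, (P i).natDegree ≤ D := fun i => (hdeg i).2
  have hside : ∀ i, Real.exp (L / 4) ≤ ((H i / W : ℕ) : ℝ) := fun i =>
    sides_num cp hL1 hexpL (by omega) (hdeg i).1 hW1 hWL (hH i).1
  -- the core estimate
  have hcoreC : ∀ c' : ℕ → ℝ, (∀ n, |c' n| ≤ 1) → ∀ cc : Fin K → ℕ, (∀ i, cc i < W) →
      ∑ u ∈ Fintype.piFinset (fun i : Fin K => range (H i / W + 1)),
        |Tf P (fun i => ((W * u i + cc i : ℕ) : ℤ)) c' X z - TG P (fun i => ((W * u i + cc i : ℕ) : ℤ)) c' X z| ≤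
      X * (∏ i, ((H i / W + 1 : ℕ) : ℝ)) * (Vz w)⁻¹ ^ K / L ^ (2 * A + b0 + 4) := by
    intro c' hc' cc hcc
    have h1 := hcoreX (by rw [hL] at hKB'; rw [hL]; exact hKB') (fun t => t) (fun i t => (P i).eval ((t : ℤ) + 1)) (fun i => X ^ (P i).natDegree) H
      (fun i => by
        show X ≤ X ^ (P i).natDegree
        exact Nat.le_self_pow (by have := (hdeg i).1; omega) X)
      (fun i => by
        push_cast
        exact pow_le_pow_right₀ (by exact_mod_cast (by omega : 1 ≤ X)) (hdeg i).2)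
      (fun i t ht => by
        have h2 := hval i (t + 1) (mem_Icc.2 ⟨by omega, by omega⟩)
        push_cast at h2 ⊢
        have h3 : (0 : ℝ) ≤ (((P i).eval ((t : ℤ) + 1) : ℤ) : ℝ) := by exact_mod_cast h2.1
        rw [abs_of_nonneg h3]
        refine h2.2.trans ?_
        apply mul_le_mul_of_nonneg_left _ (by positivity)
        exact pow_le_pow_right₀ (by linarith) (by omega))
      (fun i => by
        set f : ℤ[X] := (P i).comp (Polynomial.X + C 1) with hf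
        have hfd : f.natDegree = (P i).natDegree := by
          rw [hf, natDegree_comp, natDegree_X_add_C, mul_one]
        have h2 := hen X f (by rw [hfd]; exact (hdeg i).1) (by rw [hfd]; exact (hdeg i).2)
        have h3 : (fun t : Fin X => f.eval ((t : ℕ) : ℤ)) = fun t : Fin X => (P i).eval (((t : ℕ) : ℤ) + 1) := by
          funext t
          rw [hf, eval_comp, eval_add, eval_X, eval_C]
        rw [h3, hfd] at h2
        push_cast
        refine h2.trans ?_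
        apply mul_le_mul_of_nonneg_right _ (by positivity)
        refine cp.a1.trans ?_
        exact le_self_pow₀ (by linarith) (by omega))
      (fun i t _ t' _ q h => by
        have h2 : (q : ℤ) ∣ (t : ℤ) - (t' : ℤ) := by
          have : t ≡ t' [MOD q] := h
          exact (Nat.modEq_iff_dvd.1 this.symm)
        have h3 : (q : ℤ) ∣ (P i).eval ((t : ℤ) + 1) - (P i).eval ((t' : ℤ) + 1) := by
          refine h2.trans ?_
          have := Polynomial.sub_dvd_eval_sub ((t : ℤ) + 1) ((t' : ℤ) + 1) (P i)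
          rwa [add_sub_add_right_eq_sub] at this
        exact Int.emod_eq_emod_iff_emod_sub_eq_zero.2 (Int.emod_eq_zero_of_dvd h3))
      (fun i => by
        push_cast
        refine (hH i).1.trans ?_
        apply mul_le_mul_of_nonneg_left _ (by positivity)
        exact pow_le_pow_right₀ (by linarith) (by omega))
      (fun i => by
        push_cast
        refine (hH i).2.trans ?_
        apply mul_le_mul_of_nonneg_left _ (by positivity)
        exact pow_le_pow_right₀ (by linarith) (by omega))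
      (fun t => c' (t + 1)) (fun n => hc' _) cc (fun i => by rw [← hw, ← hW]; exact hcc i)
    rw [← hw, ← hW, ← hz] at h1
    refine le_trans (le_of_eq ?_) h1
    apply sum_congr rfl
    intro u _
    congr 1
    unfold Tf TG
    rw [← sum_sub_distrib, sum_shift]
    apply sum_congr rfl
    intro t _
    rw [mul_sub]
    push_cast
    rfl
  -- the counting
  refine class_count W hW1 H (fun m : Fin K → ℕ => AdmS P (fun i => (m i : ℤ))) (fun m : Fin K → ℕ => GoodP P (fun i => (m i : ℤ)) c X A z)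
    (4 * ((∏ i, ((H i / W + 1 : ℕ) : ℝ)) / L ^ (A + 3))) (1 / L ^ A) (fun m => by
      rw [hW]
      exact adm_mod hNU P hdegD hprim hD1 hK hw8 m) ?_ ?_ (by positivity) |> (by rw [← hz]; exact ·)
  · intro cc hcc hadm
    set Pi := Fintype.piFinset (fun i : Fin K => range (H i / W + 1)) with hPi
    set PP : ℝ := ∏ i, ((H i / W + 1 : ℕ) : ℝ) with hPP
    have hPP0 : 0 ≤ PP := prod_nonneg fun i _ => Nat.cast_nonneg _
    set Φ : (ℕ → ℝ) → (Fin K → ℕ) → ℝ := fun c' u =>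
      |Tf P (fun i => ((W * u i + cc i : ℕ) : ℤ)) c' X z - TG P (fun i => ((W * u i + cc i : ℕ) : ℤ)) c' X z| with hΦ
    set t0 : ℝ := X * (Vz w)⁻¹ ^ K / L ^ (A + b0 + 1) with ht0
    have ht0' : 0 < t0 := by positivity
    have hmark : ∀ c' : ℕ → ℝ, (∀ n, |c' n| ≤ 1) → ((Pi.filter (fun u => t0 < Φ c' u)).card : ℝ) ≤ PP / L ^ (A + 3) := by
      intro c' hc'
      refine (markov_card Pi (Φ c') (fun x _ => abs_nonneg _) t0 _ ht0' (hcoreC c' hc' cc hcc)).trans (le_of_eq ?_)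
      rw [ht0]
      have e : L ^ (2 * A + b0 + 4) = L ^ (A + b0 + 1) * L ^ (A + 3) := by rw [← pow_add]; congr 1; ring
      rw [e]
      have hx1 : L ^ (A + b0 + 1) ≠ 0 := by positivity
      have hx2 : L ^ (A + 3) ≠ 0 := by positivity
      have hx3 : (Vz w)⁻¹ ^ K ≠ 0 := by positivity
      have hx4 : (X : ℝ) ≠ 0 := hX0.ne'
      generalize (Vz w)⁻¹ ^ K = v at hx3 ⊢
      field_simp
    have hHyp : Hyp B D L K P w W (fun i => H i / W + 1) := by
      refine ⟨hK, hD1, hKB, hdegD, hprim, hw8, ?_, ?_⟩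
      · intro q hq hwq h
        rw [hW, dvd_Wm w q hq] at h
        omega
      · intro i
        refine (hside i).trans ?_
        push_cast
        linarith
    have e1 : ∀ u : Fin K → ℕ, (fun i => (W : ℤ) * ((u i : ℕ) : ℤ) + ((cc i : ℕ) : ℤ)) = fun i => ((W * u i + cc i : ℕ) : ℤ) := by
      intro u
      funext i
      push_cast
      rfl
    have hA := hsa L gLa K P w W (fun i => H i / W + 1) (fun i => (cc i : ℤ)) hHyp
    have hC := hsc L gLc K P w W (fun i => H i / W + 1) (fun i => (cc i : ℤ)) z hHyp hz1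
    simp only [e1] at hA hC
    have hsub : Pi.filter (fun u => ¬ GoodP P (fun i => ((W * u i + cc i : ℕ) : ℤ)) c X A z) ⊆
        (Pi.filter (fun u => t0 < Φ c u) ∪ Pi.filter (fun u => t0 < Φ (fun _ => 1) u)) ∪
        (Pi.filter (fun u => ∏ q ∈ (Icc 1 ⌊L / 8⌋₊).filter (fun q => q.Prime ∧ w < q), Fac P (fun i => ((W * u i + cc i : ℕ) : ℤ)) q < 1 / L ^ A1) ∪
          Pi.filter (fun u => ∏ q ∈ (Icc 1 z).filter (fun q => q.Prime ∧ w < q ∧ ⌊L ^ (A + 3 + 4)⌋₊ < q), Fac P (fun i => ((W * u i + cc i : ℕ) : ℤ)) q < 1 / L)) := by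
      intro u hu
      rw [mem_filter] at hu
      obtain ⟨hu1, hu2⟩ := hu
      by_contra hcon
      rw [mem_union, mem_union, mem_union, mem_filter, mem_filter, mem_filter, mem_filter] at hcon
      push Not at hcon
      obtain ⟨⟨n1, n2⟩, n3, n4⟩ := hcon
      apply hu2
      set m : Fin K → ℤ := fun i => ((W * u i + cc i : ℕ) : ℤ) with hm
      have hadm' : AdmS P m := by
        have h1 := (adm_mod hNU P hdegD hprim hD1 hK hw8 (fun i => W * u i + cc i)).2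
        apply h1
        have e2 : (fun i => (((W * u i + cc i) % Wm w : ℕ) : ℤ)) = fun i => (cc i : ℤ) := by
          funext i
          rw [← hW, Nat.mul_add_mod, Nat.mod_eq_of_lt (hcc i)]
        rw [e2]
        exact hadm
      have hlow := low_lS hNU (A := A + 3) (A1 := A1) (A2 := A2) (E := E) (R := R) hL1 P hdegD hprim hw8 m hadm' hz hwz hE3 (by rw [← hW]; exact hWL)
        (n3 hu1) (hsb L gLb K P w W (fun i => H i / W + 1) m hHyp) (n4 hu1)
      have hPd : ∀ i, 1 ≤ (P i + C (m i)).natDegree ∧ (P i + C (m i)).natDegree ≤ D := by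
        intro i
        rw [natDegree_add_C]
        exact hdeg i
      have hmb : ∀ i, 0 ≤ m i ∧ (m i : ℝ) ≤ (X : ℝ) ^ (P i).natDegree * L ^ Cc * 2 := by
        intro i
        have h1 := mem_range.1 ((Fintype.mem_piFinset.1 hu1) i)
        refine ⟨by rw [hm]; positivity, ?_⟩
        have h2 : W * u i ≤ H i := (Nat.mul_le_mul_left W (Nat.lt_succ_iff.1 h1)).trans (Nat.mul_div_le (H i) W)
        have h3 : W * u i + cc i ≤ 2 * H i := by
          have h4 := hcc i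
          have h5 : W ≤ H i := by
            have h6 := hside i
            have h7 : (1 : ℝ) ≤ ((H i / W : ℕ) : ℝ) := (Real.one_le_exp (by linarith)).trans h6
            have h8 : 1 ≤ H i / W := by exact_mod_cast h7
            have h9 := Nat.mul_div_le (H i) W
            nlinarith
          omega
        have h4 : ((W * u i + cc i : ℕ) : ℝ) ≤ 2 * (H i : ℝ) := by exact_mod_cast h3
        have h5 := (hH i).2
        rw [hm]
        push_cast at h4 ⊢
        linarith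
      have hpos : ∀ i, ∀ n ∈ Icc 1 X, 0 ≤ (P i + C (m i)).eval (n : ℤ) := by
        intro i n hn
        rw [eval_add, eval_C]
        exact add_nonneg (hval i n hn).1 (hmb i).1
      have hml1 := hmlX (fun i => P i + C (m i)) hPd hpos X le_rfl
      rw [nP_nuS, ← hz] at hml1
      have hM : ∀ i, ∀ n ∈ Icc 1 X, Real.log (((P i + C (m i)).eval (n : ℤ)).toNat : ℝ) ≤ (D + 2) * L := by
        intro i n hn
        have h1 : ((((P i + C (m i)).eval (n : ℤ)).toNat : ℕ) : ℝ) = (((P i).eval (n : ℤ) : ℤ) : ℝ) + (m i : ℝ) := by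
          have h2 : (((((P i + C (m i)).eval (n : ℤ)).toNat : ℕ) : ℤ) : ℝ) = ((((P i + C (m i)).eval (n : ℤ)) : ℤ) : ℝ) := by
            rw [Int.toNat_of_nonneg (hpos i n hn)]
          rw [eval_add, eval_C] at h2 ⊢
          push_cast at h2 ⊢
          linarith
        rw [h1]
        have h3 := hval i n hn
        refine log_val cp hL1 hexpL (hdeg i).2 h3.2 (hmb i).2 ?_
        have h4 : (0 : ℝ) ≤ (((P i).eval (n : ℤ) : ℤ) : ℝ) := by exact_mod_cast h3.1
        have h5 : (0 : ℝ) ≤ (m i : ℝ) := by exact_mod_cast (hmb i).1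
        linarith
      have hsm : ∀ c' : ℕ → ℝ, (∀ n, |c' n| ≤ 1) → |TF P m c' X - Tf P m c' X z| ≤ X / L ^ (A + b0 + 1) := by
        intro c' hc'
        have h1 := fp_Fp (fun i => P i + C (m i)) hPd X z ((D + 2) * L) (by positivity) hM c' hc'
        have h2 := small_num cp hL1 hl3 hexpL hKB hz1
        refine le_trans (le_of_eq ?_) (h1.trans h2)
        unfold TF Tf
        simp only [eval_add, eval_C]
      refine good_of hL (by linarith) P m c hlow hVK ?_ (hsm _ (fun _ => by simp)) (hsm c hc) (n2 hu1) (n1 hu1)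
      refine le_trans (le_of_eq ?_) hml1
      unfold TG
      simp only [eval_add, eval_C, one_mul]
    have hcard := card_le_card hsub
    have h3 := (card_union_le (Pi.filter (fun u => t0 < Φ c u) ∪ Pi.filter (fun u => t0 < Φ (fun _ => 1) u))
        (Pi.filter (fun u => ∏ q ∈ (Icc 1 ⌊L / 8⌋₊).filter (fun q => q.Prime ∧ w < q), Fac P (fun i => ((W * u i + cc i : ℕ) : ℤ)) q < 1 / L ^ A1) ∪
          Pi.filter (fun u => ∏ q ∈ (Icc 1 z).filter (fun q => q.Prime ∧ w < q ∧ ⌊L ^ (A + 3 + 4)⌋₊ < q), Fac P (fun i => ((W * u i + cc i : ℕ) : ℤ)) q < 1 / L)))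
    have h4 := card_union_le (Pi.filter (fun u => t0 < Φ c u)) (Pi.filter (fun u => t0 < Φ (fun _ => 1) u))
    have h5 := card_union_le (Pi.filter (fun u => ∏ q ∈ (Icc 1 ⌊L / 8⌋₊).filter (fun q => q.Prime ∧ w < q), Fac P (fun i => ((W * u i + cc i : ℕ) : ℤ)) q < 1 / L ^ A1))
          (Pi.filter (fun u => ∏ q ∈ (Icc 1 z).filter (fun q => q.Prime ∧ w < q ∧ ⌊L ^ (A + 3 + 4)⌋₊ < q), Fac P (fun i => ((W * u i + cc i : ℕ) : ℤ)) q < 1 / L))
    have h6 := hmark c hc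
    have h7 := hmark (fun _ => 1) (fun _ => by simp)
    have hnat := hcard.trans (h3.trans (add_le_add h4 h5))
    have hreal : ((Pi.filter (fun u => ¬ GoodP P (fun i => ((W * u i + cc i : ℕ) : ℤ)) c X A z)).card : ℝ) ≤
        ((Pi.filter (fun u => t0 < Φ c u)).card + (Pi.filter (fun u => t0 < Φ (fun _ => 1) u)).card : ℝ) +
        ((Pi.filter (fun u => ∏ q ∈ (Icc 1 ⌊L / 8⌋₊).filter (fun q => q.Prime ∧ w < q), Fac P (fun i => ((W * u i + cc i : ℕ) : ℤ)) q < 1 / L ^ A1)).card +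
          (Pi.filter (fun u => ∏ q ∈ (Icc 1 z).filter (fun q => q.Prime ∧ w < q ∧ ⌊L ^ (A + 3 + 4)⌋₊ < q), Fac P (fun i => ((W * u i + cc i : ℕ) : ℤ)) q < 1 / L)).card : ℝ) := by
      exact_mod_cast hnat
    refine hreal.trans ?_
    have hA' : ((Pi.filter (fun u => ∏ q ∈ (Icc 1 ⌊L / 8⌋₊).filter (fun q => q.Prime ∧ w < q), Fac P (fun i => ((W * u i + cc i : ℕ) : ℤ)) q < 1 / L ^ A1)).card : ℝ) ≤ PP / L ^ (A + 3) := by
      convert hA using 2
    have hC' : ((Pi.filter (fun u => ∏ q ∈ (Icc 1 z).filter (fun q => q.Prime ∧ w < q ∧ ⌊L ^ (A + 3 + 4)⌋₊ < q), Fac P (fun i => ((W * u i + cc i : ℕ) : ℤ)) q < 1 / L)).card : ℝ) ≤ PP / L ^ (A + 3) := by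
      convert hC using 2
    linarith
  · have h1 := prod_bound (fun i => H i / W) (fun i => H i / W + 1) 1 (Real.exp (L / 4)) (Real.exp_pos _) hside (fun i => by omega) (by
      have h2 := cp.a3
      have h3 : (K : ℝ) ≤ B * L := hKB.trans (by
        apply mul_le_mul_of_nonneg_left _ (by positivity)
        exact (Real.log_le_sub_one_of_pos hL0).trans (by linarith))
      rw [pow_one] at h2
      push_cast
      linarith)
    have h2 : ∏ i, ((H i / W + 1 : ℕ) : ℝ) ≤ 2 * ∏ i, ((H i / W : ℕ) : ℝ) := by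
      simpa using h1
    have h3 : 0 ≤ ∏ i, ((H i / W : ℕ) : ℝ) := prod_nonneg fun i _ => Nat.cast_nonneg _
    have h4 : (8 : ℝ) ≤ L ^ 3 := by nlinarith [sq_nonneg L]
    have e : L ^ (A + 3) = L ^ A * L ^ 3 := pow_add _ _ _
    rw [e, mul_div_assoc', div_mul_eq_mul_div, div_le_div_iff₀ (by positivity) (by positivity)]
    have h5 : 0 < L ^ A := by positivity
    have h6 : 4 * ∏ i, ((H i / W + 1 : ℕ) : ℝ) ≤ L ^ 3 * ∏ i, ((H i / W : ℕ) : ℝ) := by
      calc 4 * ∏ i, ((H i / W + 1 : ℕ) : ℝ) ≤ 8 * ∏ i, ((H i / W : ℕ) : ℝ) := by linarith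
        _ ≤ _ := mul_le_mul_of_nonneg_right h4 h3
    nlinarith

end

end Run7.h402.PG
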