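import Mathlib
import Pool.Agent.Run7.h402.PG.G12

/-!
# The asymptotic formula for almost all admissible systems of polynomials, on all initial intervals at the same time
-/

set_option autoImplicit false

open Finset Polynomial

namespace Run7.h402.PG

open Run7.h402.PX Run7.h402.PD Run7.h402.PY Run7.h402.PC
open Pool.Agent.H373R2.T7
open Pool.Agent.N475.SP (dom)

noncomputable section

/-- the asymptotic formulas on all initial intervals -/
def GoodR {K : ℕ} (P : Fin K → ℤ[X]) (m : Fin K → ℤ) (c : ℕ → ℝ) (X A z : ℕ) : Prop :=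
  0 < lS K (nuS P m) z ∧ (∀ y : ℕ, y ≤ X → |TF P m (fun _ => 1) y - lS K (nuS P m) z * y| ≤ lS K (nuS P m) z * (X / Real.log X ^ A)) ∧
    |TF P m c X - TG P m c X z| ≤ lS K (nuS P m) z * (X / Real.log X ^ A)

theorem ind_sum (F : ℕ → ℝ) (g X : ℕ) (hg : g ≤ X) : ∑ n ∈ Icc 1 X, (if n ≤ g then (1 : ℝ) else 0) * F n = ∑ n ∈ Icc 1 g, 1 * F n := by
  have h1 : Icc 1 g = (Icc 1 X).filter (fun n => n ≤ g) := by
    ext n
    rw [mem_filter, mem_Icc, mem_Icc]
    omega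
  rw [h1, sum_filter]
  apply sum_congr rfl
  intro n _
  split_ifs <;> ring

/-- the weights of the grid -/
def cw (c : ℕ → ℝ) (q X : ℕ) : ℕ → ℕ → ℝ
  | 0 => c
  | j + 1 => fun n => if n ≤ min (j * q) X then 1 else 0

theorem cw_le (c : ℕ → ℝ) (hc : ∀ n, |c n| ≤ 1) (q X j : ℕ) (n : ℕ) : |cw c q X j n| ≤ 1 := by
  cases j with
  | zero => exact hc n
  | succ j =>
    show |(if n ≤ min (j * q) X then (1 : ℝ) else 0)| ≤ 1
    split_ifs <;> norm_num

theorem TF_mono {K : ℕ} (P : Fin K → ℤ[X]) (m : Fin K → ℤ) (y y' : ℕ) (h : y ≤ y') : TF P m (fun _ => 1) y ≤ TF P m (fun _ => 1) y' := by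
  unfold TF
  apply sum_le_sum_of_subset_of_nonneg
  · intro n hn
    rw [mem_Icc] at hn ⊢
    omega
  · intro n _ _
    rw [one_mul]
    exact prod_nonneg fun i _ => Run7.h402.PT.Fp_nonneg _

theorem goodR_of {K X A z q J : ℕ} {L : ℝ} (hL : L = Real.log X) (hL4 : 4 ≤ L) (hLX : L ^ (A + 2) ≤ X) (P : Fin K → ℤ[X]) (m : Fin K → ℤ) (c : ℕ → ℝ)
    (hq : q = ⌈(X : ℝ) / L ^ (A + 2)⌉₊) (hJ : J = X / q + 1) (h : ∀ j ∈ range (J + 2), GoodQ P m (cw c q X j) X (2 * A + 4) z) : GoodR P m c X A z := by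
  set S := lS K (nuS P m) z with hS
  have hL0 : 0 < L := by linarith
  have hX0 : (0 : ℝ) < X := lt_of_lt_of_le (by positivity) hLX
  have hq1 : 1 ≤ q := by
    rw [hq]
    exact Nat.ceil_pos.2 (by positivity)
  have h0 := h 0 (mem_range.2 (by omega))
  have hS0 : 0 < S := h0.1.1
  have hsm : X / L ^ (2 * A + 4) ≤ X / L ^ (A + 4) := by
    apply div_le_div_of_nonneg_left hX0.le (by positivity)
    exact pow_le_pow_right₀ (by linarith) (by omega)
  have e4 : X / L ^ (A + 4) = X / L ^ A / L ^ 4 := by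
    rw [pow_add, div_div]
  have e2 : X / L ^ (A + 2) = X / L ^ A / L ^ 2 := by
    rw [pow_add, div_div]
  set Y := (X : ℝ) / L ^ A with hY
  have hY0 : 0 < Y := by positivity
  have hL2 : (16 : ℝ) ≤ L ^ 2 := by nlinarith
  have hL44 : (16 : ℝ) ≤ L ^ 4 := by nlinarith [sq_nonneg (L ^ 2)]
  have hb4 : X / L ^ (2 * A + 4) ≤ Y / 16 := by
    refine hsm.trans ?_
    rw [e4]
    exact div_le_div_of_nonneg_left hY0.le (by norm_num) hL44
  have hb2 : X / L ^ (A + 2) ≤ Y / 16 := by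
    rw [e2]
    exact div_le_div_of_nonneg_left hY0.le (by norm_num) hL2
  have hqle : (q : ℝ) ≤ Y / 8 := by
    have h1 : (q : ℝ) < X / L ^ (A + 2) + 1 := by
      rw [hq]
      exact Nat.ceil_lt_add_one (by positivity)
    have h2 : (1 : ℝ) ≤ X / L ^ (A + 2) := by
      rw [le_div_iff₀ (by positivity), one_mul]
      exact hLX
    linarith
  have hgrid : ∀ j, j ≤ J → |TF P m (fun _ => 1) (min (j * q) X) - S * ((min (j * q) X : ℕ) : ℝ)| ≤ S * (Y / 8) := by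
    intro j hj
    have h1 := h (j + 1) (mem_range.2 (by omega))
    obtain ⟨⟨_, _, h2⟩, h3⟩ := h1
    rw [← hL] at h2 h3
    have h4 := h3 (min (j * q) X) (Nat.min_le_right _ _)
    have e5 : TF P m (cw c q X (j + 1)) X = TF P m (fun _ => 1) (min (j * q) X) := by
      unfold TF cw
      exact ind_sum _ _ _ (Nat.min_le_right _ _)
    have e6 : TG P m (cw c q X (j + 1)) X z = TG P m (fun _ => 1) (min (j * q) X) z := by
      unfold TG cw
      exact ind_sum _ _ _ (Nat.min_le_right _ _)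
    rw [e5, e6] at h2
    have h5 := abs_sub_le (TF P m (fun _ => 1) (min (j * q) X)) (TG P m (fun _ => 1) (min (j * q) X) z) (S * ((min (j * q) X : ℕ) : ℝ))
    have h6 : S * (X / L ^ (2 * A + 4)) ≤ S * (Y / 16) := mul_le_mul_of_nonneg_left hb4 hS0.le
    have h7 : S * (Y / 8) = S * (Y / 16) + S * (Y / 16) := by ring
    rw [h7]
    linarith
  refine ⟨hS0, fun y hy => ?_, ?_⟩
  · rw [← hL]
    show |TF P m (fun _ => 1) y - S * y| ≤ S * Y
    obtain ⟨j, hj⟩ : ∃ j : ℕ, j = y / q := ⟨_, rfl⟩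
    have hjX : j ≤ X / q := by
      rw [hj]
      exact Nat.div_le_div_right hy
    have k1 : j * q ≤ y := by
      rw [hj]
      exact Nat.div_mul_le_self y q
    have k2 : y < (j + 1) * q := by
      rw [hj]
      exact Nat.lt_mul_of_div_lt (Nat.lt_succ_self _) hq1
    have m1 : min (j * q) X ≤ y := (Nat.min_le_left _ _).trans k1
    have m2 : y ≤ min ((j + 1) * q) X := by
      rw [le_min_iff]
      exact ⟨k2.le, hy⟩
    have m3 : y ≤ min (j * q) X + q := by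
      rw [Nat.min_eq_left (k1.trans hy)]
      rw [Nat.add_mul, Nat.one_mul] at k2
      exact k2.le
    have m4 : min ((j + 1) * q) X ≤ y + q := by
      refine (Nat.min_le_left _ _).trans ?_
      rw [Nat.add_mul, Nat.one_mul]
      omega
    have g1 := hgrid j (by omega)
    have g2 := hgrid (j + 1) (by omega)
    have t1 := TF_mono P m _ _ m1
    have t2 := TF_mono P m _ _ m2
    rw [abs_le] at g1 g2 ⊢
    have r3 : (y : ℝ) ≤ ((min (j * q) X : ℕ) : ℝ) + q := by exact_mod_cast m3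
    have r4 : ((min ((j + 1) * q) X : ℕ) : ℝ) ≤ (y : ℝ) + q := by exact_mod_cast m4
    have s3 : S * (y : ℝ) ≤ S * ((min (j * q) X : ℕ) : ℝ) + S * (Y / 8) := by
      have := mul_le_mul_of_nonneg_left (r3.trans (add_le_add_right hqle _)) hS0.le
      linarith
    have s4 : S * ((min ((j + 1) * q) X : ℕ) : ℝ) ≤ S * (y : ℝ) + S * (Y / 8) := by
      have := mul_le_mul_of_nonneg_left (r4.trans (add_le_add_right hqle _)) hS0.le
      linarith
    have s5 : S * Y = 8 * (S * (Y / 8)) := by ring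
    have s6 : 0 ≤ S * (Y / 8) := by positivity
    rw [s5]
    constructor <;> linarith
  · rw [← hL]
    have h1 := h0.1.2.2
    rw [← hL] at h1
    refine h1.trans ?_
    apply mul_le_mul_of_nonneg_left _ hS0.le
    refine hb4.trans ?_
    linarith

open Classical in
/-- **The asymptotic formula for almost all admissible systems of polynomials, on all initial intervals at the same time** -/
theorem main_all (hLF : S_LF) (hMO : S_MO) (hEQ : S_EQ) (hPE : S_PE) (hML : S_ML) (hNU : S_NU) (hSA : S_SA) (hSB : S_SB) (hSC : S_SC)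
    (A B Cc D : ℕ) : ∃ E0 : ℕ, ∀ E : ℕ, E0 ≤ E → ∃ X0 : ℕ, ∀ X : ℕ, X0 ≤ X → ∀ K : ℕ, 1 ≤ K → (K : ℝ) ≤ B * Real.log (Real.log X) →
    ∀ P : Fin K → ℤ[X], (∀ i, 1 ≤ (P i).natDegree ∧ (P i).natDegree ≤ D) → (∀ i, ∀ p : ℕ, p.Prime → Prim (P i) p) →
    (∀ i, ∀ n ∈ Icc 1 X, 0 ≤ (P i).eval (n : ℤ) ∧ (((P i).eval (n : ℤ) : ℤ) : ℝ) ≤ (X : ℝ) ^ (P i).natDegree * Real.log X ^ Cc) →
    ∀ H : Fin K → ℕ, (∀ i, (X : ℝ) ^ (P i).natDegree ≤ H i * Real.log X ^ Cc ∧ (H i : ℝ) ≤ (X : ℝ) ^ (P i).natDegree * Real.log X ^ Cc) →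
    ∀ c : ℕ → ℝ, (∀ n, |c n| ≤ 1) →
    (((Fintype.piFinset (fun i : Fin K => range (H i))).filter (fun m : Fin K → ℕ => AdmS P (fun i => (m i : ℤ)) ∧
      ¬ GoodR P (fun i => (m i : ℤ)) c X A (zL E (Real.log X)))).card : ℝ) ≤
      (1 / Real.log X ^ A) * (((Fintype.piFinset (fun i : Fin K => range (H i))).filter (fun m : Fin K → ℕ => AdmS P (fun i => (m i : ℤ)))).card : ℝ) := by
  obtain ⟨E0, h0⟩ := main_polyQ hLF hMO hEQ hPE hML hNU hSA hSB hSC (2 * A + 4) B Cc D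
  refine ⟨E0, fun E hE => ?_⟩
  obtain ⟨X0, h1⟩ := h0 E hE
  obtain ⟨a, ha⟩ := dom 1 1 (A + 2) one_pos
  refine ⟨max X0 (max 1 ⌈Real.exp (max a 4)⌉₊), fun X hX K hK hKB P hdeg hprim hval H hH c hc => ?_⟩
  have hX1 : X0 ≤ X := le_trans (le_max_left _ _) hX
  have hX2 : 1 ≤ X := le_trans (le_trans (le_max_left _ _) (le_max_right _ _)) hX
  have hX0 : (0 : ℝ) < X := by exact_mod_cast hX2
  have hXe : Real.exp (max a 4) ≤ X := (Nat.le_ceil _).trans (by exact_mod_cast le_trans (le_trans (le_max_right _ _) (le_max_right _ _)) hX)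
  obtain ⟨L, hL⟩ : ∃ L : ℝ, L = Real.log X := ⟨_, rfl⟩
  have hLm : max a 4 ≤ L := by
    rw [hL]
    exact (Real.le_log_iff_exp_le hX0).2 hXe
  have hL4 : 4 ≤ L := (le_max_right _ _).trans hLm
  have hL0 : 0 < L := by linarith
  have hLX : L ^ (A + 2) ≤ X := by
    have h2 := ha L ((le_max_left _ _).trans hLm)
    rw [one_mul, one_mul] at h2
    rwa [hL, Real.exp_log hX0, ← hL] at h2
  have h2 := h1 X hX1 K hK hKB P hdeg hprim hval H hH
  rw [← hL] at h2 ⊢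
  obtain ⟨z, hz⟩ : ∃ z : ℕ, z = zL E L := ⟨_, rfl⟩
  rw [← hz] at h2 ⊢
  obtain ⟨q, hq⟩ : ∃ q : ℕ, q = ⌈(X : ℝ) / L ^ (A + 2)⌉₊ := ⟨_, rfl⟩
  obtain ⟨J, hJ⟩ : ∃ J : ℕ, J = X / q + 1 := ⟨_, rfl⟩
  have hq1 : 1 ≤ q := by
    rw [hq]
    exact Nat.ceil_pos.2 (by positivity)
  set Bx := Fintype.piFinset (fun i : Fin K => range (H i)) with hBx
  set N : ℝ := ((Bx.filter (fun m : Fin K → ℕ => AdmS P (fun i => (m i : ℤ)))).card : ℝ) with hN
  have hN0 : 0 ≤ N := Nat.cast_nonneg _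
  obtain ⟨Q, hQ⟩ : ∃ Q : ℕ → (Fin K → ℕ) → Prop, ∀ j m, Q j m ↔ (AdmS P (fun i => (m i : ℤ)) ∧ ¬ GoodQ P (fun i => (m i : ℤ)) (cw c q X j) X (2 * A + 4) z) :=
    ⟨_, fun _ _ => Iff.rfl⟩
  have h3 := union_count Bx (range (J + 2)) Q (1 / L ^ (2 * A + 4) * N) (fun j _ => by
    refine le_trans (le_of_eq ?_) (h2 (cw c q X j) (cw_le c hc q X j))
    congr 2
    ext m
    simp only [mem_filter, hQ])
  have h4 : ((Bx.filter (fun m : Fin K → ℕ => AdmS P (fun i => (m i : ℤ)) ∧ ¬ GoodR P (fun i => (m i : ℤ)) c X A z)).card : ℝ) ≤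
      (range (J + 2)).card * (1 / L ^ (2 * A + 4) * N) := by
    refine le_trans (Nat.cast_le.2 (card_le_card ?_)) h3
    intro m hm
    rw [mem_filter] at hm ⊢
    refine ⟨hm.1, ?_⟩
    by_contra hcon
    push Not at hcon
    refine hm.2.2 (goodR_of hL hL4 hLX P _ c hq hJ (fun j hj => ?_))
    have h8 := hcon j hj
    rw [hQ] at h8
    by_contra h9
    exact h8 ⟨hm.2.1, h9⟩
  refine h4.trans ?_
  rw [card_range]
  have h5 : ((J + 2 : ℕ) : ℝ) ≤ L ^ (A + 3) := by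
    have h6 : ((X / q : ℕ) : ℝ) ≤ L ^ (A + 2) := by
      refine (Nat.cast_div_le).trans ?_
      rw [div_le_iff₀ (by exact_mod_cast hq1)]
      have h7 : (X : ℝ) / L ^ (A + 2) ≤ q := by
        rw [hq]
        exact Nat.le_ceil _
      rw [div_le_iff₀ (by positivity)] at h7
      linarith
    rw [hJ]
    push_cast
    have h7 : (1 : ℝ) ≤ L ^ (A + 2) := one_le_pow₀ (by linarith)
    have h8 : L ^ (A + 3) = L ^ (A + 2) * L := pow_succ _ _
    rw [h8]
    nlinarith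
  have h6 : ((J + 2 : ℕ) : ℝ) * (1 / L ^ (2 * A + 4)) ≤ 1 / L ^ A := by
    rw [mul_one_div, div_le_div_iff₀ (by positivity) (by positivity), one_mul]
    calc ((J + 2 : ℕ) : ℝ) * L ^ A ≤ L ^ (A + 3) * L ^ A := mul_le_mul_of_nonneg_right h5 (by positivity)
      _ = L ^ (2 * A + 3) := by rw [← pow_add]; congr 1; ring
      _ ≤ L ^ (2 * A + 4) := pow_le_pow_right₀ (by linarith) (by omega)
  calc ((J + 2 : ℕ) : ℝ) * (1 / L ^ (2 * A + 4) * N) = (((J + 2 : ℕ) : ℝ) * (1 / L ^ (2 * A + 4))) * N := by ring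
    _ ≤ (1 / L ^ A) * N := mul_le_mul_of_nonneg_right h6 hN0

end

end Run7.h402.PG
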